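import Pool.Agent.Lib.Hinf.Norming

/-!
# The Baire category step
-/

set_option autoImplicit false
set_option linter.unusedSimpArgs false

open Complex MeasureTheory Metric Set Filter Topology Real

namespace Pool.Agent.Hinf

theorem isClosed_isK (θ : HInf) : IsClosed {p : HInf × HInf | IsK θ p.1 p.2} := by
  rw [← isSeqClosed_iff_isClosed]
  intro p q hp hpq
  have h1 : Tendsto (fun n => ‖q.2 - (p n).2‖ + ‖θ‖ * ‖q.1 - (p n).1‖) atTop (𝓝 0) := by
    have a1 : Tendsto (fun n => (p n).1) atTop (𝓝 q.1) := (continuous_fst.tendsto q).comp hpq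
    have a2 : Tendsto (fun n => (p n).2) atTop (𝓝 q.2) := (continuous_snd.tendsto q).comp hpq
    have b1 : Tendsto (fun n => ‖q.1 - (p n).1‖) atTop (𝓝 0) := by
      have := (a1.const_sub q.1).norm
      rwa [sub_self, norm_zero] at this
    have b2 : Tendsto (fun n => ‖q.2 - (p n).2‖) atTop (𝓝 0) := by
      have := (a2.const_sub q.2).norm
      rwa [sub_self, norm_zero] at this
    have := b2.add (b1.const_mul ‖θ‖)
    rwa [mul_zero, add_zero] at this
  have h2 : ∀ n : ℕ, ∀ᵐ ζ ∂sg, ‖bv q.2 ζ - bv θ ζ * (starRingEnd ℂ) (bv q.1 ζ)‖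
      ≤ ‖q.2 - (p n).2‖ + ‖θ‖ * ‖q.1 - (p n).1‖ := by
    intro n
    have h3 : IsK θ (p n).1 (p n).2 := hp n
    filter_upwards [h3, bv_sub q.2 (p n).2, bv_sub q.1 (p n).1, norm_bv_le (q.2 - (p n).2),
      norm_bv_le (q.1 - (p n).1), norm_bv_le θ] with ζ a1 a2 a3 a4 a5 a6
    have e : bv q.2 ζ - bv θ ζ * (starRingEnd ℂ) (bv q.1 ζ)
        = (bv q.2 ζ - bv (p n).2 ζ) - bv θ ζ * (starRingEnd ℂ) (bv q.1 ζ - bv (p n).1 ζ) := by
      rw [a1, map_sub]
      ring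
    rw [e]
    refine (norm_sub_le _ _).trans ?_
    rw [norm_mul, Complex.norm_conj, ← a2, ← a3]
    exact add_le_add a4 (mul_le_mul a6 a5 (norm_nonneg _) (norm_nonneg _))
  change IsK θ q.1 q.2
  filter_upwards [ae_all_iff.mpr h2] with ζ hζ
  have h4 : ‖bv q.2 ζ - bv θ ζ * (starRingEnd ℂ) (bv q.1 ζ)‖ ≤ 0 :=
    ge_of_tendsto h1 (Eventually.of_forall hζ)
  exact sub_eq_zero.mp (norm_le_zero_iff.mp h4)

theorem baire_step (Λ : ℕ → (HInf →L[ℂ] ℂ)) (hΛ : ∀ φ : HInf, Inner φ → ∃ C : ℝ, ∀ n, ‖Λ n φ‖ ≤ C)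
    {θ : HInf} (hθ : Inner θ) : ∃ G : HInf, ‖G - 1‖ ≤ 1 / 4 ∧ ∃ K : ℝ, ∀ g g' : HInf, IsK θ g g' →
      ‖g‖ ≤ 1 → ∀ n, ‖Λ n (g * G)‖ ≤ K := by
  set X : Set (HInf × HInf) := {p : HInf × HInf | IsK θ p.1 p.2} with hX
  have hXc : IsClosed X := isClosed_isK θ
  have : CompleteSpace X := hXc.completeSpace_coe
  set U : Set X := {p | ‖p.1.1‖ < 1 / 5} with hU
  have hUo : IsOpen U := isOpen_lt
    (continuous_norm.comp (continuous_fst.comp continuous_subtype_val)) continuous_const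
  have hp2 : ∀ p : X, p ∈ U → ‖p.1.2‖ < 1 / 5 := by
    intro p hp
    exact (IsK.norm_le hθ p.2).trans_lt hp
  have hcont : ∀ p : X, p ∈ U → ∀ n, ContinuousAt (fun q : X => ‖Λ n (mob θ q.1.1 q.1.2)‖) p := by
    intro p hp n
    have h2 : ‖p.1.2‖ < 1 := by linarith [hp2 p hp]
    have c1 : ContinuousAt (fun q : X => θ + q.1.1) p :=
      (continuous_const.add (continuous_fst.comp continuous_subtype_val)).continuousAt
    have c2 : ContinuousAt (fun q : X => inv1 q.1.2) p :=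
      ContinuousAt.comp (f := fun q : X => q.1.2) (g := inv1) (differentiableAt_inv1 h2).continuousAt
        (continuous_snd.comp continuous_subtype_val).continuousAt
    have c3 := c1.mul c2
    have c4 : ContinuousAt (fun q : X => Λ n ((θ + q.1.1) * inv1 q.1.2)) p :=
      ContinuousAt.comp (f := fun q : X => (θ + q.1.1) * inv1 q.1.2) (g := fun x => Λ n x)
        (Λ n).continuous.continuousAt c3
    exact c4.norm
  set A : ℕ → Set X := fun k => {p | p ∉ U ∨ ∀ n, ‖Λ n (mob θ p.1.1 p.1.2)‖ ≤ k} with hA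
  have hAc : ∀ k, IsClosed (A k) := by
    intro k
    rw [← isOpen_compl_iff, isOpen_iff_mem_nhds]
    intro p hp
    have hp' : p ∈ U ∧ ∃ n, (k : ℝ) < ‖Λ n (mob θ p.1.1 p.1.2)‖ := by
      by_contra hcon
      apply hp
      by_cases hpU : p ∈ U
      · right
        intro n
        by_contra h3
        exact hcon ⟨hpU, n, not_le.mp h3⟩
      · left
        exact hpU
    obtain ⟨hpU, n, hn⟩ := hp'
    filter_upwards [hUo.mem_nhds hpU, (hcont p hpU n).eventually_const_lt hn] with q hq1 hq2 hq3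
    rcases hq3 with h | h
    · exact h hq1
    · exact absurd (h n) (not_le.mpr hq2)
  have hAU : ⋃ k, A k = univ := by
    rw [eq_univ_iff_forall]
    intro p
    by_cases hpU : p ∈ U
    · obtain ⟨C, hC⟩ := hΛ (mob θ p.1.1 p.1.2) (inner_mob hθ p.2 (by linarith [hp2 p hpU]))
      obtain ⟨k, hk⟩ := exists_nat_ge C
      exact mem_iUnion.mpr ⟨k, Or.inr (fun n => (hC n).trans hk)⟩
    · exact mem_iUnion.mpr ⟨0, Or.inl hpU⟩
  have h0X : ((0, 0) : HInf × HInf) ∈ X := isK_zero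
  have : Nonempty X := ⟨⟨(0, 0), h0X⟩⟩
  have hdense := dense_iUnion_interior_of_closed hAc hAU
  have hUne : U.Nonempty := ⟨⟨(0, 0), h0X⟩, by
    change ‖(0 : HInf)‖ < 1 / 5
    rw [norm_zero]
    norm_num⟩
  obtain ⟨p₀, hp₀U, hp₀A⟩ := hdense.inter_open_nonempty U hUo hUne
  obtain ⟨k, hk⟩ := mem_iUnion.mp hp₀A
  have hnhds : interior (A k) ∩ U ∈ 𝓝 p₀ := (isOpen_interior.inter hUo).mem_nhds ⟨hk, hp₀U⟩
  obtain ⟨ε₀, hε₀, hball⟩ := Metric.mem_nhds_iff.mp hnhds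
  set ε₁ : ℝ := min (ε₀ / 2) (1 / 5) with hε₁
  have hε₁0 : 0 < ε₁ := lt_min (by positivity) (by norm_num)
  have hε₁1 : ε₁ < ε₀ := (min_le_left _ _).trans_lt (by linarith)
  have hε₁2 : ε₁ ≤ 1 / 5 := min_le_right _ _
  have hh₀' := hp2 p₀ hp₀U
  have hh₀'1 : ‖p₀.1.2‖ < 1 := by linarith
  refine ⟨inv1 p₀.1.2, ?_, k / ε₁, ?_⟩
  · refine (norm_inv1_sub_one_le hh₀'1).trans ?_
    rw [div_le_iff₀ (by linarith)]
    linarith
  intro g g' hg hg1 n
  have hg'1 : ‖g'‖ ≤ 1 := (hg.norm_le hθ).trans hg1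
  have hn1 : ∀ w : ℂ, ‖w‖ ≤ 1 → ‖w • ((ε₁ : ℂ) • g') + p₀.1.2‖ < 1 := by
    intro w hw
    refine (norm_add_le _ _).trans_lt ?_
    rw [norm_smul, norm_smul, Complex.norm_real, Real.norm_of_nonneg hε₁0.le]
    have h5 : ‖w‖ * (ε₁ * ‖g'‖) ≤ 1 * (ε₁ * 1) := by gcongr
    linarith
  have hF := norm_zero_le_of_sphere
    (F := fun w : ℂ => Λ n ((w • (θ + p₀.1.1) + (ε₁ : ℂ) • g) * inv1 (w • ((ε₁ : ℂ) • g') + p₀.1.2)))
    (fun w hw => differentiableAt_frac (hn1 w hw) (Λ n)) (C := k) (by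
      intro w hw
      have hww : w * (starRingEnd ℂ) w = 1 := by
        rw [Complex.mul_conj, Complex.normSq_eq_norm_sq, hw]
        simp
      have hK : IsK θ (p₀.1.1 + ((ε₁ : ℂ) * (starRingEnd ℂ) w) • g)
          (p₀.1.2 + ((ε₁ : ℂ) * w) • g') := by
        have h6 := hg.smul ((ε₁ : ℂ) * (starRingEnd ℂ) w)
        rw [map_mul, Complex.conj_conj, Complex.conj_ofReal] at h6
        exact IsK.add p₀.2 h6
      set p : X := ⟨(p₀.1.1 + ((ε₁ : ℂ) * (starRingEnd ℂ) w) • g, p₀.1.2 + ((ε₁ : ℂ) * w) • g'), hK⟩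
        with hp
      have hdist : dist p p₀ < ε₀ := by
        rw [Subtype.dist_eq, Prod.dist_eq]
        refine max_lt ?_ ?_
        · change dist (p₀.1.1 + ((ε₁ : ℂ) * (starRingEnd ℂ) w) • g) p₀.1.1 < ε₀
          rw [dist_eq_norm, add_sub_cancel_left, norm_smul, norm_mul, Complex.norm_real,
            Complex.norm_conj, hw, Real.norm_of_nonneg hε₁0.le, mul_one]
          calc ε₁ * ‖g‖ ≤ ε₁ * 1 := by gcongr
            _ < ε₀ := by linarith
        · change dist (p₀.1.2 + ((ε₁ : ℂ) * w) • g') p₀.1.2 < ε₀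
          rw [dist_eq_norm, add_sub_cancel_left, norm_smul, norm_mul, Complex.norm_real,
            hw, Real.norm_of_nonneg hε₁0.le, mul_one]
          calc ε₁ * ‖g'‖ ≤ ε₁ * 1 := by gcongr
            _ < ε₀ := by linarith
      obtain ⟨hpA, hpU⟩ := hball (mem_ball.mpr hdist)
      have hpA' := interior_subset hpA
      have h7 : ‖Λ n (mob θ p.1.1 p.1.2)‖ ≤ k := by
        rcases hpA' with h | h
        · exact absurd hpU h
        · exact h n
      have e1 : (w • (θ + p₀.1.1) + (ε₁ : ℂ) • g) * inv1 (w • ((ε₁ : ℂ) • g') + p₀.1.2)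
          = w • mob θ p.1.1 p.1.2 := by
        rw [mob, ← smul_mul_assoc, hp]
        have e2 : w • (θ + (p₀.1.1 + ((ε₁ : ℂ) * (starRingEnd ℂ) w) • g))
            = w • (θ + p₀.1.1) + (ε₁ : ℂ) • g := by
          rw [← add_assoc, smul_add w (θ + p₀.1.1), smul_smul,
            show w * ((ε₁ : ℂ) * (starRingEnd ℂ) w) = (ε₁ : ℂ) * (w * (starRingEnd ℂ) w) by ring,
            hww, mul_one]
        have e3 : w • ((ε₁ : ℂ) • g') + p₀.1.2 = p₀.1.2 + ((ε₁ : ℂ) * w) • g' := by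
          rw [smul_smul, add_comm, mul_comm w]
        rw [e3]
        dsimp only
        rw [e2]
      rw [e1, map_smul, norm_smul, hw, one_mul]
      exact h7)
  beta_reduce at hF
  rw [zero_smul, zero_smul, zero_add, zero_add, smul_mul_assoc, map_smul, norm_smul,
    Complex.norm_real, Real.norm_of_nonneg hε₁0.le] at hF
  rw [le_div_iff₀ hε₁0, mul_comm]
  exact hF

end Pool.Agent.Hinf
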