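import Mathlib

/-!
# The Banach algebra of bounded analytic functions on the unit disc

We set up `HInf`, the algebra of bounded analytic functions on the open unit disc with the
supremum norm, as a closed subalgebra of the bounded continuous functions on the disc.
-/

set_option autoImplicit false
set_option linter.unusedSimpArgs false

open Complex MeasureTheory Metric Set Filter Topology
open scoped BoundedContinuousFunction

namespace Pool.Agent.Hinf

/-- Abbreviation for the open unit disc, as a type. -/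
abbrev Dsc : Type := ↥(Metric.ball (0 : ℂ) 1)

/-- The subalgebra of bounded analytic functions. -/
def hinfAlg : Subalgebra ℂ (BoundedContinuousFunction (Metric.ball (0 : ℂ) 1) ℂ) where
  carrier := {f | ∃ F : ℂ → ℂ, DifferentiableOn ℂ F (Metric.ball (0 : ℂ) 1) ∧
    ∀ z : Metric.ball (0 : ℂ) 1, f z = F (z : ℂ)}
  mul_mem' := by
    rintro f g ⟨F, hF, hf⟩ ⟨G, hG, hg⟩
    exact ⟨fun z => F z * G z, hF.mul hG, fun z => by
      show f z * g z = F z * G z
      rw [hf z, hg z]⟩
  add_mem' := by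
    rintro f g ⟨F, hF, hf⟩ ⟨G, hG, hg⟩
    exact ⟨fun z => F z + G z, hF.add hG, fun z => by
      show f z + g z = F z + G z
      rw [hf z, hg z]⟩
  algebraMap_mem' := by
    intro c
    exact ⟨fun _ => c, differentiableOn_const c, fun z => rfl⟩

theorem mem_hinfAlg_iff (f : BoundedContinuousFunction (Metric.ball (0 : ℂ) 1) ℂ) :
    f ∈ hinfAlg ↔ ∃ F : ℂ → ℂ, DifferentiableOn ℂ F (Metric.ball (0 : ℂ) 1) ∧
    ∀ z : Metric.ball (0 : ℂ) 1, f z = F (z : ℂ) := Iff.rfl

/-- The algebra of bounded analytic functions on the unit disc. -/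
abbrev HInf : Type := ↥hinfAlg

noncomputable instance instNormedCommRingHInf : NormedCommRing HInf := inferInstance
noncomputable instance instNormedAlgebraHInf : NormedAlgebra ℂ HInf := inferInstance
noncomputable instance instNormedSpaceHInf : NormedSpace ℂ HInf := inferInstance

/-- The underlying function `ℂ → ℂ`, extended by `0` outside of the disc. -/
noncomputable def ev (f : HInf) (z : ℂ) : ℂ :=
  open Classical in if h : z ∈ Metric.ball (0 : ℂ) 1 then
    (f : BoundedContinuousFunction (Metric.ball (0 : ℂ) 1) ℂ) ⟨z, h⟩ else 0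

theorem ev_of_mem (f : HInf) {z : ℂ} (h : z ∈ Metric.ball (0 : ℂ) 1) :
    ev f z = (f : BoundedContinuousFunction (Metric.ball (0 : ℂ) 1) ℂ) ⟨z, h⟩ := by
  simp only [ev, h, dif_pos]

theorem ev_of_notMem (f : HInf) {z : ℂ} (h : z ∉ Metric.ball (0 : ℂ) 1) :
    ev f z = 0 := by
  simp only [ev, h, dif_neg, not_false_eq_true]

theorem ev_add (f g : HInf) (z : ℂ) : ev (f + g) z = ev f z + ev g z := by
  by_cases h : z ∈ Metric.ball (0 : ℂ) 1
  · simp only [ev_of_mem _ h]
    rfl
  · simp only [ev_of_notMem _ h, mul_zero, add_zero, sub_zero, neg_zero]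

theorem ev_sub (f g : HInf) (z : ℂ) : ev (f - g) z = ev f z - ev g z := by
  by_cases h : z ∈ Metric.ball (0 : ℂ) 1
  · simp only [ev_of_mem _ h]
    rfl
  · simp only [ev_of_notMem _ h, mul_zero, add_zero, sub_zero, neg_zero]

theorem ev_neg (f : HInf) (z : ℂ) : ev (-f) z = - ev f z := by
  by_cases h : z ∈ Metric.ball (0 : ℂ) 1
  · simp only [ev_of_mem _ h]
    rfl
  · simp only [ev_of_notMem _ h, mul_zero, add_zero, sub_zero, neg_zero]

theorem ev_mul (f g : HInf) (z : ℂ) : ev (f * g) z = ev f z * ev g z := by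
  by_cases h : z ∈ Metric.ball (0 : ℂ) 1
  · simp only [ev_of_mem _ h]
    rfl
  · simp only [ev_of_notMem _ h, mul_zero, add_zero, sub_zero, neg_zero]

theorem ev_smul (c : ℂ) (f : HInf) (z : ℂ) : ev (c • f) z = c * ev f z := by
  by_cases h : z ∈ Metric.ball (0 : ℂ) 1
  · simp only [ev_of_mem _ h]
    rfl
  · simp only [ev_of_notMem _ h, mul_zero, add_zero, sub_zero, neg_zero]

theorem ev_zero (z : ℂ) : ev (0 : HInf) z = 0 := by
  by_cases h : z ∈ Metric.ball (0 : ℂ) 1
  · simp only [ev_of_mem _ h]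
    rfl
  · simp only [ev_of_notMem _ h, mul_zero, add_zero, sub_zero, neg_zero]

theorem ev_one {z : ℂ} (h : z ∈ Metric.ball (0 : ℂ) 1) : ev (1 : HInf) z = 1 := by
  rw [ev_of_mem _ h]
  rfl

theorem ev_pow (f : HInf) (n : ℕ) {z : ℂ} (h : z ∈ Metric.ball (0 : ℂ) 1) :
    ev (f ^ n) z = (ev f z) ^ n := by
  induction n with
  | zero => rw [pow_zero, pow_zero, ev_one h]
  | succ n ih => rw [pow_succ, ev_mul, ih, pow_succ]

theorem norm_ev_le (f : HInf) (z : ℂ) : ‖ev f z‖ ≤ ‖f‖ := by
  by_cases h : z ∈ Metric.ball (0 : ℂ) 1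
  · rw [ev_of_mem _ h]
    exact BoundedContinuousFunction.norm_coe_le_norm _ _
  · rw [ev_of_notMem _ h, norm_zero]
    exact norm_nonneg _

theorem norm_le_of_ev (f : HInf) {M : ℝ} (hM : 0 ≤ M)
    (h : ∀ z ∈ Metric.ball (0 : ℂ) 1, ‖ev f z‖ ≤ M) : ‖f‖ ≤ M := by
  change ‖(f : BoundedContinuousFunction (Metric.ball (0 : ℂ) 1) ℂ)‖ ≤ M
  rw [BoundedContinuousFunction.norm_le hM]
  intro x
  have := h x.1 x.2
  rwa [ev_of_mem _ x.2] at this

theorem ext_ev {f g : HInf} (h : ∀ z ∈ Metric.ball (0 : ℂ) 1, ev f z = ev g z) : f = g := by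
  apply Subtype.ext
  ext x
  have := h x.1 x.2
  rwa [ev_of_mem _ x.2, ev_of_mem _ x.2] at this

theorem differentiableOn_ev (f : HInf) : DifferentiableOn ℂ (ev f) (Metric.ball (0 : ℂ) 1) := by
  obtain ⟨F, hF, hf⟩ := f.2
  refine hF.congr ?_
  intro z hz
  rw [ev_of_mem _ hz]
  exact hf ⟨z, hz⟩

theorem continuousOn_ev (f : HInf) : ContinuousOn (ev f) (Metric.ball (0 : ℂ) 1) :=
  (differentiableOn_ev f).continuousOn

theorem measurable_ev (f : HInf) : Measurable (ev f) := by
  classical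
  have h1 : Measurable (fun x : ↥(Metric.ball (0 : ℂ) 1) => ev f x) := by
    have : Continuous (fun x : ↥(Metric.ball (0 : ℂ) 1) => ev f x) :=
      continuousOn_iff_continuous_domRestrict.mp (continuousOn_ev f)
    exact this.measurable
  have h2 : Measurable (fun x : ↥((Metric.ball (0 : ℂ) 1)ᶜ) => ev f x) := by
    have : (fun x : ↥((Metric.ball (0 : ℂ) 1)ᶜ) => ev f x) = fun _ => 0 := by
      funext x
      exact ev_of_notMem f x.2
    rw [this]
    exact measurable_const
  exact measurable_of_restrict_of_restrict_compl Metric.isOpen_ball.measurableSet h1 h2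

/-- Build an element of `HInf` from a bounded analytic function. -/
noncomputable def mk (F : ℂ → ℂ) (hF : DifferentiableOn ℂ F (Metric.ball (0 : ℂ) 1)) (M : ℝ)
    (hM : ∀ z ∈ Metric.ball (0 : ℂ) 1, ‖F z‖ ≤ M) : HInf :=
  ⟨BoundedContinuousFunction.ofNormedAddCommGroup (fun z : Metric.ball (0 : ℂ) 1 => F z)
    (continuousOn_iff_continuous_domRestrict.mp hF.continuousOn) M (fun x => hM x.1 x.2),
    ⟨F, hF, fun _ => rfl⟩⟩

theorem ev_mk (F : ℂ → ℂ) (hF : DifferentiableOn ℂ F (Metric.ball (0 : ℂ) 1)) (M : ℝ)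
    (hM : ∀ z ∈ Metric.ball (0 : ℂ) 1, ‖F z‖ ≤ M) {z : ℂ} (hz : z ∈ Metric.ball (0 : ℂ) 1) :
    ev (mk F hF M hM) z = F z := by
  rw [ev_of_mem _ hz]
  rfl

theorem zero_mem_D : (0 : ℂ) ∈ Metric.ball (0 : ℂ) 1 := by simp

theorem isClosed_hinfAlg :
    IsClosed (hinfAlg : Set (BoundedContinuousFunction (Metric.ball (0 : ℂ) 1) ℂ)) := by
  classical
  rw [← isSeqClosed_iff_isClosed]
  intro f g hf hfg
  choose F hF hfF using hf
  refine ⟨fun z => if h : z ∈ Metric.ball (0 : ℂ) 1 then g ⟨z, h⟩ else 0, ?_, ?_⟩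
  · have hloc : TendstoLocallyUniformlyOn F
        (fun z => if h : z ∈ Metric.ball (0 : ℂ) 1 then g ⟨z, h⟩ else 0) atTop
        (Metric.ball (0 : ℂ) 1) := by
      apply TendstoUniformlyOn.tendstoLocallyUniformlyOn
      rw [Metric.tendstoUniformlyOn_iff]
      intro ε hε
      have h1 := (Metric.tendsto_nhds.mp hfg) ε hε
      filter_upwards [h1] with n hn z hz
      simp only [hz, dif_pos]
      rw [← hfF n ⟨z, hz⟩, dist_comm]
      exact lt_of_le_of_lt (BoundedContinuousFunction.dist_coe_le_dist _) hn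
    exact hloc.differentiableOn (Filter.Eventually.of_forall hF) Metric.isOpen_ball
  · intro z
    simp

instance : CompleteSpace HInf := isClosed_hinfAlg.completeSpace_coe

theorem norm_one_HInf : ‖(1 : HInf)‖ = 1 := by
  apply le_antisymm
  · apply norm_le_of_ev _ zero_le_one
    intro z hz
    rw [ev_one hz]
    exact (norm_one (α := ℂ)).le
  · have := norm_ev_le (1 : HInf) 0
    rw [ev_one zero_mem_D, norm_one] at this
    exact this

instance instNormOneClassHInf : NormOneClass HInf := ⟨norm_one_HInf⟩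

end Pool.Agent.Hinf
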