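import Pool.Agent.Lib.Hinf.Fatou

/-!
# Boundary values of bounded analytic functions
-/

set_option autoImplicit false
set_option linter.unusedSimpArgs false

open Complex MeasureTheory Metric Set Filter Topology Real

namespace Pool.Agent.Hinf

/-- A sequence of radii increasing to `1`. -/
noncomputable def rad (n : ℕ) : ℝ := 1 - 1 / ((n : ℝ) + 2)

theorem rad_pos (n : ℕ) : 0 < rad n := by
  rw [rad, sub_pos, div_lt_one (by positivity)]
  have : (0:ℝ) ≤ n := Nat.cast_nonneg n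
  linarith

theorem rad_lt_one (n : ℕ) : rad n < 1 := by
  rw [rad]
  have : 0 < 1 / ((n : ℝ) + 2) := by positivity
  linarith

theorem tendsto_rad : Tendsto rad atTop (𝓝[<] 1) := by
  rw [tendsto_nhdsWithin_iff]
  refine ⟨?_, Filter.Eventually.of_forall fun n => rad_lt_one n⟩
  have h1 : Tendsto (fun n : ℕ => 1 / ((n : ℝ) + 2)) atTop (𝓝 0) := by
    apply Tendsto.div_atTop tendsto_const_nhds
    exact tendsto_atTop_add_const_right _ _ tendsto_natCast_atTop_atTop
  have h2 := h1.const_sub 1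
  rw [sub_zero] at h2
  exact h2

/-- Boundary values (along a sequence of radii). -/
noncomputable def bv (f : HInf) (ζ : ℂ) : ℂ := limUnder atTop (fun n : ℕ => ev f (rad n * ζ))

theorem measurable_bv (f : HInf) : Measurable (bv f) := by
  have : StronglyMeasurable (fun ζ => limUnder atTop (fun n : ℕ => ev f (rad n * ζ))) := by
    apply StronglyMeasurable.limUnder
    intro n
    exact ((measurable_ev f).comp (measurable_const_mul _)).stronglyMeasurable
  exact this.measurable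

theorem tendsto_bv (f : HInf) :
    ∀ᵐ ζ ∂sg, Tendsto (fun r : ℝ => ev f (r * ζ)) (𝓝[<] 1) (𝓝 (bv f ζ)) := by
  filter_upwards [fatou (differentiableOn_ev f) (fun z _ => norm_ev_le f z)] with ζ hζ
  obtain ⟨w, hw⟩ := hζ
  have h1 := hw.comp tendsto_rad
  have h2 : bv f ζ = w := by
    rw [bv]
    exact h1.limUnder_eq
  rw [h2]
  exact hw

theorem bv_eq_of_tendsto (f : HInf) {ζ w : ℂ}
    (h : Tendsto (fun r : ℝ => ev f (r * ζ)) (𝓝[<] 1) (𝓝 w)) : bv f ζ = w :=
  (h.comp tendsto_rad).limUnder_eq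

theorem eventually_mem_ball {ζ : ℂ} (hζ : ‖ζ‖ = 1) :
    ∀ᶠ r : ℝ in 𝓝[<] 1, (r : ℂ) * ζ ∈ Metric.ball (0:ℂ) 1 := by
  have hpos : ∀ᶠ r : ℝ in 𝓝[<] 1, 0 < r := by
    apply Filter.Eventually.filter_mono nhdsWithin_le_nhds
    exact lt_mem_nhds one_pos
  filter_upwards [hpos, self_mem_nhdsWithin] with r h2 h3
  rw [mem_ball_zero_iff, norm_mul, hζ, mul_one, Complex.norm_real, Real.norm_of_nonneg h2.le]
  exact h3

theorem norm_bv_le (f : HInf) : ∀ᵐ ζ ∂sg, ‖bv f ζ‖ ≤ ‖f‖ := by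
  filter_upwards [tendsto_bv f] with ζ hζ
  exact le_of_tendsto hζ.norm (Filter.Eventually.of_forall fun r => norm_ev_le f _)

theorem bv_add (f g : HInf) : ∀ᵐ ζ ∂sg, bv (f + g) ζ = bv f ζ + bv g ζ := by
  filter_upwards [tendsto_bv f, tendsto_bv g] with ζ hf hg
  apply bv_eq_of_tendsto
  have := hf.add hg
  simpa only [ev_add] using this

theorem bv_sub (f g : HInf) : ∀ᵐ ζ ∂sg, bv (f - g) ζ = bv f ζ - bv g ζ := by
  filter_upwards [tendsto_bv f, tendsto_bv g] with ζ hf hg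
  apply bv_eq_of_tendsto
  have := hf.sub hg
  simpa only [ev_sub] using this

theorem bv_neg (f : HInf) : ∀ᵐ ζ ∂sg, bv (-f) ζ = - bv f ζ := by
  filter_upwards [tendsto_bv f] with ζ hf
  apply bv_eq_of_tendsto
  have := hf.neg
  simpa only [ev_neg] using this

theorem bv_mul (f g : HInf) : ∀ᵐ ζ ∂sg, bv (f * g) ζ = bv f ζ * bv g ζ := by
  filter_upwards [tendsto_bv f, tendsto_bv g] with ζ hf hg
  apply bv_eq_of_tendsto
  have := hf.mul hg
  simpa only [ev_mul] using this

theorem bv_smul (c : ℂ) (f : HInf) : ∀ᵐ ζ ∂sg, bv (c • f) ζ = c * bv f ζ := by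
  filter_upwards [tendsto_bv f] with ζ hf
  apply bv_eq_of_tendsto
  have := hf.const_mul c
  simpa only [ev_smul] using this

theorem bv_one : ∀ᵐ ζ ∂sg, bv 1 ζ = 1 := by
  filter_upwards [ae_norm_eq_one] with ζ hζ
  apply bv_eq_of_tendsto
  apply tendsto_const_nhds.congr'
  filter_upwards [eventually_mem_ball hζ] with r hr
  rw [ev_one hr]

theorem bv_zero (ζ : ℂ) : bv 0 ζ = 0 := by
  apply bv_eq_of_tendsto
  simp only [ev_zero]
  exact tendsto_const_nhds

theorem bv_pow (f : HInf) (n : ℕ) : ∀ᵐ ζ ∂sg, bv (f ^ n) ζ = (bv f ζ) ^ n := by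
  filter_upwards [tendsto_bv f, ae_norm_eq_one] with ζ hf hζ
  apply bv_eq_of_tendsto
  apply (hf.pow n).congr'
  filter_upwards [eventually_mem_ball hζ] with r hr
  rw [ev_pow _ _ hr]

theorem integrable_bv (f : HInf) : Integrable (bv f) sg := by
  apply Integrable.of_bound (measurable_bv f).aestronglyMeasurable ‖f‖
  exact norm_bv_le f

theorem continuousOn_poissonKernel {w : ℂ} (hw : w ∈ Metric.ball (0:ℂ) 1) :
    ContinuousOn (poissonKernel 0 w) (Metric.sphere (0:ℂ) 1) := by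
  have h2 : poissonKernel 0 w = fun z => (‖z - 0‖ ^ 2 - ‖w - 0‖ ^ 2) / ‖(z - 0) - (w - 0)‖ ^ 2 := by
    ext z; rw [poissonKernel_def]
  rw [h2]
  apply ContinuousOn.div (by fun_prop) (by fun_prop)
  intro ζ hζ
  have := sub_ne_zero_of_ball hw hζ
  simpa using this

theorem integrable_poissonKernel {w : ℂ} (hw : w ∈ Metric.ball (0:ℂ) 1) :
    Integrable (poissonKernel 0 w) sg :=
  integrable_of_continuousOn (continuousOn_poissonKernel hw)

theorem poissonKernel_pos {w : ℂ} (hw : w ∈ Metric.ball (0:ℂ) 1) {ζ : ℂ} (hζ : ‖ζ‖ = 1) :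
    0 < poissonKernel 0 w ζ := by
  rw [poissonKernel_def, sub_zero, sub_zero, hζ]
  have h1 := sub_ne_zero_of_ball hw (ζ := ζ) (by simpa using hζ)
  have h2 : 0 < ‖ζ - w‖ := norm_pos_iff.mpr h1
  have h3 : ‖w‖ < 1 := by simpa using hw
  have h4 : 0 < 1 ^ 2 - ‖w‖ ^ 2 := by nlinarith [norm_nonneg w]
  positivity

theorem integral_poissonKernel {w : ℂ} (hw : w ∈ Metric.ball (0:ℂ) 1) :
    ∫ ζ, poissonKernel 0 w ζ ∂sg = 1 := by
  have h1 := poisson_sg (f := fun _ => (1:ℂ)) diffContOnCl_const hw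
  simp only [mul_one] at h1
  rw [integral_complex_ofReal] at h1
  exact_mod_cast h1

theorem diffContOnCl_dilate {F : ℂ → ℂ} (hF : DifferentiableOn ℂ F (Metric.ball (0:ℂ) 1)) {r : ℝ}
    (hr : 0 ≤ r) (hr1 : r < 1) : DiffContOnCl ℂ (fun z => F (r * z)) (Metric.ball (0:ℂ) 1) := by
  apply DifferentiableOn.diffContOnCl
  rw [closure_ball _ one_ne_zero]
  apply hF.comp (by fun_prop)
  intro z hz
  rw [mem_closedBall_zero_iff] at hz
  rw [mem_ball_zero_iff, norm_mul, Complex.norm_real, Real.norm_of_nonneg hr]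
  calc r * ‖z‖ ≤ r * 1 := by gcongr
    _ < 1 := by linarith

theorem tendsto_rad_mul (z : ℂ) : Tendsto (fun n => (rad n : ℂ) * z) atTop (𝓝 z) := by
  have h1 : Tendsto (fun n => (rad n : ℂ)) atTop (𝓝 ((1:ℝ):ℂ)) :=
    (Complex.continuous_ofReal.tendsto _).comp (tendsto_rad.mono_right nhdsWithin_le_nhds)
  have h2 := h1.mul_const z
  simpa using h2

/-- Poisson representation from the boundary values. -/
theorem ev_eq_poisson (f : HInf) {z : ℂ} (hz : z ∈ Metric.ball (0:ℂ) 1) :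
    ev f z = ∫ ζ, (poissonKernel 0 z ζ : ℂ) * bv f ζ ∂sg := by
  have h1 : ∀ n, ∫ ζ, (poissonKernel 0 z ζ : ℂ) * ev f (rad n * ζ) ∂sg = ev f (rad n * z) := by
    intro n
    exact poisson_sg (diffContOnCl_dilate (differentiableOn_ev f) (rad_pos n).le (rad_lt_one n)) hz
  have h2 : Tendsto (fun n => ∫ ζ, (poissonKernel 0 z ζ : ℂ) * ev f (rad n * ζ) ∂sg) atTop
      (𝓝 (∫ ζ, (poissonKernel 0 z ζ : ℂ) * bv f ζ ∂sg)) := by
    apply tendsto_integral_of_dominated_convergence (fun ζ => |poissonKernel 0 z ζ| * ‖f‖)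
    · intro n
      apply AEStronglyMeasurable.mul
      · exact (integrable_poissonKernel hz).ofReal.aestronglyMeasurable
      · exact ((measurable_ev f).comp (measurable_const_mul _)).aestronglyMeasurable
    · exact (integrable_poissonKernel hz).abs.mul_const _
    · intro n
      filter_upwards with ζ
      rw [norm_mul, Complex.norm_real, Real.norm_eq_abs]
      gcongr
      exact norm_ev_le f _
    · filter_upwards [tendsto_bv f] with ζ hζ
      exact (hζ.comp tendsto_rad).const_mul _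
  have h3 : Tendsto (fun n => ev f (rad n * z)) atTop (𝓝 (ev f z)) := by
    have hc := (differentiableOn_ev f).continuousOn.continuousAt (isOpen_ball.mem_nhds hz)
    exact hc.tendsto.comp (tendsto_rad_mul z)
  simp only [h1] at h2
  exact tendsto_nhds_unique h3 h2

theorem norm_le_of_bv (f : HInf) {M : ℝ} (h : ∀ᵐ ζ ∂sg, ‖bv f ζ‖ ≤ M) : ‖f‖ ≤ M := by
  have hM : 0 ≤ M := by
    obtain ⟨ζ, hζ⟩ := h.exists
    exact (norm_nonneg _).trans hζ
  apply norm_le_of_ev f hM
  intro z hz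
  rw [ev_eq_poisson f hz]
  calc ‖∫ ζ, (poissonKernel 0 z ζ : ℂ) * bv f ζ ∂sg‖ ≤ ∫ ζ, poissonKernel 0 z ζ * M ∂sg := by
        apply norm_integral_le_of_norm_le ((integrable_poissonKernel hz).mul_const _)
        filter_upwards [h, ae_norm_eq_one] with ζ h1 h2
        rw [norm_mul, Complex.norm_real, Real.norm_of_nonneg (poissonKernel_pos hz h2).le]
        exact mul_le_mul_of_nonneg_left h1 (poissonKernel_pos hz h2).le
    _ = M := by rw [integral_mul_const, integral_poissonKernel hz, one_mul]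

theorem poissonKernel_zero {ζ : ℂ} (hζ : ‖ζ‖ = 1) : poissonKernel 0 0 ζ = 1 := by
  rw [poissonKernel_def]
  simp [hζ]

theorem ev_zero_eq_integral (f : HInf) : ev f 0 = ∫ ζ, bv f ζ ∂sg := by
  rw [ev_eq_poisson f zero_mem_D]
  apply integral_congr_ae
  filter_upwards [ae_norm_eq_one] with ζ hζ
  rw [poissonKernel_zero hζ]
  simp

theorem eq_of_bv {f g : HInf} (h : ∀ᵐ ζ ∂sg, bv f ζ = bv g ζ) : f = g := by
  apply ext_ev
  intro z hz
  rw [ev_eq_poisson f hz, ev_eq_poisson g hz]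
  apply integral_congr_ae
  filter_upwards [h] with ζ hζ
  rw [hζ]

/-- Inner functions. -/
def Inner (f : HInf) : Prop := ∀ᵐ ζ ∂sg, ‖bv f ζ‖ = 1

theorem Inner.norm_eq {f : HInf} (hf : Inner f) : ‖f‖ = 1 := by
  apply le_antisymm
  · apply norm_le_of_bv
    filter_upwards [hf] with ζ hζ
    exact hζ.le
  · obtain ⟨ζ, h1, h2⟩ := (Filter.Eventually.and hf (norm_bv_le f)).exists
    exact h1.symm.le.trans h2

theorem Inner.mul {f g : HInf} (hf : Inner f) (hg : Inner g) : Inner (f * g) := by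
  filter_upwards [hf, hg, bv_mul f g] with ζ h1 h2 h3
  rw [h3, norm_mul, h1, h2, one_mul]

theorem inner_one : Inner 1 := by
  filter_upwards [bv_one] with ζ h1
  rw [h1, norm_one]

theorem Inner.neg {f : HInf} (hf : Inner f) : Inner (-f) := by
  filter_upwards [hf, bv_neg f] with ζ h1 h2
  rw [h2, norm_neg, h1]

theorem Inner.smul {f : HInf} (hf : Inner f) {c : ℂ} (hc : ‖c‖ = 1) : Inner (c • f) := by
  filter_upwards [hf, bv_smul c f] with ζ h1 h2
  rw [h2, norm_mul, h1, hc, one_mul]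

/-- Multiplication by an inner function is isometric. -/
theorem Inner.norm_mul_eq {θ : HInf} (hθ : Inner θ) (f : HInf) : ‖θ * f‖ = ‖f‖ := by
  apply le_antisymm
  · calc ‖θ * f‖ ≤ ‖θ‖ * ‖f‖ := norm_mul_le _ _
      _ = ‖f‖ := by rw [hθ.norm_eq, one_mul]
  · apply norm_le_of_bv
    filter_upwards [hθ, bv_mul θ f, norm_bv_le (θ * f)] with ζ h1 h2 h3
    rw [h2, norm_mul, h1, one_mul] at h3
    exact h3

end Pool.Agent.Hinf
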