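import Pool.Agent.Lib.Hinf.Dense

/-!
# Inner functions are norming, and the Baire category step
-/

set_option autoImplicit false
set_option linter.unusedSimpArgs false

open Complex MeasureTheory Metric Set Filter Topology Real

namespace Pool.Agent.Hinf

/-- Maximum principle for the modulus on the closed unit disc. -/
theorem norm_zero_le_of_sphere {F : ℂ → ℂ} (hF : ∀ w : ℂ, ‖w‖ ≤ 1 → DifferentiableAt ℂ F w)
    {C : ℝ} (hC : ∀ w : ℂ, ‖w‖ = 1 → ‖F w‖ ≤ C) : ‖F 0‖ ≤ C := by
  have hd : DiffContOnCl ℂ F (Metric.ball (0:ℂ) 1) := by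
    apply DifferentiableOn.diffContOnCl
    rw [closure_ball _ one_ne_zero]
    intro w hw
    rw [mem_closedBall_zero_iff] at hw
    exact (hF w hw).differentiableWithinAt
  refine Complex.norm_le_of_forall_mem_frontier_norm_le isBounded_ball hd ?_
    (subset_closure zero_mem_D)
  intro w hw
  rw [frontier_ball _ one_ne_zero, mem_sphere_zero_iff_norm] at hw
  exact hC w hw

/-- Maximum principle for the real part. -/
theorem exists_re_ge {F : ℂ → ℂ} (hF : ∀ w : ℂ, ‖w‖ ≤ 1 → DifferentiableAt ℂ F w)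
    {ε : ℝ} (hε : 0 < ε) : ∃ w : ℂ, ‖w‖ = 1 ∧ (F 0).re - ε ≤ (F w).re := by
  by_contra hcon
  push Not at hcon
  have h := norm_zero_le_of_sphere (F := fun w => Complex.exp (F w))
    (fun w hw => (hF w hw).cexp) (C := Real.exp ((F 0).re - ε)) (by
    intro w hw
    rw [Complex.norm_exp]
    exact Real.exp_le_exp.mpr (hcon w hw).le)
  rw [Complex.norm_exp, Real.exp_le_exp] at h
  linarith

theorem differentiableAt_smul_add (p q : HInf) (w : ℂ) :
    DifferentiableAt ℂ (fun w : ℂ => w • p + q) w :=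
  (differentiableAt_id.smul_const p).add_const q

theorem differentiableAt_comp_inv1 {p q : HInf} {w : ℂ} (h : ‖w • p + q‖ < 1) :
    DifferentiableAt ℂ (fun w : ℂ => inv1 (w • p + q)) w :=
  DifferentiableAt.comp (f := fun w : ℂ => w • p + q) w (differentiableAt_inv1 h)
    (differentiableAt_smul_add p q w)

theorem differentiableAt_frac {p q r s : HInf} {w : ℂ} (h : ‖w • p + q‖ < 1) (L : HInf →L[ℂ] ℂ) :
    DifferentiableAt ℂ (fun w : ℂ => L ((w • r + s) * inv1 (w • p + q))) w := by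
  have h1 := (differentiableAt_smul_add r s w).mul (differentiableAt_comp_inv1 h)
  exact DifferentiableAt.comp (f := fun w : ℂ => (w • r + s) * inv1 (w • p + q)) w
    L.differentiableAt h1

/-- Inner functions are norming. -/
theorem exists_inner_re_ge (L : HInf →L[ℂ] ℂ) {f : HInf} (hf : ‖f‖ < 1) {ε : ℝ} (hε : 0 < ε) :
    ∃ φ : HInf, Inner φ ∧ (L f).re - ε ≤ (L φ).re := by
  set δ : ℝ := min (ε / (2 * (‖L‖ + 1))) ((1 - ‖f‖) / 2) with hδ
  have hδ0 : 0 < δ := lt_min (by positivity) (by linarith)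
  obtain ⟨k, hk, hfk⟩ := pc_dense f hδ0
  have hk1 : ‖k‖ < 1 := by
    have h1 : ‖k‖ ≤ ‖f‖ + ‖f - k‖ := by
      calc ‖k‖ = ‖f - (f - k)‖ := by rw [sub_sub_cancel]
        _ ≤ _ := norm_sub_le _ _
    have h2 : δ ≤ (1 - ‖f‖) / 2 := min_le_right _ _
    linarith
  have hLk : (L f).re - ε / 2 ≤ (L k).re := by
    have h1 : |(L f - L k).re| ≤ ε / 2 := by
      refine (Complex.abs_re_le_norm _).trans ?_
      rw [← map_sub]
      refine (L.le_opNorm _).trans ?_
      calc ‖L‖ * ‖f - k‖ ≤ (‖L‖ + 1) * (ε / (2 * (‖L‖ + 1))) := by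
            apply mul_le_mul (by linarith) (hfk.trans (min_le_left _ _)) (norm_nonneg _)
              (by positivity)
        _ = ε / 2 := by field_simp
    rw [Complex.sub_re] at h1
    have := (abs_le.mp h1).2
    linarith
  obtain ⟨θ, k', hθ, H⟩ := hk
  have hk' : ‖k'‖ < 1 := (H.norm_le hθ).trans_lt hk1
  have hn : ∀ w : ℂ, ‖w‖ ≤ 1 → ‖w • k' + 0‖ < 1 := by
    intro w hw
    rw [add_zero, norm_smul]
    calc ‖w‖ * ‖k'‖ ≤ 1 * ‖k'‖ := by gcongr
      _ < 1 := by linarith
  obtain ⟨w, hw, hw2⟩ := exists_re_ge (F := fun w : ℂ => L ((w • θ + k) * inv1 (w • k' + 0)))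
    (fun w hw => differentiableAt_frac (hn w hw) L) (half_pos hε)
  have e0 : (((0 : ℂ) • θ + k) * inv1 ((0 : ℂ) • k' + 0)) = k := by
    rw [zero_smul, zero_smul, zero_add, zero_add]
    have : inv1 0 = 1 := by
      rw [inv1_eq (by rw [norm_zero]; exact zero_lt_one), zero_mul, sub_zero]
    rw [this, mul_one]

  rw [e0] at hw2
  refine ⟨(w • θ + k) * inv1 (w • k' + 0), ?_, by linarith⟩
  have e1 : (w • θ + k) * inv1 (w • k' + 0)
      = w • mob θ ((starRingEnd ℂ) w • k) ((starRingEnd ℂ) ((starRingEnd ℂ) w) • k') := by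
    rw [mob, ← smul_mul_assoc, smul_add, smul_smul, Complex.conj_conj, add_zero,
      Complex.mul_conj, Complex.normSq_eq_norm_sq, hw]
    simp only [one_pow, Complex.ofReal_one, one_smul]
  rw [e1]
  refine Inner.smul (inner_mob hθ (H.smul _) ?_) hw
  rw [Complex.conj_conj]
  have := hn w hw.le
  rwa [add_zero] at this

end Pool.Agent.Hinf
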