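import Pool.Agent.Lib.Hinf.Cesaro
import Pool.Agent.Lib.Hinf.Norming

/-!
# The case where a functional is large on every tail
-/

set_option autoImplicit false
set_option linter.unusedSimpArgs false

open Complex MeasureTheory Metric Set Filter Topology Real

namespace Pool.Agent.Hinf

/-- Evaluation at the origin. -/
noncomputable def evL : HInf →L[ℂ] ℂ :=
  LinearMap.mkContinuous
    { toFun := fun f => ev f 0
      map_add' := fun f g => ev_add f g 0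
      map_smul' := fun c f => ev_smul c f 0 } 1 (fun f => by
    rw [one_mul]
    exact norm_ev_le f 0)

theorem evL_apply (f : HInf) : evL f = ev f 0 := rfl

theorem co_sub (n : ℕ) (f g : HInf) : co n (f - g) = co n f - co n g := by
  have hc1 : Integrable (fun ζ : ℂ => (starRingEnd ℂ) ζ ^ n) sg := by
    apply integrable_of_continuousOn
    fun_prop
  have i : ∀ f : HInf, Integrable (fun ζ => bv f ζ * (starRingEnd ℂ) ζ ^ n) sg := by
    intro f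
    refine (integrable_bv f).mul_bdd (c := 1) hc1.aestronglyMeasurable ?_
    filter_upwards [ae_norm_eq_one] with ζ hζ
    rw [norm_pow, Complex.norm_conj, hζ, one_pow]
  rw [co, co, co, ← integral_sub (i f) (i g)]
  apply integral_congr_ae
  filter_upwards [bv_sub f g] with ζ hζ
  rw [hζ, sub_mul]

theorem co_smul (n : ℕ) (c : ℂ) (f : HInf) : co n (c • f) = c * co n f := by
  rw [co, co, ← integral_const_mul]
  apply integral_congr_ae
  filter_upwards [bv_smul c f] with ζ hζ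
  rw [hζ, mul_assoc]

/-- If `Re f(0)` is close to `1`, then `f(0)` is close to `1`. -/
theorem norm_one_sub_le {z : ℂ} (hz : ‖z‖ ≤ 1) {s : ℝ} (hs : 0 ≤ s) (h : 1 - s ^ 2 / 2 ≤ z.re) :
    ‖1 - z‖ ≤ s := by
  have h1 : ‖1 - z‖ ^ 2 ≤ s ^ 2 := by
    have h2 : ‖z‖ ^ 2 ≤ 1 := pow_le_one₀ (norm_nonneg _) hz
    rw [← Complex.normSq_eq_norm_sq, Complex.normSq_apply] at h2 ⊢
    simp only [Complex.sub_re, Complex.sub_im, Complex.one_re, Complex.one_im]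
    nlinarith
  exact (sq_le_sq₀ (norm_nonneg _) hs).mp h1

/-- Existence of a two-valued modulus function almost equal to `1` at the origin. -/
theorem exists_pair (L : HInf →L[ℂ] ℂ) {r : ℝ} (hr : ∀ N, r ≤ ‖sh L N‖) {η τ : ℝ}
    (hη : 0 < η) (hη1 : η ≤ 1) (hτ : 0 < τ) : ∃ A k : HInf, ‖A‖ ≤ 1 ∧ ev A 0 = 0 ∧ r - η ≤ (L A).re ∧
      ‖k‖ ≤ 1 ∧ 1 - τ ≤ (ev k 0).re ∧ ‖A + k‖ ≤ 1 + η ∧ ‖k - A‖ ≤ 1 + η := by
  set σ₀ : ℝ := τ / (|Real.log η| + 1) with hσ₀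
  have hσ₀0 : 0 < σ₀ := by positivity
  set η₁ : ℝ := min η (η ^ 2 * σ₀ / 2) with hη₁
  have hη₁0 : 0 < η₁ := lt_min hη (by positivity)
  obtain ⟨m, hm⟩ := exists_nat_one_div_lt (show 0 < η ^ 2 * σ₀ / 2 by positivity)
  obtain ⟨A, hA1, hA0, hAL, hA2⟩ := exists_small_quadratic L hr hη₁0 m
  set E : Set ℂ := {ζ | η < ‖bv A ζ‖} with hE
  have hEm : MeasurableSet E := measurableSet_lt measurable_const (measurable_bv A).norm
  have hAint : ∫ ζ, ‖bv A ζ‖ ^ 2 ∂sg ≤ η ^ 2 * σ₀ := by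
    have : η₁ ≤ η ^ 2 * σ₀ / 2 := min_le_right _ _
    linarith
  have hσE : sg.real E ≤ σ₀ := by
    have h1 : η ^ 2 * sg.real E ≤ ∫ ζ, ‖bv A ζ‖ ^ 2 ∂sg := by
      have h2 : ∫ ζ, E.indicator (fun _ => η ^ 2) ζ ∂sg = η ^ 2 * sg.real E := by
        rw [integral_indicator_const _ hEm, smul_eq_mul, mul_comm]
      rw [← h2]
      apply integral_mono_ae ((integrable_const _).indicator hEm) (integrable_norm_sq A)
      filter_upwards with ζ
      by_cases hζ : ζ ∈ E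
      · rw [Set.indicator_of_mem hζ]
        have hζ' : η < ‖bv A ζ‖ := hζ
        gcongr
      · rw [Set.indicator_of_notMem hζ]
        positivity
    have h3 : η ^ 2 * sg.real E ≤ η ^ 2 * σ₀ := h1.trans hAint
    exact le_of_mul_le_mul_left h3 (by positivity)
  set c : ℝ := Real.log η with hc
  have hc0 : c ≤ 0 := Real.log_nonpos hη.le hη1
  set k : HInf := out E hEm c with hk
  have hkbv : ∀ᵐ ζ ∂sg, (ζ ∈ E → ‖bv k ζ‖ = η) ∧ (ζ ∉ E → ‖bv k ζ‖ = 1) := by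
    filter_upwards [norm_bv_out hEm c] with ζ hζ
    constructor
    · intro h
      rw [hk, hζ, Set.indicator_of_mem h, mul_one, hc, Real.exp_log hη]
    · intro h
      rw [hk, hζ, Set.indicator_of_notMem h, mul_zero, Real.exp_zero]
  have hk1 : ‖k‖ ≤ 1 := by
    apply norm_le_of_bv
    filter_upwards [hkbv] with ζ hζ
    by_cases h : ζ ∈ E
    · rw [hζ.1 h]; exact hη1
    · rw [hζ.2 h]
  have hAk : ∀ᵐ ζ ∂sg, ‖bv A ζ‖ + ‖bv k ζ‖ ≤ 1 + η := by
    filter_upwards [hkbv, norm_bv_le A] with ζ hζ hζA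
    by_cases h : ζ ∈ E
    · rw [hζ.1 h]
      have := hζA.trans hA1
      linarith
    · rw [hζ.2 h]
      have : ‖bv A ζ‖ ≤ η := not_lt.mp h
      linarith
  refine ⟨A, k, hA1, hA0, ?_, hk1, ?_, ?_, ?_⟩
  · have : η₁ ≤ η := min_le_left _ _
    linarith
  · rw [hk, ev_out_zero, Complex.ofReal_re]
    have h1 : -τ ≤ c * sg.real E := by
      have h2 : |c| * sg.real E ≤ τ := by
        calc |c| * sg.real E ≤ (|c| + 1) * σ₀ := by
              apply mul_le_mul (by linarith) hσE measureReal_nonneg (by positivity)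
          _ = τ := by rw [hσ₀]; field_simp
      rw [abs_of_nonpos hc0] at h2
      linarith
    have h3 := Real.add_one_le_exp (c * sg.real E)
    linarith
  · apply norm_le_of_bv
    filter_upwards [hAk, bv_add A k] with ζ h1 h2
    rw [h2]
    exact (norm_add_le _ _).trans h1
  · apply norm_le_of_bv
    filter_upwards [hAk, bv_sub k A] with ζ h1 h2
    rw [h2]
    refine (norm_sub_le _ _).trans ?_
    linarith

theorem real_aux {a b κ K M η τ c r X₁ X₂ Y₁ Y₂ δ : ℝ} (hM : 0 ≤ M) (hr0 : 0 ≤ r)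
    (hδ : 0 < δ) (hK : K = (2 * M + 2) / δ) (hη : η = 1 / (8 * (2 * M + K + 1)))
    (hτ : τ = 1 / (2 * K)) (hc : c = 1 / (1 + 2 * η))
    (ha : r - η ≤ a) (ha' : |a| ≤ M) (hb : |b| ≤ M) (hκ : 1 - τ ≤ κ) (hκ' : |κ| ≤ 1)
    (hX₁ : X₁ ≤ M) (hX₂ : -X₂ ≤ M) (hY₁ : Y₁ ≤ 1) (hY₂ : Y₂ ≤ 1)
    (h1 : c * (a + b + K * κ) - η ≤ X₁ + K * Y₁) (h2 : c * (-b + a + K * κ) - η ≤ -X₂ + K * Y₂) :
    r - 1 ≤ (X₁ - X₂) / 2 ∧ 1 - δ ≤ Y₁ ∧ 1 - δ ≤ Y₂ := by
  have hK0 : 0 < K := by rw [hK]; positivity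
  have hKδ : K * δ = 2 * M + 2 := by rw [hK]; field_simp
  have hη0 : 0 < η := by rw [hη]; positivity
  have hη2 : 8 * (η * (2 * M + K + 1)) = 1 := by rw [hη]; field_simp
  have hηU : 0 ≤ η * (2 * M + K) := by positivity
  have hη1 : η ≤ 1 / 8 := by nlinarith
  have hKτ : K * τ = 1 / 2 := by rw [hτ]; field_simp
  have hKκ : K * (1 - τ) ≤ K * κ := mul_le_mul_of_nonneg_left hκ hK0.le
  have hKκ2 : |K * κ| ≤ K := by
    rw [abs_mul, abs_of_pos hK0]
    calc K * |κ| ≤ K * 1 := by gcongr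
      _ = K := mul_one _
  have hc1 : c * (1 + 2 * η) = 1 := by rw [hc]; field_simp
  have hc0 : 0 < c := by rw [hc]; positivity
  have hcle : c ≤ 1 := by nlinarith
  -- c x ≥ x - 2 η |x|
  have hcx : ∀ x : ℝ, |x| ≤ 2 * M + K → x - 2 * (η * (2 * M + K)) ≤ c * x := by
    intro x hx
    have e : x - c * x = 2 * η * (c * x) := by linear_combination (-x) * hc1
    have h3 : c * x ≤ 2 * M + K := by
      calc c * x ≤ |c * x| := le_abs_self _
        _ = c * |x| := by rw [abs_mul, abs_of_pos hc0]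
        _ ≤ 1 * (2 * M + K) := by
            apply mul_le_mul hcle hx (abs_nonneg _) zero_le_one
        _ = _ := one_mul _
    have h4 : η * (c * x) ≤ η * (2 * M + K) := mul_le_mul_of_nonneg_left h3 hη0.le
    linarith
  have ha1 := abs_le.mp ha'
  have hb1 := abs_le.mp hb
  have hk1 := abs_le.mp hKκ2
  have g1 := hcx (a + b + K * κ) (abs_le.mpr ⟨by linarith, by linarith⟩)
  have g2 := hcx (-b + a + K * κ) (abs_le.mpr ⟨by linarith, by linarith⟩)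
  have hKY1 : K * Y₁ ≤ K := by
    calc K * Y₁ ≤ K * 1 := by gcongr
      _ = K := mul_one _
  have hKY2 : K * Y₂ ≤ K := by
    calc K * Y₂ ≤ K * 1 := by gcongr
      _ = K := mul_one _
  have hηU' : 2 * (η * (2 * M + K)) ≤ 1 / 4 := by linarith [hη2, show η * (2 * M + K + 1) = η * (2 * M + K) + η by ring]
  have hexp : K * (1 - τ) = K - 1 / 2 := by rw [mul_sub, hKτ, mul_one]
  refine ⟨by linarith, ?_, ?_⟩
  · have : K * (1 - δ) ≤ K * Y₁ := by
      rw [mul_sub, mul_one, hKδ]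
      linarith
    exact le_of_mul_le_mul_left this hK0
  · have : K * (1 - δ) ≤ K * Y₂ := by
      rw [mul_sub, mul_one, hKδ]
      linarith
    exact le_of_mul_le_mul_left this hK0

theorem caseA (L : HInf →L[ℂ] ℂ) {r : ℝ} (hr0 : 7 ≤ r) (hr : ∀ N, r ≤ ‖sh L N‖) {N : ℕ}
    (hN : ‖sh L N‖ ≤ r + 1) {ε : ℝ} (hε : 0 < ε) :
    ∃ θ h h' : HInf, Inner θ ∧ IsK θ h h' ∧ ‖h‖ ≤ 1 ∧ ‖1 - ev θ 0‖ ≤ ε ∧
      ∀ G : HInf, ‖G - 1‖ ≤ 1 / 4 → r / 2 ≤ ‖L (h * G)‖ := by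
  obtain ⟨M, hM⟩ : ∃ M : ℝ, M = ‖L‖ := ⟨_, rfl⟩
  have hMr : r ≤ M := by rw [hM]; exact (hr 0).trans (norm_sh_le L 0)
  have hM0 : 0 ≤ M := by linarith
  -- choice of the parameters
  obtain ⟨s, hs0, hs1, hsε, hsM, hsr⟩ : ∃ s : ℝ, 0 < s ∧ s ≤ 1 ∧ 2 * s ≤ ε ∧
      (N * s) * M ≤ 1 ∧ (N * s) * (r + 1) ≤ 1 := by
    have hd : (0 : ℝ) < ((N : ℝ) + 1) * (M + r + 2) := by positivity
    refine ⟨min (min (ε / 2) 1) (1 / (((N : ℝ) + 1) * (M + r + 2))), by positivity, ?_, ?_, ?_, ?_⟩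
    · exact (min_le_left _ _).trans (min_le_right _ _)
    · have := (min_le_left (min (ε / 2) 1) (1 / (((N : ℝ) + 1) * (M + r + 2)))).trans
        (min_le_left _ _)
      linarith
    · have h1 := min_le_right (min (ε / 2) 1) (1 / (((N : ℝ) + 1) * (M + r + 2)))
      calc ((N : ℝ) * min (min (ε / 2) 1) (1 / (((N : ℝ) + 1) * (M + r + 2)))) * M
          ≤ ((N : ℝ) * (1 / (((N : ℝ) + 1) * (M + r + 2)))) * M := by gcongr
        _ = ((N : ℝ) * M) / (((N : ℝ) + 1) * (M + r + 2)) := by ring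
        _ ≤ 1 := by
            rw [div_le_one hd]
            have hNn : (0 : ℝ) ≤ N := Nat.cast_nonneg N
            nlinarith
    · have h1 := min_le_right (min (ε / 2) 1) (1 / (((N : ℝ) + 1) * (M + r + 2)))
      calc ((N : ℝ) * min (min (ε / 2) 1) (1 / (((N : ℝ) + 1) * (M + r + 2)))) * (r + 1)
          ≤ ((N : ℝ) * (1 / (((N : ℝ) + 1) * (M + r + 2)))) * (r + 1) := by gcongr
        _ = ((N : ℝ) * (r + 1)) / (((N : ℝ) + 1) * (M + r + 2)) := by ring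
        _ ≤ 1 := by
            rw [div_le_one hd]
            have hNn : (0 : ℝ) ≤ N := Nat.cast_nonneg N
            nlinarith
  obtain ⟨δ, hδ⟩ : ∃ δ : ℝ, δ = s ^ 2 / 2 := ⟨_, rfl⟩
  have hδ0 : 0 < δ := by rw [hδ]; positivity
  obtain ⟨K, hK⟩ : ∃ K : ℝ, K = (2 * M + 2) / δ := ⟨_, rfl⟩
  have hK0 : 0 < K := by rw [hK]; positivity
  obtain ⟨η, hη⟩ : ∃ η : ℝ, η = 1 / (8 * (2 * M + K + 1)) := ⟨_, rfl⟩
  have hη0 : 0 < η := by rw [hη]; positivity
  have hη1 : η ≤ 1 := by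
    rw [hη, div_le_one (by positivity)]
    linarith
  obtain ⟨τ, hτ⟩ : ∃ τ : ℝ, τ = 1 / (2 * K) := ⟨_, rfl⟩
  have hτ0 : 0 < τ := by rw [hτ]; positivity
  obtain ⟨A, k, hA1, hA0, hAL, hk1, hk0, hAk, hkA⟩ := exists_pair L hr hη0 hη1 hτ0
  obtain ⟨c, hc⟩ : ∃ c : ℝ, c = 1 / (1 + 2 * η) := ⟨_, rfl⟩
  have hc0 : 0 < c := by rw [hc]; positivity
  have hcn : ‖(c : ℂ)‖ = c := by rw [Complex.norm_real, Real.norm_of_nonneg hc0.le]
  have hcη : c * (1 + η) < 1 := by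
    rw [hc, one_div, inv_mul_lt_iff₀ (by positivity)]
    linarith
  have hf1 : ‖(c : ℂ) • (A + k)‖ < 1 := by
    rw [norm_smul, hcn]
    exact (mul_le_mul_of_nonneg_left hAk hc0.le).trans_lt hcη
  have hf2 : ‖(c : ℂ) • (k - A)‖ < 1 := by
    rw [norm_smul, hcn]
    exact (mul_le_mul_of_nonneg_left hkA hc0.le).trans_lt hcη
  obtain ⟨ψ₁, hψ₁, h1⟩ := exists_inner_re_ge (L + (K : ℂ) • evL) hf1 hη0
  obtain ⟨ψ₂, hψ₂, h2⟩ := exists_inner_re_ge (-L + (K : ℂ) • evL) hf2 hη0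
  have e1 : ((L + (K : ℂ) • evL) ((c : ℂ) • (A + k))).re
      = c * ((L A).re + (L k).re + K * (ev k 0).re) := by
    rw [map_smul, smul_eq_mul, Complex.re_ofReal_mul, add_apply,
      smul_apply, evL_apply, ev_add, hA0, zero_add, map_add, smul_eq_mul,
      Complex.add_re, Complex.add_re, Complex.re_ofReal_mul]
  have e2 : ((-L + (K : ℂ) • evL) ((c : ℂ) • (k - A))).re
      = c * (-(L k).re + (L A).re + K * (ev k 0).re) := by
    rw [map_smul, smul_eq_mul, Complex.re_ofReal_mul, add_apply,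
      smul_apply, evL_apply, ev_sub, hA0, sub_zero, neg_apply,
      map_sub, smul_eq_mul, Complex.add_re, Complex.neg_re, Complex.sub_re, Complex.re_ofReal_mul]
    ring
  have e3 : ((L + (K : ℂ) • evL) ψ₁).re = (L ψ₁).re + K * (ev ψ₁ 0).re := by
    rw [add_apply, smul_apply, evL_apply, smul_eq_mul,
      Complex.add_re, Complex.re_ofReal_mul]
  have e4 : ((-L + (K : ℂ) • evL) ψ₂).re = -(L ψ₂).re + K * (ev ψ₂ 0).re := by
    rw [add_apply, smul_apply, evL_apply, smul_eq_mul,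
      neg_apply, Complex.add_re, Complex.neg_re, Complex.re_ofReal_mul]
  rw [e1, e3] at h1
  rw [e2, e4] at h2
  have hLb : ∀ f : HInf, ‖f‖ ≤ 1 → |(L f).re| ≤ M := by
    intro f hf
    refine (Complex.abs_re_le_norm _).trans ((L.le_opNorm f).trans ?_)
    rw [← hM]
    calc M * ‖f‖ ≤ M * 1 := by gcongr
      _ = M := mul_one _
  have hev : ∀ f : HInf, ‖f‖ ≤ 1 → |(ev f 0).re| ≤ 1 := by
    intro f hf
    exact (Complex.abs_re_le_norm _).trans ((norm_ev_le _ _).trans hf)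
  obtain ⟨g1, g2, g3⟩ := real_aux hM0 (by linarith) hδ0 hK hη hτ hc hAL (hLb A hA1) (hLb k hk1) hk0
    (hev k hk1) (abs_le.mp (hLb ψ₁ hψ₁.norm_eq.le)).2
    (by linarith [(abs_le.mp (hLb ψ₂ hψ₂.norm_eq.le)).1]) (abs_le.mp (hev ψ₁ hψ₁.norm_eq.le)).2
    (abs_le.mp (hev ψ₂ hψ₂.norm_eq.le)).2 h1 h2
  rw [hδ] at g2 g3
  have k1 : ‖1 - ev ψ₁ 0‖ ≤ s :=
    norm_one_sub_le ((norm_ev_le _ _).trans hψ₁.norm_eq.le) hs0.le g2
  have k2 : ‖1 - ev ψ₂ 0‖ ≤ s :=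
    norm_one_sub_le ((norm_ev_le _ _).trans hψ₂.norm_eq.le) hs0.le g3
  -- the function h
  obtain ⟨h, hh⟩ : ∃ h : HInf, h = (1 / 2 : ℂ) • (ψ₁ - ψ₂) := ⟨_, rfl⟩
  have h2n : ‖(1 / 2 : ℂ)‖ = 1 / 2 := by simp
  have hhn : ‖h‖ ≤ 1 := by
    rw [hh, norm_smul, h2n]
    have := norm_sub_le ψ₁ ψ₂
    rw [hψ₁.norm_eq, hψ₂.norm_eq] at this
    linarith
  have hK1 : IsK (ψ₁ * ψ₂) ψ₁ (1 * ψ₂) := (isK_self hψ₁).mul_right ψ₂
  have hK2 : IsK (ψ₁ * ψ₂) ψ₂ (ψ₁ * 1) := (isK_self hψ₂).mul_left ψ₁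
  have hKh := (hK1.sub hK2).smul (1 / 2 : ℂ)
  rw [← hh] at hKh
  refine ⟨ψ₁ * ψ₂, h, _, hψ₁.mul hψ₂, hKh, hhn, ?_, ?_⟩
  · rw [ev_mul]
    have e5 : 1 - ev ψ₁ 0 * ev ψ₂ 0 = (1 - ev ψ₁ 0) + ev ψ₁ 0 * (1 - ev ψ₂ 0) := by ring
    rw [e5]
    calc _ ≤ ‖1 - ev ψ₁ 0‖ + ‖ev ψ₁ 0 * (1 - ev ψ₂ 0)‖ := norm_add_le _ _
      _ ≤ s + 1 * s := by
          rw [norm_mul]
          exact add_le_add k1 (mul_le_mul ((norm_ev_le _ _).trans hψ₁.norm_eq.le) k2
            (norm_nonneg _) zero_le_one)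
      _ ≤ ε := by linarith
  -- the lower bound
  have hLh : r - 1 ≤ ‖L h‖ := by
    refine le_trans ?_ (Complex.re_le_norm _)
    rw [hh, map_smul, map_sub, smul_eq_mul]
    have : ((1 / 2 : ℂ) * (L ψ₁ - L ψ₂)).re = ((L ψ₁).re - (L ψ₂).re) / 2 := by
      have h3 : (1 / 2 : ℂ) = ((1 / 2 : ℝ) : ℂ) := by push_cast; rfl
      rw [h3, Complex.re_ofReal_mul, Complex.sub_re]
      ring
    rw [this]
    exact g1
  -- Taylor coefficients
  have hco : ∀ n : ℕ, ‖co n h‖ ≤ s := by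
    intro n
    rw [hh, co_smul, norm_mul, h2n, co_sub]
    by_cases hn : n = 0
    · rw [hn, norm_co_zero, norm_co_zero]
      have : ev ψ₁ 0 - ev ψ₂ 0 = (1 - ev ψ₂ 0) - (1 - ev ψ₁ 0) := by ring
      rw [this]
      have h3 := norm_sub_le (1 - ev ψ₂ 0) (1 - ev ψ₁ 0)
      linarith
    · have h3 := norm_co_le hψ₁.norm_eq.le hn
      have h4 := norm_co_le hψ₂.norm_eq.le hn
      have h5 := norm_sub_le (co n ψ₁) (co n ψ₂)
      have h6 : s ^ 2 ≤ s := by nlinarith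
      linarith
  obtain ⟨g, hg⟩ := exists_taylor h N
  obtain ⟨P, hP⟩ : ∃ P : HInf, P = ∑ n ∈ Finset.range N, (co n h) • zz ^ n := ⟨_, rfl⟩
  rw [← hP] at hg
  have hPn : ‖P‖ ≤ N * s := by
    rw [hP]
    calc _ ≤ ∑ n ∈ Finset.range N, ‖(co n h) • zz ^ n‖ := norm_sum_le _ _
      _ ≤ ∑ _n ∈ Finset.range N, s := by
          refine Finset.sum_le_sum (fun n _ => ?_)
          rw [norm_smul, (inner_zz.pow n).norm_eq, mul_one]
          exact hco n
      _ = N * s := by rw [Finset.sum_const, Finset.card_range, nsmul_eq_mul]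
  have hgn : ‖g‖ ≤ 1 + N * s := by
    rw [← (inner_zz.pow N).norm_mul_eq g]
    have : zz ^ N * g = h - P := by rw [hg]; abel
    rw [this]
    exact (norm_sub_le _ _).trans (add_le_add hhn hPn)
  intro G hG
  have e6 : h * G = h + P * (G - 1) + zz ^ N * (g * (G - 1)) := by
    have : h * G = h + (P + zz ^ N * g) * (G - 1) := by
      rw [← hg]; ring
    rw [this]; ring
  have b1 : ‖L (P * (G - 1))‖ ≤ 1 / 4 := by
    refine (L.le_opNorm _).trans ?_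
    rw [← hM]
    calc M * ‖P * (G - 1)‖ ≤ M * ((N * s) * (1 / 4)) := by
          gcongr
          exact (norm_mul_le _ _).trans (mul_le_mul hPn hG (norm_nonneg _) (by positivity))
      _ = ((N * s) * M) * (1 / 4) := by ring
      _ ≤ 1 * (1 / 4) := by gcongr
      _ = 1 / 4 := one_mul _
  have b2 : ‖L (zz ^ N * (g * (G - 1)))‖ ≤ (r + 2) / 4 := by
    rw [← sh_apply]
    refine ((sh L N).le_opNorm _).trans ?_
    calc ‖sh L N‖ * ‖g * (G - 1)‖ ≤ (r + 1) * ((1 + N * s) * (1 / 4)) := by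
          apply mul_le_mul hN _ (norm_nonneg _) (by linarith)
          exact (norm_mul_le _ _).trans (mul_le_mul hgn hG (norm_nonneg _) (by positivity))
      _ = ((r + 1) + (N * s) * (r + 1)) * (1 / 4) := by ring
      _ ≤ ((r + 1) + 1) * (1 / 4) := by gcongr
      _ = (r + 2) / 4 := by ring
  have b3 : ‖L h‖ ≤ ‖L (h * G)‖ + ‖L (P * (G - 1))‖ + ‖L (zz ^ N * (g * (G - 1)))‖ := by
    have e7 : L h = L (h * G) - L (P * (G - 1)) - L (zz ^ N * (g * (G - 1))) := by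
      rw [e6, map_add, map_add]
      ring
    rw [e7]
    refine (norm_sub_le _ _).trans ?_
    gcongr
    exact norm_sub_le _ _
  linarith

end Pool.Agent.Hinf
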