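import Pool.Agent.Lib.Hinf.Cesaro
import Pool.Agent.Lib.Hinf.Norming

/-!
# The case where a functional is small on a tail
-/

set_option autoImplicit false
set_option linter.unusedSimpArgs false

open Complex MeasureTheory Metric Set Filter Topology Real

namespace Pool.Agent.Hinf

theorem caseB (L : HInf →L[ℂ] ℂ) {R₀ : ℝ} {N : ℕ} (hN1 : N ≠ 0) (hN : ‖sh L N‖ ≤ R₀)
    (hL : 0 < ‖L‖) {ε : ℝ} (hε : 0 < ε) (hε1 : ε < 1) :
    ∃ θ h h' : HInf, Inner θ ∧ IsK θ h h' ∧ ‖h‖ ≤ 1 ∧ ‖1 - ev θ 0‖ ≤ ε ∧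
      ∀ G : HInf, ‖G - 1‖ ≤ 1 / 4 → ε * ‖L‖ / 2 - 5 / 4 * R₀ ≤ ‖L (h * G)‖ := by
  have hR₀ : 0 ≤ R₀ := (norm_nonneg _).trans hN
  obtain ⟨f, hf, hLf⟩ := exists_re_large L (r := 7 / 8 * ‖L‖) (by linarith)
  obtain ⟨φ, hφ, hLφ⟩ := exists_inner_re_ge L hf (ε := ‖L‖ / 8) (by positivity)
  have hLφ' : 3 / 4 * ‖L‖ ≤ (L φ).re := by linarith
  set u : HInf := zz ^ N * φ with hu
  have huI : Inner u := (inner_zz.pow N).mul hφ
  have hu0 : ev u 0 = 0 := by rw [hu, ev_mul, ev_zz_pow_zero hN1, zero_mul]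
  set R : ℝ := 1 - ε with hR
  have hR0 : 0 < R := by rw [hR]; linarith
  have hRn : ‖(-(R : ℂ))‖ = R := by
    rw [norm_neg, Complex.norm_real, Real.norm_of_nonneg hR0.le]
  set a : HInf := (-(R : ℂ)) • u with ha
  have han : ‖a‖ = R := by rw [ha, norm_smul, hRn, huI.norm_eq, mul_one]
  have han1 : ‖a‖ < 1 := by rw [han, hR]; linarith
  have hKu : IsK u ((-(R : ℂ)) • (1 : HInf)) a := by
    have := (isK_one (θ := u)).smul (-(R : ℂ))
    rwa [map_neg, Complex.conj_ofReal] at this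
  have hθI : Inner (-(mob u ((-(R : ℂ)) • (1 : HInf)) a)) := (inner_mob huI hKu han1).neg
  have hD : ‖inv1 a‖ ≤ 1 / ε := by
    have := norm_inv1_le han1
    rw [han, hR] at this
    rwa [sub_sub_cancel] at this
  have hεn : ‖(ε : ℂ)‖ = ε := by rw [Complex.norm_real, Real.norm_of_nonneg hε.le]
  refine ⟨-(mob u ((-(R : ℂ)) • (1 : HInf)) a), (ε : ℂ) • (φ * inv1 a),
    -((ε : ℂ) • (zz ^ N * inv1 a)), hθI, ?_, ?_, ?_, ?_⟩
  · -- the K relation
    filter_upwards [hφ, huI, bv_mul_inv1 han1, bv_smul (-(R : ℂ)) u, bv_smul (ε : ℂ) (φ * inv1 a),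
      bv_mul φ (inv1 a), bv_neg ((ε : ℂ) • (zz ^ N * inv1 a)), bv_smul (ε : ℂ) (zz ^ N * inv1 a),
      bv_mul (zz ^ N) (inv1 a), bv_mul (zz ^ N) φ, bv_neg (mob u ((-(R : ℂ)) • (1 : HInf)) a),
      bv_mul (u + (-(R : ℂ)) • (1 : HInf)) (inv1 a), bv_add u ((-(R : ℂ)) • (1 : HInf)),
      bv_smul (-(R : ℂ)) (1 : HInf), bv_one] with ζ b1 b2 b3 b4 b5 b6 b7 b8 b9 b10 b11 b12 b13 b14 b15
    have hφc : bv φ ζ * (starRingEnd ℂ) (bv φ ζ) = 1 := by
      rw [Complex.mul_conj, Complex.normSq_eq_norm_sq, b1]; simp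
    have huc : bv u ζ * (starRingEnd ℂ) (bv u ζ) = 1 := by
      rw [Complex.mul_conj, Complex.normSq_eq_norm_sq, b2]; simp
    rw [b7, b8, b9, b11, mob, b12, b13, b14, b15, b5, b6, map_mul, map_mul, Complex.conj_ofReal]
    rw [b4] at b3
    have b3c := congrArg (starRingEnd ℂ) b3
    rw [map_mul, map_add, map_one, map_mul, map_neg, Complex.conj_ofReal] at b3c
    have b10' : bv u ζ = bv (zz ^ N) ζ * bv φ ζ := b10
    have key : bv (zz ^ N) ζ = (bv u ζ - R) * (starRingEnd ℂ) (bv φ ζ)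
        * (starRingEnd ℂ) (bv (inv1 a) ζ) := by
      have k1 : (bv u ζ - R) = bv u ζ * (1 + -(R : ℂ) * (starRingEnd ℂ) (bv u ζ)) := by
        linear_combination (R : ℂ) * huc
      have k2 : (bv u ζ - R) * (starRingEnd ℂ) (bv (inv1 a) ζ) = bv u ζ := by
        rw [k1, mul_assoc, b3c, mul_one]
      have k3 : bv u ζ * (starRingEnd ℂ) (bv φ ζ) = bv (zz ^ N) ζ := by
        rw [b10', mul_assoc, hφc, mul_one]
      calc bv (zz ^ N) ζ = bv u ζ * (starRingEnd ℂ) (bv φ ζ) := k3.symm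
        _ = (bv u ζ - R) * (starRingEnd ℂ) (bv (inv1 a) ζ) * (starRingEnd ℂ) (bv φ ζ) := by rw [k2]
        _ = _ := by ring
    nth_rw 1 [key]
    ring
  · calc ‖(ε : ℂ) • (φ * inv1 a)‖ = ε * ‖inv1 a‖ := by
          rw [norm_smul, hεn, hφ.norm_mul_eq]
      _ ≤ ε * (1 / ε) := by gcongr
      _ = 1 := by field_simp
  · have h1 : ev (inv1 a) 0 = 1 := by
      have h2 := congrArg (fun x => ev x 0) (mul_inv1 han1)
      beta_reduce at h2
      rw [ev_mul, ev_add, ev_one zero_mem_D, ha, ev_smul, hu0, mul_zero, add_zero, one_mul] at h2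
      exact h2
    rw [ev_neg, mob, ev_mul, ev_add, ev_smul, ev_one zero_mem_D, hu0, h1, hR]
    push_cast
    have : (1 : ℂ) - -((0 + -(1 - (ε : ℂ)) * 1) * 1) = (ε : ℂ) := by ring
    rw [this, hεn]
  · intro G hG
    have hGn : ‖G‖ ≤ 5 / 4 := by
      calc ‖G‖ = ‖1 + (G - 1)‖ := by rw [add_sub_cancel]
        _ ≤ ‖(1 : HInf)‖ + ‖G - 1‖ := norm_add_le _ _
        _ ≤ 1 + 1 / 4 := by rw [norm_one]; exact add_le_add le_rfl hG
        _ = 5 / 4 := by norm_num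
    have e1 : (ε : ℂ) • (φ * inv1 a) * G
        = (ε : ℂ) • (φ * G) + zz ^ N * (((ε : ℂ) * R) • (φ * (φ * (inv1 a * G)))) := by
      have e2 : inv1 a = 1 + (R : ℂ) • (u * inv1 a) := by
        nth_rw 1 [inv1_eq han1]
        rw [ha, smul_mul_assoc, neg_smul, sub_neg_eq_add]
      have e3 : φ * inv1 a = φ + (R : ℂ) • (zz ^ N * (φ * (φ * inv1 a))) := by
        nth_rw 1 [e2]
        rw [mul_add, mul_one, mul_smul_comm, hu]
        congr 2
        ring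
      rw [e3, smul_add, add_mul, smul_mul_assoc, smul_smul, smul_mul_assoc, mul_smul_comm]
      congr 2
      ring
    have h1 : ‖L (φ * (G - 1))‖ ≤ 1 / 4 * ‖L‖ := by
      refine (L.le_opNorm _).trans ?_
      rw [hφ.norm_mul_eq, mul_comm]
      gcongr
    have h2 : 1 / 2 * ‖L‖ ≤ ‖L (φ * G)‖ := by
      have e4 : L (φ * G) = L φ + L (φ * (G - 1)) := by
        rw [← map_add]
        congr 1
        ring
      have h3 : ‖L φ‖ ≤ ‖L (φ * G)‖ + ‖L (φ * (G - 1))‖ := by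
        have : L φ = L (φ * G) - L (φ * (G - 1)) := by rw [e4]; ring
        rw [this]
        exact norm_sub_le _ _
      have h4 := (Complex.re_le_norm (L φ))
      linarith
    have h3 : ‖L (zz ^ N * (((ε : ℂ) * R) • (φ * (φ * (inv1 a * G)))))‖ ≤ 5 / 4 * R₀ := by
      rw [← sh_apply]
      refine ((sh L N).le_opNorm _).trans ?_
      have h4 : ‖((ε : ℂ) * R) • (φ * (φ * (inv1 a * G)))‖ ≤ 5 / 4 := by
        rw [norm_smul, hφ.norm_mul_eq, hφ.norm_mul_eq, norm_mul, hεn, Complex.norm_real,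
          Real.norm_of_nonneg hR0.le]
        calc ε * R * ‖inv1 a * G‖ ≤ ε * R * (‖inv1 a‖ * ‖G‖) := by
              gcongr
              exact norm_mul_le _ _
          _ ≤ ε * R * ((1 / ε) * (5 / 4)) := by gcongr
          _ = R * (5 / 4) := by field_simp
          _ ≤ 1 * (5 / 4) := by gcongr; rw [hR]; linarith
          _ = 5 / 4 := one_mul _
      calc ‖sh L N‖ * _ ≤ R₀ * (5 / 4) := mul_le_mul hN h4 (norm_nonneg _) hR₀
        _ = 5 / 4 * R₀ := mul_comm _ _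
    rw [e1, map_add, map_smul, smul_eq_mul]
    have h5 : ‖(ε : ℂ) * L (φ * G)‖ ≤ ‖(ε : ℂ) * L (φ * G)
        + L (zz ^ N * (((ε : ℂ) * R) • (φ * (φ * (inv1 a * G)))))‖
        + ‖L (zz ^ N * (((ε : ℂ) * R) • (φ * (φ * (inv1 a * G)))))‖ := by
      have := norm_sub_le ((ε : ℂ) * L (φ * G)
        + L (zz ^ N * (((ε : ℂ) * R) • (φ * (φ * (inv1 a * G))))))
        (L (zz ^ N * (((ε : ℂ) * R) • (φ * (φ * (inv1 a * G))))))
      rwa [add_sub_cancel_right] at this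
    rw [norm_mul, hεn] at h5
    have h6 : ε * (1 / 2 * ‖L‖) ≤ ε * ‖L (φ * G)‖ := by gcongr
    linarith

end Pool.Agent.Hinf
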