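import Pool.Agent.Lib.Hinf.Tail

/-!
# Functions with small quadratic mean on which a functional is large
-/

set_option autoImplicit false
set_option linter.unusedSimpArgs false

open Complex MeasureTheory Metric Set Filter Topology Real

namespace Pool.Agent.Hinf

/-- `L` composed with the multiplication by `z ^ N`. -/
noncomputable def sh (L : HInf →L[ℂ] ℂ) (N : ℕ) : HInf →L[ℂ] ℂ :=
  L.comp (ContinuousLinearMap.mul ℂ HInf (zz ^ N))

theorem sh_apply (L : HInf →L[ℂ] ℂ) (N : ℕ) (g : HInf) : sh L N g = L (zz ^ N * g) := rfl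

theorem norm_sh_le (L : HInf →L[ℂ] ℂ) (N : ℕ) : ‖sh L N‖ ≤ ‖L‖ := by
  refine ContinuousLinearMap.opNorm_le_bound _ (norm_nonneg _) (fun g => ?_)
  rw [sh_apply]
  refine (L.le_opNorm _).trans ?_
  rw [(inner_zz.pow N).norm_mul_eq]

theorem norm_sh_antitone (L : HInf →L[ℂ] ℂ) (N M : ℕ) : ‖sh L (N + M)‖ ≤ ‖sh L N‖ := by
  refine ContinuousLinearMap.opNorm_le_bound _ (norm_nonneg _) (fun g => ?_)
  rw [sh_apply, pow_add, mul_assoc, ← sh_apply]
  refine ((sh L N).le_opNorm _).trans ?_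
  rw [(inner_zz.pow M).norm_mul_eq]

theorem exists_re_large (L : HInf →L[ℂ] ℂ) {r : ℝ} (hr : r < ‖L‖) :
    ∃ g : HInf, ‖g‖ < 1 ∧ r < (L g).re := by
  obtain ⟨x, hx, hLx⟩ := L.exists_lt_apply_of_lt_opNorm hr
  by_cases h0 : L x = 0
  · refine ⟨x, hx, ?_⟩
    rw [h0, norm_zero] at hLx
    rw [h0, Complex.zero_re]
    exact hLx
  · have hn : (‖L x‖ : ℂ) ≠ 0 := by exact_mod_cast norm_ne_zero_iff.mpr h0
    refine ⟨((starRingEnd ℂ) (L x) / ‖L x‖) • x, ?_, ?_⟩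
    · rw [norm_smul, norm_div, Complex.norm_conj, Complex.norm_real, norm_norm,
        div_self (norm_ne_zero_iff.mpr h0), one_mul]
      exact hx
    · rw [map_smul, smul_eq_mul, div_mul_eq_mul_div, mul_comm, Complex.mul_conj,
        Complex.normSq_eq_norm_sq]
      have : ((‖L x‖ ^ 2 : ℝ) : ℂ) / (‖L x‖ : ℂ) = ((‖L x‖ : ℝ) : ℂ) := by
        push_cast
        field_simp
      rw [this, Complex.ofReal_re]
      exact hLx

theorem integrable_norm_sq (f : HInf) : Integrable (fun ζ => ‖bv f ζ‖ ^ 2) sg := by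
  refine Integrable.of_bound (C := ‖f‖ ^ 2) ((measurable_bv f).norm.pow_const 2).aestronglyMeasurable ?_
  filter_upwards [norm_bv_le f] with ζ hζ
  rw [Real.norm_of_nonneg (by positivity)]
  gcongr

theorem integral_norm_sq_le {f : HInf} (hf : ‖f‖ ≤ 1) : ∫ ζ, ‖bv f ζ‖ ^ 2 ∂sg ≤ 1 := by
  have h : ∫ ζ, ‖bv f ζ‖ ^ 2 ∂sg ≤ ∫ _ζ : ℂ, (1 : ℝ) ∂sg := by
    apply integral_mono_ae (integrable_norm_sq f) (integrable_const _)
    filter_upwards [norm_bv_le f] with ζ hζ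
    have h1 : ‖bv f ζ‖ ≤ 1 := hζ.trans hf
    exact pow_le_one₀ (norm_nonneg _) h1
  simpa using h

theorem integrable_bv_mul_conj (f g : HInf) :
    Integrable (fun ζ => bv f ζ * (starRingEnd ℂ) (bv g ζ)) sg := by
  refine (integrable_bv f).mul_bdd (c := ‖g‖)
    (Complex.continuous_conj.measurable.comp (measurable_bv g)).aestronglyMeasurable ?_
  filter_upwards [norm_bv_le g] with ζ hζ
  change ‖(starRingEnd ℂ) (bv g ζ)‖ ≤ ‖g‖
  rw [Complex.norm_conj]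
  exact hζ

theorem integral_norm_sq_comb (f g : HInf) (a b : ℝ) :
    ∫ ζ, ‖bv ((a : ℂ) • f + (b : ℂ) • g) ζ‖ ^ 2 ∂sg
      = a ^ 2 * (∫ ζ, ‖bv f ζ‖ ^ 2 ∂sg) + b ^ 2 * (∫ ζ, ‖bv g ζ‖ ^ 2 ∂sg)
        + 2 * a * b * (∫ ζ, bv f ζ * (starRingEnd ℂ) (bv g ζ) ∂sg).re := by
  have hre : (∫ ζ, bv f ζ * (starRingEnd ℂ) (bv g ζ) ∂sg).re
      = ∫ ζ, (bv f ζ * (starRingEnd ℂ) (bv g ζ)).re ∂sg :=
    (integral_re (integrable_bv_mul_conj f g)).symm
  have i1 := (integrable_norm_sq f).const_mul (a ^ 2)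
  have i2 := (integrable_norm_sq g).const_mul (b ^ 2)
  have i3 : Integrable (fun ζ => 2 * a * b * (bv f ζ * (starRingEnd ℂ) (bv g ζ)).re) sg :=
    (integrable_bv_mul_conj f g).re.const_mul (2 * a * b)
  have i12 : Integrable (fun ζ => a ^ 2 * ‖bv f ζ‖ ^ 2 + b ^ 2 * ‖bv g ζ‖ ^ 2) sg := i1.add i2
  rw [hre, ← integral_const_mul, ← integral_const_mul, ← integral_const_mul, ← integral_add i1 i2,
    ← integral_add i12 i3]
  apply integral_congr_ae
  filter_upwards [bv_add ((a : ℂ) • f) ((b : ℂ) • g), bv_smul (a : ℂ) f, bv_smul (b : ℂ) g]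
    with ζ h1 h2 h3
  rw [h1, h2, h3]
  rw [← Complex.normSq_eq_norm_sq, ← Complex.normSq_eq_norm_sq, ← Complex.normSq_eq_norm_sq,
    Complex.normSq_apply, Complex.normSq_apply, Complex.normSq_apply]
  simp only [Complex.add_re, Complex.add_im, Complex.mul_re, Complex.mul_im, Complex.ofReal_re,
    Complex.ofReal_im, Complex.conj_re, Complex.conj_im]
  ring

theorem exists_small_quadratic (L : HInf →L[ℂ] ℂ) {r : ℝ} (hr : ∀ N, r ≤ ‖sh L N‖) {η : ℝ}
    (hη : 0 < η) (k : ℕ) : ∃ f : HInf, ‖f‖ ≤ 1 ∧ ev f 0 = 0 ∧ r - η ≤ (L f).re ∧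
      ∫ ζ, ‖bv f ζ‖ ^ 2 ∂sg ≤ 1 / ((k : ℝ) + 1) + η := by
  have hpick : ∀ N : ℕ, ∃ g : HInf, ‖g‖ ≤ 1 ∧ r - η ≤ (L (zz ^ N * g)).re := by
    intro N
    obtain ⟨g, hg, hg2⟩ := exists_re_large (sh L N) (r := r - η) (by linarith [hr N])
    exact ⟨g, hg.le, hg2.le⟩
  induction k with
  | zero =>
    obtain ⟨g, hg, hg2⟩ := hpick 1
    rw [pow_one] at hg2
    refine ⟨zz * g, ?_, ?_, hg2, ?_⟩
    · rw [inner_zz.norm_mul_eq]; exact hg
    · rw [ev_mul, ev_zz zero_mem_D, zero_mul]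
    · have := integral_norm_sq_le (f := zz * g) (by rw [inner_zz.norm_mul_eq]; exact hg)
      rw [Nat.cast_zero, zero_add, div_one]
      linarith
  | succ k ih =>
    obtain ⟨f, hf1, hf0, hfL, hf2⟩ := ih
    obtain ⟨N, hN⟩ := exists_tail_orth f hη
    obtain ⟨g₀, hg₀, hg₀L⟩ := hpick (N + 1)
    set g : HInf := zz ^ (N + 1) * g₀ with hg
    have hgn : ‖g‖ ≤ 1 := by
      rw [hg, (inner_zz.pow (N + 1)).norm_mul_eq]; exact hg₀
    have hgorth : ‖∫ ζ, bv f ζ * (starRingEnd ℂ) (bv g ζ) ∂sg‖ ≤ η := by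
      have e : g = zz ^ N * (zz * g₀) := by rw [hg, pow_succ, mul_assoc]
      rw [e]
      exact hN (zz * g₀) (by rw [inner_zz.norm_mul_eq]; exact hg₀)
    set a : ℝ := ((k : ℝ) + 1) / ((k : ℝ) + 2) with ha
    set b : ℝ := 1 / ((k : ℝ) + 2) with hb
    have hk2 : (0 : ℝ) < (k : ℝ) + 2 := by positivity
    have hk1 : (0 : ℝ) < (k : ℝ) + 1 := by positivity
    have ha0 : 0 ≤ a := by positivity
    have hb0 : 0 ≤ b := by positivity
    have hab : a + b = 1 := by rw [ha, hb]; field_simp; ring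
    refine ⟨(a : ℂ) • f + (b : ℂ) • g, ?_, ?_, ?_, ?_⟩
    · calc _ ≤ ‖(a : ℂ) • f‖ + ‖(b : ℂ) • g‖ := norm_add_le _ _
        _ = a * ‖f‖ + b * ‖g‖ := by
            rw [norm_smul, norm_smul, Complex.norm_real, Complex.norm_real,
              Real.norm_of_nonneg ha0, Real.norm_of_nonneg hb0]
        _ ≤ a * 1 + b * 1 := by gcongr
        _ = 1 := by linarith
    · rw [ev_add, ev_smul, ev_smul, hf0, hg, ev_mul, ev_zz_pow_zero (Nat.succ_ne_zero N)]
      ring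
    · rw [map_add, map_smul, map_smul, Complex.add_re, smul_eq_mul, smul_eq_mul,
        Complex.re_ofReal_mul, Complex.re_ofReal_mul]
      have h1 : a * (r - η) ≤ a * (L f).re := mul_le_mul_of_nonneg_left hfL ha0
      have h2 : b * (r - η) ≤ b * (L g).re := mul_le_mul_of_nonneg_left hg₀L hb0
      calc r - η = (a + b) * (r - η) := by rw [hab, one_mul]
        _ = a * (r - η) + b * (r - η) := by ring
        _ ≤ _ := add_le_add h1 h2
    · rw [integral_norm_sq_comb]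
      have h1 : a ^ 2 * (∫ ζ, ‖bv f ζ‖ ^ 2 ∂sg) ≤ a ^ 2 * (1 / ((k : ℝ) + 1) + η) :=
        mul_le_mul_of_nonneg_left hf2 (by positivity)
      have h2 : b ^ 2 * (∫ ζ, ‖bv g ζ‖ ^ 2 ∂sg) ≤ b ^ 2 * 1 :=
        mul_le_mul_of_nonneg_left (integral_norm_sq_le hgn) (by positivity)
      have h3 : 2 * a * b * (∫ ζ, bv f ζ * (starRingEnd ℂ) (bv g ζ) ∂sg).re ≤ 2 * a * b * η :=
        mul_le_mul_of_nonneg_left ((Complex.re_le_norm _).trans hgorth) (by positivity)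
      have h4 : a ^ 2 * (1 / ((k : ℝ) + 1)) + b ^ 2 * 1 = 1 / ((k : ℝ) + 2) := by
        rw [ha, hb]; field_simp; ring
      have h5 : a ^ 2 * η + 2 * a * b * η ≤ η := by
        have h6 : a ^ 2 + 2 * a * b + b ^ 2 = 1 := by
          have : (a + b) ^ 2 = 1 := by rw [hab, one_pow]
          linarith [this, show (a + b) ^ 2 = a ^ 2 + 2 * a * b + b ^ 2 by ring]
        have h7 : a ^ 2 * η + 2 * a * b * η = (1 - b ^ 2) * η := by
          rw [← h6]; ring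
        rw [h7]
        nlinarith [sq_nonneg b]
      have h8 : ((k + 1 : ℕ) : ℝ) + 1 = (k : ℝ) + 2 := by push_cast; ring
      rw [h8]
      linarith

end Pool.Agent.Hinf
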