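import Pool.Agent.Lib.Hinf.Basic

/-!
# Normalised arc length on the unit circle, as a measure on `ℂ`
-/

set_option autoImplicit false
set_option linter.unusedSimpArgs false

open Complex MeasureTheory Metric Set Filter Topology Real

namespace Pool.Agent.Hinf

/-- Normalised arc length measure of the unit circle, as a measure on `ℂ`. -/
noncomputable def sg : Measure ℂ :=
  (ENNReal.ofReal (2 * π))⁻¹ • Measure.map (circleMap 0 1) (volume.restrict (Ioc 0 (2 * π)))

theorem measurable_cm : Measurable (circleMap 0 1) := (continuous_circleMap 0 1).measurable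

theorem norm_cm (θ : ℝ) : ‖circleMap 0 1 θ‖ = 1 := by simp

theorem cm_eq_exp (θ : ℝ) : circleMap 0 1 θ = Complex.exp (θ * I) := by simp [circleMap]

theorem cm_ne_zero (θ : ℝ) : circleMap 0 1 θ ≠ 0 := by
  rw [cm_eq_exp]; exact Complex.exp_ne_zero _

theorem ae_sg_of_ae (P : ℂ → Prop) (h : ∀ᵐ θ : ℝ, P (circleMap 0 1 θ)) : ∀ᵐ ζ ∂sg, P ζ := by
  -- the exceptional set of angles
  set N : Set ℝ := toMeasurable volume {θ : ℝ | ¬ P (circleMap 0 1 θ)} with hN
  have hNm : MeasurableSet N := measurableSet_toMeasurable _ _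
  have hN0 : volume N = 0 := by
    rw [hN, measure_toMeasurable]; exact h
  have hsub : {θ : ℝ | ¬ P (circleMap 0 1 θ)} ⊆ N := subset_toMeasurable _ _
  -- bad points
  have hbad : {ζ : ℂ | ¬ P ζ} ⊆ (Metric.sphere (0:ℂ) 1)ᶜ ∪ (Complex.arg ⁻¹' N) := by
    intro ζ hζ
    by_cases hs : ζ ∈ Metric.sphere (0:ℂ) 1
    · right
      apply hsub
      have : circleMap 0 1 (Complex.arg ζ) = ζ := by
        have h1 := Complex.norm_mul_exp_arg_mul_I ζ
        have h2 : ‖ζ‖ = 1 := by simpa using hs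
        rw [h2] at h1
        rw [cm_eq_exp]
        simpa using h1
      show ¬ P (circleMap 0 1 (Complex.arg ζ))
      rw [this]; exact hζ
    · left; exact hs
  have hz1 : sg ((Metric.sphere (0:ℂ) 1)ᶜ) = 0 := by
    rw [sg, Measure.smul_apply, Measure.map_apply measurable_cm
      (Metric.isClosed_sphere.measurableSet.compl)]
    have : circleMap 0 1 ⁻¹' (Metric.sphere (0:ℂ) 1)ᶜ = ∅ := by
      ext θ; simp
    rw [this]; simp
  have hz2 : sg (Complex.arg ⁻¹' N) = 0 := by
    rw [sg, Measure.smul_apply, Measure.map_apply measurable_cm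
      (Complex.measurable_arg hNm)]
    have hcov : circleMap 0 1 ⁻¹' (Complex.arg ⁻¹' N) ∩ Ioc 0 (2 * π) ⊆
        N ∪ (fun x => x + (- (2 * π))) ⁻¹' N := by
      rintro θ ⟨h1, h2⟩
      have h1' : Complex.arg (circleMap 0 1 θ) ∈ N := h1
      rw [cm_eq_exp] at h1'
      by_cases hθ : θ ≤ π
      · left
        rw [Complex.arg_exp_mul_I, (toIocMod_eq_self Real.two_pi_pos).mpr
          ⟨by linarith [h2.1, Real.pi_pos], by linarith⟩] at h1'
        exact h1'
      · right
        have h3 : Complex.exp (θ * I) = Complex.exp (((θ + -(2 * π) : ℝ) : ℂ) * I) := by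
          push_cast
          rw [add_mul, neg_mul, Complex.exp_add, Complex.exp_neg]
          simp
        rw [h3, Complex.arg_exp_mul_I, (toIocMod_eq_self Real.two_pi_pos).mpr
          ⟨by linarith, by linarith [h2.2]⟩] at h1'
        exact h1'
    have h0 : volume (circleMap 0 1 ⁻¹' (Complex.arg ⁻¹' N) ∩ Ioc 0 (2 * π)) = 0 := by
      apply measure_mono_null hcov
      rw [measure_union_null_iff]
      refine ⟨hN0, ?_⟩
      rw [measure_preimage_add_right]
      exact hN0
    rw [Measure.restrict_apply (measurable_cm (Complex.measurable_arg hNm)), h0]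
    simp
  show sg {ζ | ¬ P ζ} = 0
  exact measure_mono_null hbad (measure_union_null hz1 hz2)

theorem ae_of_ae_sg (P : ℂ → Prop) (h : ∀ᵐ ζ ∂sg, P ζ) : ∀ᵐ θ : ℝ, P (circleMap 0 1 θ) := by
  set S : Set ℂ := toMeasurable sg {ζ : ℂ | ¬ P ζ} with hS
  have hSm : MeasurableSet S := measurableSet_toMeasurable _ _
  have hS0 : sg S = 0 := by rw [hS, measure_toMeasurable]; exact h
  have hsub : {ζ : ℂ | ¬ P ζ} ⊆ S := subset_toMeasurable _ _
  have h1 : volume (circleMap 0 1 ⁻¹' S ∩ Ioc 0 (2 * π)) = 0 := by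
    rw [sg, Measure.smul_apply, Measure.map_apply measurable_cm hSm,
      Measure.restrict_apply (measurable_cm hSm)] at hS0
    rw [smul_eq_mul, mul_eq_zero] at hS0
    rcases hS0 with h | h
    · exact absurd h (ENNReal.inv_ne_zero.mpr ENNReal.ofReal_ne_top)
    · exact h
  have h2 : volume (circleMap 0 1 ⁻¹' S) = 0 := by
    have hfd := isAddFundamentalDomain_Ioc Real.two_pi_pos 0 (volume : Measure ℝ)
    rw [zero_add] at hfd
    apply hfd.measure_zero_of_invariant _ _ h1
    rintro ⟨g, hg⟩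
    obtain ⟨k, rfl⟩ := AddSubgroup.mem_zmultiples_iff.mp hg
    ext θ
    rw [Set.mem_vadd_set_iff_neg_vadd_mem]
    simp only [mem_preimage]
    have : circleMap 0 1 (-(⟨k • (2 * π), hg⟩ : AddSubgroup.zmultiples (2 * π)) +ᵥ θ) =
        circleMap 0 1 θ := by
      have h4 : (-(⟨k • (2 * π), hg⟩ : AddSubgroup.zmultiples (2 * π)) +ᵥ θ) =
        θ - k * (2 * π) := by
        show -(k • (2 * π)) + θ = _
        simp; ring
      rw [h4]
      exact (periodic_circleMap 0 1).sub_int_mul_eq k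
    rw [this]
  show volume {θ | ¬ P (circleMap 0 1 θ)} = 0
  exact measure_mono_null (fun θ hθ => hsub hθ) h2

theorem ae_sg_iff (P : ℂ → Prop) : (∀ᵐ ζ ∂sg, P ζ) ↔ ∀ᵐ θ : ℝ, P (circleMap 0 1 θ) :=
  ⟨ae_of_ae_sg P, ae_sg_of_ae P⟩

theorem ae_norm_eq_one : ∀ᵐ ζ ∂sg, ‖ζ‖ = 1 :=
  ae_sg_of_ae _ (Filter.Eventually.of_forall norm_cm)

instance : IsProbabilityMeasure sg := by
  constructor
  rw [sg, Measure.smul_apply, Measure.map_apply measurable_cm MeasurableSet.univ]
  simp only [preimage_univ, Measure.restrict_apply_univ, Real.volume_Ioc, sub_zero, smul_eq_mul]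
  exact ENNReal.inv_mul_cancel (by simp [Real.pi_pos]) ENNReal.ofReal_ne_top

theorem integral_sg {E : Type*} [NormedAddCommGroup E] [NormedSpace ℝ E] [NormedSpace ℂ E]
    (f : ℂ → E) (hf : AEStronglyMeasurable f sg) :
    ∫ ζ, f ζ ∂sg = circleAverage f 0 1 := by
  have hne : (ENNReal.ofReal (2 * π))⁻¹ ≠ 0 := ENNReal.inv_ne_zero.mpr ENNReal.ofReal_ne_top
  have hf' : AEStronglyMeasurable f
      (Measure.map (circleMap 0 1) (volume.restrict (Ioc 0 (2 * π)))) := by
    apply hf.mono_ac
    rw [sg]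
    exact Measure.AbsolutelyContinuous.smul_right  (Measure.AbsolutelyContinuous.refl _) hne
  rw [sg, integral_smul_measure, integral_map measurable_cm.aemeasurable hf',
    circleAverage_def, intervalIntegral.integral_of_le Real.two_pi_pos.le,
    ENNReal.toReal_inv, ENNReal.toReal_ofReal Real.two_pi_pos.le]

end Pool.Agent.Hinf
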