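import Pool.Agent.Lib.Hinf.Ulim

/-!
# Every coset `e + B H^∞` with `‖e‖ ≤ 1/2`, `B` inner, contains an inner function
-/

set_option autoImplicit false
set_option linter.unusedSimpArgs false

open Complex MeasureTheory Metric Set Filter Topology Real

namespace Pool.Agent.Hinf

theorem Inner.exists_ev_ne_zero {B : HInf} (hB : Inner B) :
    ∃ z ∈ Metric.ball (0:ℂ) 1, ev B z ≠ 0 := by
  by_contra h
  push Not at h
  have h1 : ‖B‖ ≤ 0 := by
    apply norm_le_of_ev B le_rfl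
    intro z hz
    rw [h z hz, norm_zero]
  have h2 := hB.norm_eq
  linarith

theorem exists_level_of_not_inner {F : HInf} (hF : ‖F‖ ≤ 1) (h : ¬ Inner F) :
    ∃ δ : ℝ, 0 < δ ∧ δ ≤ 1 ∧ sg {ζ | ‖bv F ζ‖ ≤ 1 - δ} ≠ 0 := by
  by_contra hcon
  push Not at hcon
  apply h
  have h1 : ∀ n : ℕ, ∀ᵐ ζ ∂sg, ¬ (‖bv F ζ‖ ≤ 1 - 1 / ((n:ℝ) + 1)) := by
    intro n
    have h2 := hcon (1 / ((n:ℝ) + 1)) (by positivity) (by
      rw [div_le_one (by positivity)]
      have : (0:ℝ) ≤ n := Nat.cast_nonneg n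
      linarith)
    show sg {ζ | ¬ ¬ (‖bv F ζ‖ ≤ 1 - 1 / ((n:ℝ) + 1))} = 0
    simpa using h2
  rw [← ae_all_iff] at h1
  filter_upwards [h1, norm_bv_le F] with ζ h2 h3
  apply le_antisymm (h3.trans hF)
  by_contra h4
  push Not at h4
  obtain ⟨n, hn⟩ := exists_nat_one_div_lt (sub_pos.mpr h4)
  apply h2 n
  linarith

/-- **Coset lemma**. -/
theorem exists_inner_coset {B e : HInf} (hB : Inner B) (he : ‖e‖ ≤ 1 / 2) :
    ∃ ψ g : HInf, Inner ψ ∧ ψ = e + B * g := by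
  obtain ⟨z₀, hz₀, hBz⟩ := hB.exists_ev_ne_zero
  -- the extremal problem
  set S : Set ℝ := {x | ∃ g : HInf, ‖e + B * g‖ ≤ 1 ∧ x = (ev (e + B * g) z₀).re} with hS
  have hbdd : BddAbove S := by
    refine ⟨1, ?_⟩
    rintro x ⟨g, hg, rfl⟩
    exact (Complex.re_le_norm _).trans ((norm_ev_le _ _).trans hg)
  have hne : S.Nonempty := by
    refine ⟨_, 0, ?_, rfl⟩
    rw [mul_zero, add_zero]
    linarith
  obtain ⟨u, -, hu, huS⟩ := exists_seq_tendsto_sSup hne hbdd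
  choose g hg hgu using huS
  set s := sSup S with hs
  have hgn : ∀ n, ‖g n‖ ≤ 3 / 2 := by
    intro n
    rw [← hB.norm_mul_eq]
    have : B * g n = (e + B * g n) - e := by ring
    rw [this]
    refine (norm_sub_le _ _).trans ?_
    linarith [hg n]
  obtain ⟨G, hG1, hG2⟩ := exists_ulim g hgn
  have hlimF : ∀ z ∈ Metric.ball (0:ℂ) 1, Tendsto (fun n => ev (e + B * g n) z) (UF : Filter ℕ)
      (𝓝 (ev (e + B * G) z)) := by
    intro z hz
    simp only [ev_add, ev_mul]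
    exact ((hG2 z hz).const_mul _).const_add _
  have hF1 : ‖e + B * G‖ ≤ 1 := by
    apply norm_le_of_ev _ zero_le_one
    intro z hz
    exact le_of_tendsto (hlimF z hz).norm (Filter.Eventually.of_forall fun n =>
      (norm_ev_le _ _).trans (hg n))
  have hFs : (ev (e + B * G) z₀).re = s := by
    have h1 : Tendsto (fun n => (ev (e + B * g n) z₀).re) (UF : Filter ℕ)
        (𝓝 (ev (e + B * G) z₀).re) := (Complex.continuous_re.tendsto _).comp (hlimF z₀ hz₀)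
    have h2 : Tendsto (fun n => (ev (e + B * g n) z₀).re) (UF : Filter ℕ) (𝓝 s) := by
      have : (fun n => (ev (e + B * g n) z₀).re) = u := by
        funext n; exact (hgu n).symm
      rw [this]
      exact hu.mono_left UF_le
    exact tendsto_nhds_unique h1 h2
  refine ⟨e + B * G, G, ?_, rfl⟩
  by_contra hnot
  obtain ⟨δ, hδ, hδ1, hE⟩ := exists_level_of_not_inner hF1 hnot
  set E : Set ℂ := {ζ | ‖bv (e + B * G) ζ‖ ≤ 1 - δ} with hEdef
  have hm : MeasurableSet E := measurableSet_le (measurable_bv _).norm measurable_const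
  set ω : ℝ := (Hinf.hE E z₀).re with hω
  have hωpos : 0 < ω := hE_re_pos hE hz₀
  -- choose a large parameter
  obtain ⟨t, ht0, ht1, ht2⟩ : ∃ t : ℝ, 0 ≤ t ∧ Real.exp (-t) ≤ 1 / 2 ∧
      6 < ‖ev B z₀‖ * Real.exp (t * ω) := by
    have hlim1 : Tendsto (fun t : ℝ => ‖ev B z₀‖ * Real.exp (t * ω)) atTop atTop := by
      apply Tendsto.const_mul_atTop (norm_pos_iff.mpr hBz)
      exact Real.tendsto_exp_atTop.comp (tendsto_id.atTop_mul_const hωpos)
    have hlim2 : Tendsto (fun t : ℝ => Real.exp (-t)) atTop (𝓝 0) :=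
      Real.tendsto_exp_neg_atTop_nhds_zero
    obtain ⟨t, h1, h2, h3⟩ := ((eventually_ge_atTop (0:ℝ)).and
      ((hlim2.eventually (ge_mem_nhds (show (0:ℝ) < 1/2 by norm_num))).and
        (hlim1.eventually_gt_atTop 6))).exists
    exact ⟨t, h1, h2, h3⟩
  set η : ℝ := Real.exp (-t) with hη
  have hηpos : 0 < η := Real.exp_pos _
  set k : HInf := out Eᶜ hm.compl (-t) with hk
  have hcompl : (Hinf.hE Eᶜ z₀).re = 1 - ω := by
    have := hE_re_compl hm hz₀
    rw [hω]; linarith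
  set a : ℂ := ev (B * k) z₀ with ha
  have hanorm : ‖a‖ = ‖ev B z₀‖ * (η * Real.exp (t * ω)) := by
    rw [ha, ev_mul, norm_mul, hk, norm_ev_out hm.compl (-t) hz₀, hcompl, hη, ← Real.exp_add]
    congr 2
    ring
  have ha6 : 6 * η < ‖a‖ := by
    rw [hanorm]
    calc 6 * η < (‖ev B z₀‖ * Real.exp (t * ω)) * η := by
          apply mul_lt_mul_of_pos_right ht2 hηpos
      _ = ‖ev B z₀‖ * (η * Real.exp (t * ω)) := by ring
  have hapos : 0 < ‖a‖ := by linarith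
  have hane : a ≠ 0 := norm_pos_iff.mp hapos
  have hbvk : ∀ᵐ ζ ∂sg, (ζ ∈ E → ‖bv k ζ‖ = 1) ∧ (ζ ∉ E → ‖bv k ζ‖ = η) := by
    filter_upwards [norm_bv_out hm.compl (-t)] with ζ hζ
    constructor
    · intro h
      rw [hk, hζ, indicator_of_notMem (by simpa using h), mul_zero, Real.exp_zero]
    · intro h
      rw [hk, hζ, indicator_of_mem (by simpa using h), mul_one]
  have hk1 : ‖k‖ ≤ 1 := by
    apply norm_le_of_bv
    filter_upwards [hbvk] with ζ hζ
    by_cases h : ζ ∈ E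
    · rw [hζ.1 h]
    · rw [hζ.2 h]; linarith
  have ha1 : ‖a‖ ≤ 1 := by
    rw [ha]
    refine (norm_ev_le _ _).trans ?_
    rw [hB.norm_mul_eq]; exact hk1
  -- unimodular constant
  set c : ℂ := (‖a‖ : ℂ) / a with hc
  have hcn : ‖c‖ = 1 := by
    rw [hc, norm_div, Complex.norm_real, norm_norm, div_self hapos.ne']
  have hca : c * a = ‖a‖ := by
    rw [hc]; field_simp
  set s' : ℝ := 2 * δ * η with hs'
  have hs'0 : 0 ≤ s' := by positivity
  have hs'1 : s' ≤ 1 := by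
    rw [hs']; nlinarith
  set g' : HInf := ((1 - s' : ℝ) : ℂ) • (G + ((δ : ℂ) * c) • k) with hg'
  have hF' : e + B * g' = ((1 - s' : ℝ) : ℂ) • ((e + B * G) + ((δ : ℂ) * c) • (B * k)) +
      ((s' : ℝ) : ℂ) • e := by
    rw [hg', mul_smul_comm, mul_add, mul_smul_comm, smul_add ((1 - s' : ℝ) : ℂ) (e + B * G),
      smul_add ((1 - s' : ℝ) : ℂ) e, smul_add ((1 - s' : ℝ) : ℂ) (B * G)]
    have h1 : e = ((1 - s' : ℝ) : ℂ) • e + ((s' : ℝ) : ℂ) • e := by
      rw [← add_smul]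
      have : ((1 - s' : ℝ) : ℂ) + ((s' : ℝ) : ℂ) = 1 := by push_cast; ring
      rw [this, one_smul]
    nth_rw 1 [h1]
    abel
  have hF'norm : ‖e + B * g'‖ ≤ 1 := by
    rw [hF']
    apply norm_le_of_bv
    filter_upwards [bv_add (((1 - s' : ℝ) : ℂ) • ((e + B * G) + ((δ : ℂ) * c) • (B * k)))
      (((s' : ℝ) : ℂ) • e), bv_smul ((1 - s' : ℝ) : ℂ) ((e + B * G) + ((δ : ℂ) * c) • (B * k)),
      bv_add (e + B * G) (((δ : ℂ) * c) • (B * k)), bv_smul ((δ : ℂ) * c) (B * k), bv_mul B k,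
      bv_smul ((s' : ℝ) : ℂ) e, hbvk, norm_bv_le (e + B * G), norm_bv_le e, hB] with
      ζ h1 h2 h3 h4 h5 h6 h7 h8 h9 h10
    rw [h1, h2, h3, h4, h5, h6]
    have h11 : ‖((1 - s' : ℝ) : ℂ)‖ = 1 - s' := by
      rw [Complex.norm_real, Real.norm_of_nonneg (by linarith)]
    have h12 : ‖((s' : ℝ) : ℂ)‖ = s' := by
      rw [Complex.norm_real, Real.norm_of_nonneg hs'0]
    have h13 : ‖((δ : ℂ) * c)‖ = δ := by
      rw [norm_mul, Complex.norm_real, hcn, mul_one, Real.norm_of_nonneg hδ.le]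
    have h14 : ‖((1 - s' : ℝ) : ℂ) * (bv (e + B * G) ζ + (δ : ℂ) * c * (bv B ζ * bv k ζ)) +
        ((s' : ℝ) : ℂ) * bv e ζ‖ ≤
        (1 - s') * (‖bv (e + B * G) ζ‖ + δ * ‖bv k ζ‖) + s' * (1 / 2) := by
      refine (norm_add_le _ _).trans ?_
      rw [norm_mul, h11, norm_mul, h12]
      have h15 : ‖bv (e + B * G) ζ + (δ : ℂ) * c * (bv B ζ * bv k ζ)‖ ≤
          ‖bv (e + B * G) ζ‖ + δ * ‖bv k ζ‖ := by
        refine (norm_add_le _ _).trans ?_
        rw [norm_mul, h13, norm_mul, h10, one_mul]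
      have h16 : ‖bv e ζ‖ ≤ 1 / 2 := h9.trans he
      have h17 : 0 ≤ 1 - s' := by linarith
      gcongr
    refine h14.trans ?_
    by_cases hζ : ζ ∈ E
    · rw [h7.1 hζ, mul_one]
      have h18 : ‖bv (e + B * G) ζ‖ ≤ 1 - δ := hζ
      nlinarith
    · rw [h7.2 hζ]
      have h18 : ‖bv (e + B * G) ζ‖ ≤ 1 := h8.trans hF1
      have h19 : (1 - s') * (‖bv (e + B * G) ζ‖ + δ * η) ≤ (1 - s') * (1 + δ * η) := by
        apply mul_le_mul_of_nonneg_left _ (by linarith)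
        linarith
      have h20 : 0 ≤ s' * (δ * η) := by positivity
      rw [hs'] at *
      nlinarith
  have hval : (ev (e + B * g') z₀).re = (1 - s') * (s + δ * ‖a‖) + s' * (ev e z₀).re := by
    rw [hF', ev_add, ev_smul, ev_add, ev_smul, ev_smul, ← ha]
    have h1 : (δ : ℂ) * c * a = ((δ * ‖a‖ : ℝ) : ℂ) := by
      rw [mul_assoc, hca]; push_cast; ring
    rw [h1, Complex.add_re, Complex.re_ofReal_mul, Complex.re_ofReal_mul, Complex.add_re, hFs,
      Complex.ofReal_re]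
  have hle : (ev (e + B * g') z₀).re ≤ s := le_csSup hbdd ⟨g', hF'norm, rfl⟩
  rw [hval] at hle
  have hs1 : |s| ≤ 1 := by
    rw [← hFs]
    exact (Complex.abs_re_le_norm _).trans ((norm_ev_le _ _).trans hF1)
  have he1 : |(ev e z₀).re| ≤ 1 / 2 :=
    (Complex.abs_re_le_norm _).trans ((norm_ev_le _ _).trans he)
  rw [abs_le] at hs1 he1
  have h1 : δ * ‖a‖ ≤ 1 := by nlinarith
  have h2 : δ * (6 * η) < δ * ‖a‖ := mul_lt_mul_of_pos_left ha6 hδ
  have h3 : s' * (s + δ * ‖a‖ - (ev e z₀).re) ≤ s' * (5 / 2) := by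
    apply mul_le_mul_of_nonneg_left _ hs'0
    linarith [hs1.2, he1.1]
  nlinarith

end Pool.Agent.Hinf
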