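import Pool.Agent.Lib.Hinf.Bdry

/-!
# Model spaces in `HInf` and pseudocontinuable functions
-/

set_option autoImplicit false
set_option linter.unusedSimpArgs false

open Complex MeasureTheory Metric Set Filter Topology Real

namespace Pool.Agent.Hinf

/-- `h' = θ * conj h` on the circle. -/
def IsK (θ h h' : HInf) : Prop := ∀ᵐ ζ ∂sg, bv h' ζ = bv θ ζ * (starRingEnd ℂ) (bv h ζ)

theorem IsK.symm {θ h h' : HInf} (hθ : Inner θ) (H : IsK θ h h') : IsK θ h' h := by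
  filter_upwards [hθ, H] with ζ h1 h2
  rw [h2, map_mul, Complex.conj_conj, ← mul_assoc, Complex.mul_conj, Complex.normSq_eq_norm_sq, h1]
  simp

theorem IsK.norm_eq {θ h h' : HInf} (hθ : Inner θ) (H : IsK θ h h') :
    ∀ᵐ ζ ∂sg, ‖bv h' ζ‖ = ‖bv h ζ‖ := by
  filter_upwards [hθ, H] with ζ h1 h2
  rw [h2, norm_mul, h1, one_mul, Complex.norm_conj]

theorem IsK.norm_le {θ h h' : HInf} (hθ : Inner θ) (H : IsK θ h h') : ‖h'‖ ≤ ‖h‖ := by
  apply norm_le_of_bv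
  filter_upwards [H.norm_eq hθ, norm_bv_le h] with ζ h1 h2
  rw [h1]
  exact h2

theorem IsK.add {θ h h' g g' : HInf} (H : IsK θ h h') (G : IsK θ g g') :
    IsK θ (h + g) (h' + g') := by
  filter_upwards [H, G, bv_add h g, bv_add h' g'] with ζ h1 h2 h3 h4
  rw [h3, h4, h1, h2, map_add]
  ring

theorem IsK.sub {θ h h' g g' : HInf} (H : IsK θ h h') (G : IsK θ g g') :
    IsK θ (h - g) (h' - g') := by
  filter_upwards [H, G, bv_sub h g, bv_sub h' g'] with ζ h1 h2 h3 h4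
  rw [h3, h4, h1, h2, map_sub]
  ring

theorem IsK.smul {θ h h' : HInf} (c : ℂ) (H : IsK θ h h') :
    IsK θ (c • h) ((starRingEnd ℂ) c • h') := by
  filter_upwards [H, bv_smul c h, bv_smul ((starRingEnd ℂ) c) h'] with ζ h1 h3 h4
  rw [h3, h4, h1, map_mul]
  ring

theorem IsK.mul {θ φ h h' g g' : HInf} (H : IsK θ h h') (G : IsK φ g g') :
    IsK (θ * φ) (h * g) (h' * g') := by
  filter_upwards [H, G, bv_mul h g, bv_mul h' g', bv_mul θ φ] with ζ h1 h2 h3 h4 h5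
  rw [h3, h4, h5, h1, h2, map_mul]
  ring

theorem isK_one {θ : HInf} : IsK θ 1 θ := by
  filter_upwards [bv_one] with ζ h1
  rw [h1, map_one, mul_one]

theorem isK_self {θ : HInf} (hθ : Inner θ) : IsK θ θ 1 := isK_one.symm hθ

theorem isK_zero {θ : HInf} : IsK θ 0 0 := by
  filter_upwards with ζ
  rw [bv_zero, map_zero, mul_zero]

theorem IsK.mul_right {θ h h' : HInf} (φ : HInf) (H : IsK θ h h') : IsK (θ * φ) h (h' * φ) := by
  have := H.mul (isK_one (θ := φ))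
  rwa [mul_one] at this

theorem IsK.mul_left {θ h h' : HInf} (φ : HInf) (H : IsK θ h h') : IsK (φ * θ) h (φ * h') := by
  have := (isK_one (θ := φ)).mul H
  rwa [one_mul] at this

theorem IsK.unique {θ h h' h'' : HInf} (H : IsK θ h h') (H' : IsK θ h h'') : h' = h'' := by
  apply eq_of_bv
  filter_upwards [H, H'] with ζ h1 h2
  rw [h1, h2]

/-- Pseudocontinuable functions. -/
def PC (h : HInf) : Prop := ∃ θ h' : HInf, Inner θ ∧ IsK θ h h'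

theorem PC.add {h g : HInf} (H : PC h) (G : PC g) : PC (h + g) := by
  obtain ⟨θ, h', hθ, H⟩ := H
  obtain ⟨φ, g', hφ, G⟩ := G
  exact ⟨θ * φ, _, hθ.mul hφ, (H.mul_right φ).add (G.mul_left θ)⟩

theorem PC.mul {h g : HInf} (H : PC h) (G : PC g) : PC (h * g) := by
  obtain ⟨θ, h', hθ, H⟩ := H
  obtain ⟨φ, g', hφ, G⟩ := G
  exact ⟨θ * φ, _, hθ.mul hφ, H.mul G⟩

theorem PC.smul {h : HInf} (c : ℂ) (H : PC h) : PC (c • h) := by
  obtain ⟨θ, h', hθ, H⟩ := H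
  exact ⟨θ, _, hθ, H.smul c⟩

theorem Inner.pc {h : HInf} (H : Inner h) : PC h := ⟨h, 1, H, isK_self H⟩

theorem pc_zero : PC 0 := ⟨1, 0, inner_one, isK_zero⟩

/-- The approximation property used for the Douglas-Rudin theorem. -/
def QA (g : ℂ → ℂ) : Prop := ∀ ε : ℝ, 0 < ε → ∃ B f : HInf, Inner B ∧ PC f ∧
  ∀ᵐ ζ ∂sg, ‖bv B ζ * g ζ - bv f ζ‖ ≤ ε

theorem QA.add {g₁ g₂ : ℂ → ℂ} (h₁ : QA g₁) (h₂ : QA g₂) : QA (fun ζ => g₁ ζ + g₂ ζ) := by
  intro ε hε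
  obtain ⟨B₁, f₁, hB₁, hf₁, H₁⟩ := h₁ (ε / 2) (by positivity)
  obtain ⟨B₂, f₂, hB₂, hf₂, H₂⟩ := h₂ (ε / 2) (by positivity)
  refine ⟨B₁ * B₂, B₂ * f₁ + B₁ * f₂, hB₁.mul hB₂, (hB₂.pc.mul hf₁).add (hB₁.pc.mul hf₂), ?_⟩
  filter_upwards [H₁, H₂, hB₁, hB₂, bv_mul B₁ B₂, bv_mul B₂ f₁, bv_mul B₁ f₂,
    bv_add (B₂ * f₁) (B₁ * f₂)] with ζ a1 a2 a3 a4 a5 a6 a7 a8
  rw [a8, a6, a7, a5]
  have e : bv B₁ ζ * bv B₂ ζ * (g₁ ζ + g₂ ζ) - (bv B₂ ζ * bv f₁ ζ + bv B₁ ζ * bv f₂ ζ)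
      = bv B₂ ζ * (bv B₁ ζ * g₁ ζ - bv f₁ ζ) + bv B₁ ζ * (bv B₂ ζ * g₂ ζ - bv f₂ ζ) := by ring
  rw [e]
  refine (norm_add_le _ _).trans ?_
  rw [norm_mul, norm_mul, a3, a4, one_mul, one_mul]
  linarith

theorem QA.const_mul {g : ℂ → ℂ} (h : QA g) (c : ℂ) : QA (fun ζ => c * g ζ) := by
  intro ε hε
  obtain ⟨B, f, hB, hf, H⟩ := h (ε / (‖c‖ + 1)) (by positivity)
  refine ⟨B, c • f, hB, hf.smul c, ?_⟩
  filter_upwards [H, bv_smul c f] with ζ a1 a2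
  rw [a2, show bv B ζ * (c * g ζ) - c * bv f ζ = c * (bv B ζ * g ζ - bv f ζ) by ring, norm_mul]
  calc ‖c‖ * ‖bv B ζ * g ζ - bv f ζ‖ ≤ (‖c‖ + 1) * (ε / (‖c‖ + 1)) := by
        apply mul_le_mul (by linarith) a1 (norm_nonneg _) (by positivity)
    _ = ε := by field_simp

theorem QA.congr {g₁ g₂ : ℂ → ℂ} (h : QA g₁) (hg : ∀ᵐ ζ ∂sg, g₁ ζ = g₂ ζ) : QA g₂ := by
  intro ε hε
  obtain ⟨B, f, hB, hf, H⟩ := h ε hε
  refine ⟨B, f, hB, hf, ?_⟩
  filter_upwards [H, hg] with ζ a1 a2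
  rw [← a2]
  exact a1

theorem qa_zero : QA (fun _ => 0) := by
  intro ε hε
  refine ⟨1, 0, inner_one, pc_zero, ?_⟩
  filter_upwards with ζ
  rw [bv_zero, mul_zero, sub_zero, norm_zero]
  exact hε.le

theorem qa_one : QA (fun _ => 1) := by
  intro ε hε
  refine ⟨1, 1, inner_one, inner_one.pc, ?_⟩
  filter_upwards with ζ
  rw [mul_one, sub_self, norm_zero]
  exact hε.le

theorem QA.of_approx {g : ℂ → ℂ}
    (h : ∀ ε : ℝ, 0 < ε → ∃ g' : ℂ → ℂ, QA g' ∧ ∀ᵐ ζ ∂sg, ‖g ζ - g' ζ‖ ≤ ε) : QA g := by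
  intro ε hε
  obtain ⟨g', hg', H⟩ := h (ε / 2) (by positivity)
  obtain ⟨B, f, hB, hf, H2⟩ := hg' (ε / 2) (by positivity)
  refine ⟨B, f, hB, hf, ?_⟩
  filter_upwards [H, H2, hB] with ζ a1 a2 a3
  have e : bv B ζ * g ζ - bv f ζ = bv B ζ * (g ζ - g' ζ) + (bv B ζ * g' ζ - bv f ζ) := by ring
  rw [e]
  refine (norm_add_le _ _).trans ?_
  rw [norm_mul, a3, one_mul]
  linarith

/-- `QA` for bounded measurable functions from `QA` for indicators. -/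
theorem qa_of_indicator
    (hind : ∀ E : Set ℂ, MeasurableSet E → QA (E.indicator (fun _ => 1)))
    {g : ℂ → ℂ} (hg : Measurable g) {M : ℝ} (hM : ∀ᵐ ζ ∂sg, ‖g ζ‖ ≤ M) : QA g := by
  classical
  apply QA.of_approx
  intro ε hε
  have key : ∀ t : Finset ℂ, ∀ E : Set ℂ, MeasurableSet E →
      (∀ ζ ∈ E, ∃ c ∈ t, ‖g ζ - c‖ ≤ ε) → ∃ g' : ℂ → ℂ, QA g' ∧
        (∀ ζ ∈ E, ‖g ζ - g' ζ‖ ≤ ε) ∧ (∀ ζ ∉ E, g' ζ = 0) := by
    intro t
    induction t using Finset.induction_on with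
    | empty =>
      intro E _ hE
      refine ⟨fun _ => 0, qa_zero, ?_, fun _ _ => rfl⟩
      intro ζ hζ
      obtain ⟨c, hc, _⟩ := hE ζ hζ
      exact absurd hc (Finset.notMem_empty c)
    | insert c t hct ih =>
      intro E hEm hE
      set E₁ : Set ℂ := E ∩ {ζ | ‖g ζ - c‖ ≤ ε} with hE₁
      have hE₁m : MeasurableSet E₁ :=
        hEm.inter (measurableSet_le ((hg.sub_const c).norm) measurable_const)
      obtain ⟨g', h1, h2, h3⟩ := ih (E \ E₁) (hEm.diff hE₁m) (by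
        intro ζ hζ
        obtain ⟨d, hd, hd2⟩ := hE ζ hζ.1
        rcases Finset.mem_insert.mp hd with rfl | hd'
        · exact absurd (⟨hζ.1, hd2⟩ : ζ ∈ E₁) hζ.2
        · exact ⟨d, hd', hd2⟩)
      refine ⟨fun ζ => c * E₁.indicator (fun _ => 1) ζ + g' ζ, ((hind E₁ hE₁m).const_mul c).add h1,
        ?_, ?_⟩
      · intro ζ hζ
        beta_reduce
        by_cases hζ1 : ζ ∈ E₁
        · rw [Set.indicator_of_mem hζ1, h3 ζ (fun h => h.2 hζ1), mul_one, add_zero]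
          exact hζ1.2
        · rw [Set.indicator_of_notMem hζ1, mul_zero, zero_add]
          exact h2 ζ ⟨hζ, hζ1⟩
      · intro ζ hζ
        beta_reduce
        have hζ1 : ζ ∉ E₁ := fun h => hζ h.1
        rw [Set.indicator_of_notMem hζ1, h3 ζ (fun h => hζ h.1), mul_zero, zero_add]
  have htb : TotallyBounded (Metric.closedBall (0 : ℂ) M) :=
    (isCompact_closedBall (0 : ℂ) M).totallyBounded
  obtain ⟨t, ht, hcov⟩ := Metric.totallyBounded_iff.mp htb ε hε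
  set E : Set ℂ := {ζ | ‖g ζ‖ ≤ M} with hEdef
  have hEm : MeasurableSet E := measurableSet_le hg.norm measurable_const
  obtain ⟨g', h1, h2, h3⟩ := key ht.toFinset E hEm (by
    intro ζ hζ
    have h4 : g ζ ∈ ⋃ y ∈ t, Metric.ball y ε := hcov (by
      rw [mem_closedBall_zero_iff]
      exact hζ)
    simp only [mem_iUnion, exists_prop] at h4
    obtain ⟨c, hc, hc2⟩ := h4
    refine ⟨c, ht.mem_toFinset.mpr hc, ?_⟩
    rw [mem_ball_iff_norm] at hc2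
    exact hc2.le)
  refine ⟨g', h1, ?_⟩
  filter_upwards [hM] with ζ hζ
  exact h2 ζ hζ

end Pool.Agent.Hinf
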