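import Pool.Agent.Lib.Hinf.LogPer

/-!
# The log-periodic Blaschke product on the real line
-/

set_option autoImplicit false
set_option linter.unusedSimpArgs false

open Complex Metric Set Filter Topology Real

namespace Pool.Agent.Hinf

theorem norm_AN_ofReal (q : ℝ) (N : ℕ) (x : ℝ) : ‖AN q N x‖ = 1 := by
  rw [AN, norm_prod]
  apply Finset.prod_eq_one
  intro n _
  rw [fn, norm_neg, norm_mul]
  have h1 : ((q ^ n : ℝ) : ℂ) * (x : ℂ) = ((q ^ n * x : ℝ) : ℂ) := by push_cast; rfl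
  have h2 : (((q ^ (n + 1))⁻¹ : ℝ) : ℂ) * (x : ℂ) = (((q ^ (n + 1))⁻¹ * x : ℝ) : ℂ) := by
    push_cast; rfl
  rw [h1, h2, norm_bf_ofReal, norm_bf_ofReal, one_mul]

theorem norm_AA_ofReal {q : ℝ} (hq : 1 < q) {x : ℝ} (hx : x ≠ 0) : ‖AA q x‖ = 1 := by
  have h := (tendsto_AN hq (z := (x : ℂ)) (by simp) (by exact_mod_cast hx)).norm
  have h2 : (fun N => ‖AN q N (x : ℂ)‖) = fun _ => (1 : ℝ) := funext (fun N => norm_AN_ofReal q N x)
  rw [h2] at h
  exact (tendsto_nhds_unique h tendsto_const_nhds)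

/-- the phase of one factor -/
theorem fn_ofReal (q : ℝ) (n : ℕ) (x : ℝ) :
    fn q n x = - Complex.exp ((2 * (Real.arctan (q ^ n * x) + Real.arctan ((q ^ (n + 1))⁻¹ * x)) : ℝ) * I) := by
  have h1 : ((q ^ n : ℝ) : ℂ) * (x : ℂ) = ((q ^ n * x : ℝ) : ℂ) := by push_cast; rfl
  have h2 : (((q ^ (n + 1))⁻¹ : ℝ) : ℂ) * (x : ℂ) = (((q ^ (n + 1))⁻¹ * x : ℝ) : ℂ) := by
    push_cast; rfl
  rw [fn, h1, h2, bf_ofReal, bf_ofReal, neg_mul_neg, ← Complex.exp_add]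
  congr 2
  push_cast
  ring

/-- the increment -/
noncomputable def dl (t y : ℝ) : ℝ := Real.arctan (t * y) - Real.arctan y

/-- the phase sum -/
noncomputable def GN (t : ℝ) (N : ℕ) (x : ℝ) : ℝ :=
  ∑ n ∈ Finset.range N, (dl t ((t ^ 2) ^ n * x) + dl t (((t ^ 2) ^ (n + 1))⁻¹ * x))

theorem conj_fn_mul_fn (t : ℝ) (n : ℕ) (x : ℝ) :
    (starRingEnd ℂ) (fn (t ^ 2) n x) * fn (t ^ 2) n ((t * x : ℝ) : ℂ)
      = Complex.exp ((2 * (dl t ((t ^ 2) ^ n * x) + dl t (((t ^ 2) ^ (n + 1))⁻¹ * x)) : ℝ) * I) := by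
  rw [fn_ofReal, fn_ofReal, map_neg, neg_mul_neg, ← Complex.exp_conj, ← Complex.exp_add]
  congr 1
  rw [map_mul, Complex.conj_ofReal, Complex.conj_I]
  have e1 : (t ^ 2) ^ n * (t * x) = t * ((t ^ 2) ^ n * x) := by ring
  have e2 : ((t ^ 2) ^ (n + 1))⁻¹ * (t * x) = t * (((t ^ 2) ^ (n + 1))⁻¹ * x) := by ring
  rw [e1, e2]
  unfold dl
  push_cast
  ring

theorem conj_AN_mul_AN (t : ℝ) (N : ℕ) (x : ℝ) :
    (starRingEnd ℂ) (AN (t ^ 2) N x) * AN (t ^ 2) N ((t * x : ℝ) : ℂ)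
      = Complex.exp ((2 * GN t N x : ℝ) * I) := by
  rw [AN, AN, map_prod, ← Finset.prod_mul_distrib]
  rw [Finset.prod_congr rfl (fun n _ => conj_fn_mul_fn t n x), ← Complex.exp_sum]
  congr 1
  rw [GN, ← Finset.sum_mul]
  congr 1
  push_cast
  rw [Finset.mul_sum]

theorem dl_nonneg {t y : ℝ} (ht : 1 < t) (hy : 0 < y) : 0 ≤ dl t y := by
  unfold dl
  have : Real.arctan y ≤ Real.arctan (t * y) := Real.arctan_mono (by nlinarith)
  linarith

theorem dl_ratio {t y : ℝ} (ht : 1 < t) (hy : 0 < y) :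
    |dl t (t * y) - dl t y| ≤ (t - 1) * dl t y := by
  have hyt : y < t * y := by nlinarith
  have ht0 : 0 < t := by linarith
  obtain ⟨c, hc, hceq⟩ := exists_ratio_hasDerivAt_eq_ratio_slope
    (fun s => Real.arctan (t * s)) (fun s => 1 / (1 + (t * s) ^ 2) * t) hyt
    (by fun_prop)
    (fun s _ => by
      have h1 : HasDerivAt (fun s : ℝ => t * s) t s := by
        simpa using (hasDerivAt_id s).const_mul t
      exact h1.arctan)
    Real.arctan (fun s => 1 / (1 + s ^ 2)) (by fun_prop)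
    (fun s _ => Real.hasDerivAt_arctan s)
  have hc0 : 0 < c := lt_trans hy hc.1
  have h1 : Real.arctan (t * (t * y)) - Real.arctan (t * y) = dl t (t * y) := rfl
  have h2 : Real.arctan (t * y) - Real.arctan y = dl t y := rfl
  rw [h1, h2] at hceq
  have hd : 0 ≤ dl t y := dl_nonneg ht hy
  have hA : (0 : ℝ) < 1 + (t * c) ^ 2 := by positivity
  have hB : (0 : ℝ) < 1 + c ^ 2 := by positivity
  have h3 : dl t (t * y) = dl t y * (t * (1 + c ^ 2) / (1 + (t * c) ^ 2)) := by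
    field_simp at hceq ⊢
    linarith
  set r := t * (1 + c ^ 2) / (1 + (t * c) ^ 2) with hr
  have hr1 : r ≤ t := by
    rw [hr, div_le_iff₀ hA]
    have : c ^ 2 ≤ (t * c) ^ 2 := by
      rw [mul_pow]
      have h1t : (1 : ℝ) ≤ t ^ 2 := by nlinarith
      nlinarith [mul_le_mul_of_nonneg_right h1t (sq_nonneg c)]
    nlinarith
  have hr2 : 1 / t ≤ r := by
    rw [hr, div_le_div_iff₀ ht0 hA]
    have : (1 : ℝ) ≤ t ^ 2 := by nlinarith
    nlinarith [sq_nonneg c]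
  have hr3 : 2 - t ≤ r := by
    refine le_trans ?_ hr2
    rw [le_div_iff₀ ht0]
    nlinarith [sq_nonneg (t - 1)]
  rw [h3, show dl t y * r - dl t y = dl t y * (r - 1) by ring, abs_mul, abs_of_nonneg hd, mul_comm]
  refine mul_le_mul_of_nonneg_right ?_ hd
  rw [abs_le]
  constructor <;> linarith

theorem GN_add (t : ℝ) (N : ℕ) (x : ℝ) (ht : t ≠ 0) :
    GN t N x + GN t N (t * x) = Real.arctan ((t ^ 2) ^ N * x) - Real.arctan (((t ^ 2) ^ N)⁻¹ * x) := by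
  induction N with
  | zero => simp [GN]
  | succ N ih =>
    have h1 : GN t (N + 1) x = GN t N x + (dl t ((t ^ 2) ^ N * x) + dl t (((t ^ 2) ^ (N + 1))⁻¹ * x)) := by
      rw [GN, Finset.sum_range_succ, GN]
    have h2 : GN t (N + 1) (t * x) = GN t N (t * x) + (dl t ((t ^ 2) ^ N * (t * x))
        + dl t (((t ^ 2) ^ (N + 1))⁻¹ * (t * x))) := by
      rw [GN, Finset.sum_range_succ, GN]
    rw [h1, h2]
    have e1 : (t ^ 2) ^ N * (t * x) = t * ((t ^ 2) ^ N * x) := by ring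
    have e2 : ((t ^ 2) ^ (N + 1))⁻¹ * (t * x) = t * (((t ^ 2) ^ (N + 1))⁻¹ * x) := by ring
    have e3 : t * (t * ((t ^ 2) ^ N * x)) = (t ^ 2) ^ (N + 1) * x := by ring
    have e4 : t * (t * (((t ^ 2) ^ (N + 1))⁻¹ * x)) = ((t ^ 2) ^ N)⁻¹ * x := by
      rw [pow_succ (t ^ 2) N]
      field_simp
    rw [e1, e2]
    unfold dl
    rw [e3, e4]
    linarith

theorem GN_nonneg {t : ℝ} (ht : 1 < t) (N : ℕ) {x : ℝ} (hx : 0 < x) : 0 ≤ GN t N x := by
  unfold GN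
  refine Finset.sum_nonneg (fun n _ => add_nonneg ?_ ?_)
  · exact dl_nonneg ht (by positivity)
  · exact dl_nonneg ht (by positivity)

theorem GN_diff {t : ℝ} (ht : 1 < t) (N : ℕ) {x : ℝ} (hx : 0 < x) :
    |GN t N (t * x) - GN t N x| ≤ (t - 1) * GN t N x := by
  unfold GN
  rw [← Finset.sum_sub_distrib, Finset.mul_sum]
  refine (Finset.abs_sum_le_sum_abs _ _).trans (Finset.sum_le_sum (fun n _ => ?_))
  have e1 : (t ^ 2) ^ n * (t * x) = t * ((t ^ 2) ^ n * x) := by ring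
  have e2 : ((t ^ 2) ^ (n + 1))⁻¹ * (t * x) = t * (((t ^ 2) ^ (n + 1))⁻¹ * x) := by ring
  rw [e1, e2]
  have h1 := dl_ratio ht (y := (t ^ 2) ^ n * x) (by positivity)
  have h2 := dl_ratio ht (y := ((t ^ 2) ^ (n + 1))⁻¹ * x) (by positivity)
  calc _ = |(dl t (t * ((t ^ 2) ^ n * x)) - dl t ((t ^ 2) ^ n * x))
        + (dl t (t * (((t ^ 2) ^ (n + 1))⁻¹ * x)) - dl t (((t ^ 2) ^ (n + 1))⁻¹ * x))| := by
        congr 1; ring
    _ ≤ _ := abs_add_le _ _
    _ ≤ _ := add_le_add h1 h2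
    _ = _ := by ring

theorem norm_exp_sub_exp_le (a b : ℝ) :
    ‖Complex.exp ((a : ℝ) * I) - Complex.exp ((b : ℝ) * I)‖ ≤ |a - b| := by
  have h : Complex.exp ((a : ℝ) * I) - Complex.exp ((b : ℝ) * I)
      = Complex.exp ((b : ℝ) * I) * (Complex.exp (I * ((a - b : ℝ))) - 1) := by
    rw [mul_sub, ← Complex.exp_add, mul_one]
    congr 2
    push_cast
    ring
  rw [h, norm_mul, Complex.norm_exp_ofReal_mul_I, one_mul]
  have := Real.norm_exp_I_mul_ofReal_sub_one_le (x := a - b)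
  simpa using this

theorem tendsto_arctan_top {q : ℝ} (hq : 1 < q) {x : ℝ} (hx : 0 < x) :
    Tendsto (fun N : ℕ => Real.arctan (q ^ N * x) - Real.arctan ((q ^ N)⁻¹ * x)) atTop
      (𝓝 (π / 2)) := by
  have h1 : Tendsto (fun N : ℕ => q ^ N) atTop atTop := tendsto_pow_atTop_atTop_of_one_lt hq
  have h2 : Tendsto (fun N : ℕ => q ^ N * x) atTop atTop := h1.atTop_mul_const hx
  have h3 : Tendsto (fun N : ℕ => Real.arctan (q ^ N * x)) atTop (𝓝 (π / 2)) :=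
    (tendsto_nhds_of_tendsto_nhdsWithin Real.tendsto_arctan_atTop).comp h2
  have h4 : Tendsto (fun N : ℕ => (q ^ N)⁻¹ * x) atTop (𝓝 0) := by
    have := (tendsto_inv_atTop_zero.comp h1).mul_const x
    simpa using this
  have h5 : Tendsto (fun N : ℕ => Real.arctan ((q ^ N)⁻¹ * x)) atTop (𝓝 0) := by
    have := (Real.continuous_arctan.tendsto 0).comp h4
    rw [Real.arctan_zero] at this
    exact this
  simpa using h3.sub h5

theorem AA_ratio_pos {t : ℝ} (ht : 1 < t) {x : ℝ} (hx : 0 < x) :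
    ‖(starRingEnd ℂ) (AA (t ^ 2) x) * AA (t ^ 2) ((t * x : ℝ) : ℂ) - I‖ ≤ (t - 1) * (π / 2) := by
  have hq : 1 < t ^ 2 := by nlinarith
  have ht0 : 0 < t := by linarith
  have h1 := tendsto_AN hq (z := (x : ℂ)) (by simp) (by exact_mod_cast hx.ne')
  have h2 := tendsto_AN hq (z := ((t * x : ℝ) : ℂ)) (by rw [Complex.ofReal_im])
    (by exact_mod_cast (mul_pos ht0 hx).ne')
  have h3 : Tendsto (fun N => (starRingEnd ℂ) (AN (t ^ 2) N x)
      * AN (t ^ 2) N ((t * x : ℝ) : ℂ)) atTop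
      (𝓝 ((starRingEnd ℂ) (AA (t ^ 2) x) * AA (t ^ 2) ((t * x : ℝ) : ℂ))) :=
    ((Complex.continuous_conj.tendsto _).comp h1).mul h2
  have h4 := tendsto_arctan_top hq hx
  have h5 : Tendsto (fun N : ℕ => Complex.exp (((Real.arctan ((t ^ 2) ^ N * x)
      - Real.arctan (((t ^ 2) ^ N)⁻¹ * x) : ℝ) : ℂ) * I)) atTop
      (𝓝 (Complex.exp (((π / 2 : ℝ) : ℂ) * I))) := by
    have hc : Continuous (fun s : ℝ => Complex.exp ((s : ℂ) * I)) := by fun_prop
    exact (hc.tendsto _).comp h4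
  have h6 : Complex.exp (((π / 2 : ℝ) : ℂ) * I) = I := by
    push_cast
    exact Complex.exp_pi_div_two_mul_I
  rw [h6] at h5
  refine le_of_tendsto (h3.sub h5).norm (Eventually.of_forall (fun N => ?_))
  rw [conj_AN_mul_AN, ← GN_add t N x ht0.ne']
  refine (norm_exp_sub_exp_le _ _).trans ?_
  have h7 := GN_diff ht N hx
  have h8 := GN_nonneg ht N hx
  have h9 := GN_nonneg ht N (mul_pos ht0 hx)
  have h10 := GN_add t N x ht0.ne'
  have h11 : Real.arctan ((t ^ 2) ^ N * x) ≤ π / 2 := (Real.arctan_lt_pi_div_two _).le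
  have h12 : 0 ≤ Real.arctan (((t ^ 2) ^ N)⁻¹ * x) := Real.arctan_nonneg.mpr (by positivity)
  have h13 : GN t N x ≤ π / 2 := by linarith
  calc |2 * GN t N x - (GN t N x + GN t N (t * x))| = |GN t N (t * x) - GN t N x| := by
        rw [← abs_neg]; congr 1; ring
    _ ≤ (t - 1) * GN t N x := h7
    _ ≤ (t - 1) * (π / 2) := mul_le_mul_of_nonneg_left h13 (by linarith)

theorem AN_neg (q : ℝ) (N : ℕ) (x : ℝ) :
    AN q N ((-x : ℝ) : ℂ) = (starRingEnd ℂ) (AN q N x) := by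
  rw [AN, AN, map_prod]
  refine Finset.prod_congr rfl (fun n _ => ?_)
  rw [fn_ofReal, fn_ofReal, map_neg, ← Complex.exp_conj, map_mul, Complex.conj_ofReal,
    Complex.conj_I, mul_neg, mul_neg, Real.arctan_neg, Real.arctan_neg]
  congr 2
  push_cast
  ring

theorem AA_neg {q : ℝ} (hq : 1 < q) {x : ℝ} (hx : x ≠ 0) :
    AA q ((-x : ℝ) : ℂ) = (starRingEnd ℂ) (AA q x) := by
  have h1 := tendsto_AN hq (z := ((-x : ℝ) : ℂ)) (by rw [Complex.ofReal_im])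
    (by exact_mod_cast (neg_ne_zero.mpr hx))
  have h2 := tendsto_AN hq (z := (x : ℂ)) (by simp) (by exact_mod_cast hx)
  have h3 := (Complex.continuous_conj.tendsto _).comp h2
  have h4 : (fun N => AN q N ((-x : ℝ) : ℂ)) = (starRingEnd ℂ) ∘ (fun N => AN q N (x : ℂ)) :=
    funext (fun N => AN_neg q N x)
  rw [h4] at h1
  exact tendsto_nhds_unique h1 h3

theorem AA_ratio_neg {t : ℝ} (ht : 1 < t) {x : ℝ} (hx : x < 0) :
    ‖(starRingEnd ℂ) (AA (t ^ 2) x) * AA (t ^ 2) ((t * x : ℝ) : ℂ) + I‖ ≤ (t - 1) * (π / 2) := by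
  have hq : 1 < t ^ 2 := by nlinarith
  have ht0 : 0 < t := by linarith
  have hy : 0 < -x := by linarith
  have h := AA_ratio_pos ht hy
  have e1 : AA (t ^ 2) ((-x : ℝ) : ℂ) = (starRingEnd ℂ) (AA (t ^ 2) x) := AA_neg hq hx.ne
  have e2 : AA (t ^ 2) ((t * -x : ℝ) : ℂ) = (starRingEnd ℂ) (AA (t ^ 2) ((t * x : ℝ) : ℂ)) := by
    rw [mul_neg]
    exact AA_neg hq (mul_neg_of_pos_of_neg ht0 hx).ne
  rw [e1, e2] at h
  rw [← Complex.norm_conj]
  have e3 : (starRingEnd ℂ) ((starRingEnd ℂ) (AA (t ^ 2) x) * AA (t ^ 2) ((t * x : ℝ) : ℂ) + I)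
      = (starRingEnd ℂ) ((starRingEnd ℂ) (AA (t ^ 2) x))
        * (starRingEnd ℂ) (AA (t ^ 2) ((t * x : ℝ) : ℂ)) - I := by
    rw [map_add, map_mul, Complex.conj_I]
    ring
  rw [e3]
  exact h

end Pool.Agent.Hinf
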