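import Pool.Agent.Lib.Hinf.Outer
import Pool.Agent.Lib.Hinf.LogPer2
import Pool.Agent.Lib.Hinf.KSpace

/-!
# Approximation of bounded measurable functions by quotients (Douglas-Rudin)
-/

set_option autoImplicit false
set_option linter.unusedSimpArgs false

open Complex MeasureTheory Metric Set Filter Topology Real

namespace Pool.Agent.Hinf

section comp

variable {E : Set ℂ} (hm : MeasurableSet E) (h0 : sg E ≠ 0) (h1 : sg Eᶜ ≠ 0) {q : ℝ} (hq : 1 < q)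
  {c : ℝ} (hc : 0 < c)

include hm h0 h1 hc in
theorem mapsTo_cZE : ∀ w ∈ Metric.ball (0:ℂ) 1, 0 < ((c : ℂ) * ZE E w).im := by
  intro w hw
  rw [Complex.im_ofReal_mul]
  exact mul_pos hc (ZE_im_pos hm h0 h1 hw)

/-- The composition of the log-periodic product with a multiple of `ZE E`. -/
noncomputable def compA : HInf :=
  mk (fun w => AA q ((c : ℂ) * ZE E w))
    ((differentiableOn_AA hq).comp ((differentiableOn_ZE hm).const_mul (c : ℂ))
      (fun w hw => mapsTo_cZE hm h0 h1 hc w hw)) 1 (by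
    intro w hw
    have h := mapsTo_cZE hm h0 h1 hc w hw
    refine norm_AA_le hq h.le ?_
    intro h2
    rw [h2] at h
    simp at h)

theorem ev_compA {w : ℂ} (hw : w ∈ Metric.ball (0:ℂ) 1) :
    ev (compA hm h0 h1 hq hc) w = AA q ((c : ℂ) * ZE E w) :=
  ev_mk _ _ _ _ hw

theorem bv_compA {ζ : ℂ} (hζ : ‖ζ‖ = 1) {x : ℝ} (hx : x ≠ 0)
    (h : Tendsto (fun r : ℝ => ZE E (r * ζ)) (𝓝[<] 1) (𝓝 (x : ℂ))) :
    bv (compA hm h0 h1 hq hc) ζ = AA q ((c * x : ℝ) : ℂ) := by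
  apply bv_eq_of_tendsto
  have hcx : ((c * x : ℝ) : ℂ) ≠ 0 := by exact_mod_cast mul_ne_zero hc.ne' hx
  have hcont := continuousWithinAt_AA hq (z := ((c * x : ℝ) : ℂ)) (by rw [Complex.ofReal_im]) hcx
  have h2 : Tendsto (fun r : ℝ => (c : ℂ) * ZE E (r * ζ)) (𝓝[<] 1)
      (𝓝[{z : ℂ | 0 ≤ z.im}] ((c * x : ℝ) : ℂ)) := by
    rw [tendsto_nhdsWithin_iff]
    constructor
    · have := h.const_mul (c : ℂ)
      rw [← Complex.ofReal_mul] at this
      exact this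
    · filter_upwards [eventually_mem_ball hζ] with r hr
      exact (mapsTo_cZE hm h0 h1 hc _ hr).le
  refine (hcont.tendsto.comp h2).congr' ?_
  filter_upwards [eventually_mem_ball hζ] with r hr
  rw [ev_compA hm h0 h1 hq hc hr]
  rfl

theorem inner_compA : Inner (compA hm h0 h1 hq hc) := by
  filter_upwards [tendsto_ZE hm, ae_norm_eq_one] with ζ hζ hζ1
  obtain ⟨x, hx, hx1, -, -⟩ := hζ
  rw [bv_compA hm h0 h1 hq hc hζ1 hx hx1]
  exact norm_AA_ofReal hq (mul_ne_zero hc.ne' hx)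

end comp

theorem qa_indicator_aux {E : Set ℂ} (hm : MeasurableSet E) (h0 : sg E ≠ 0) (h1 : sg Eᶜ ≠ 0) :
    QA (E.indicator (fun _ => 1)) := by
  intro ε hε
  set t : ℝ := 1 + ε with ht
  have ht1 : 1 < t := by linarith
  have hq : 1 < t ^ 2 := by nlinarith
  set A₁ := compA hm h0 h1 hq one_pos with hA₁
  set A₂ := compA hm h0 h1 hq (c := t) (by linarith) with hA₂
  have i1 : Inner A₁ := inner_compA hm h0 h1 hq one_pos
  have i2 : Inner A₂ := inner_compA hm h0 h1 hq (by linarith)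
  refine ⟨A₁, (1 / 2 : ℂ) • (A₁ + I • A₂), i1, (i1.pc.add (i2.pc.smul I)).smul _, ?_⟩
  filter_upwards [tendsto_ZE hm, ae_norm_eq_one, i1, i2, bv_smul (1 / 2 : ℂ) (A₁ + I • A₂),
    bv_add A₁ (I • A₂), bv_smul I A₂] with ζ hζ hζ1 b1 b2 b3 b4 b5
  obtain ⟨x, hx, hx1, hxE, hxE'⟩ := hζ
  have c1 : bv A₁ ζ = AA (t ^ 2) (x : ℂ) := by
    rw [hA₁, bv_compA hm h0 h1 hq one_pos hζ1 hx hx1, one_mul]
  have c2 : bv A₂ ζ = AA (t ^ 2) ((t * x : ℝ) : ℂ) := by
    rw [hA₂, bv_compA hm h0 h1 hq (by linarith) hζ1 hx hx1]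
  rw [b3, b4, b5]
  have hA1 : bv A₁ ζ * (starRingEnd ℂ) (bv A₁ ζ) = 1 := by
    rw [Complex.mul_conj, Complex.normSq_eq_norm_sq, b1]
    simp
  have hpi : (t - 1) * (π / 2) ≤ 2 * ε := by
    have : π ≤ 4 := Real.pi_le_four
    have h3 : t - 1 = ε := by linarith
    rw [h3]
    nlinarith
  by_cases hE : ζ ∈ E
  · rw [Set.indicator_of_mem hE]
    have hxn := AA_ratio_neg ht1 (hxE hE)
    rw [← c1, ← c2] at hxn
    have e : bv A₁ ζ * 1 - 1 / 2 * (bv A₁ ζ + I * bv A₂ ζ)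
        = -(1 / 2) * bv A₁ ζ * I * ((starRingEnd ℂ) (bv A₁ ζ) * bv A₂ ζ + I) := by
      linear_combination (I * bv A₂ ζ / 2) * hA1 + (bv A₁ ζ / 2) * Complex.I_sq
    rw [e, norm_mul, norm_mul, norm_mul, b1, Complex.norm_I, norm_neg]
    have : ‖(1 / 2 : ℂ)‖ = 1 / 2 := by simp
    rw [this]
    linarith
  · rw [Set.indicator_of_notMem hE]
    have hxn := AA_ratio_pos ht1 (hxE' hE)
    rw [← c1, ← c2] at hxn
    have e : bv A₁ ζ * 0 - 1 / 2 * (bv A₁ ζ + I * bv A₂ ζ)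
        = -(1 / 2) * bv A₁ ζ * I * ((starRingEnd ℂ) (bv A₁ ζ) * bv A₂ ζ - I) := by
      linear_combination (I * bv A₂ ζ / 2) * hA1 - (bv A₁ ζ / 2) * Complex.I_sq
    rw [e, norm_mul, norm_mul, norm_mul, b1, Complex.norm_I, norm_neg]
    have : ‖(1 / 2 : ℂ)‖ = 1 / 2 := by simp
    rw [this]
    linarith

theorem qa_indicator {E : Set ℂ} (hm : MeasurableSet E) : QA (E.indicator (fun _ => 1)) := by
  by_cases h0 : sg E = 0
  · refine qa_zero.congr ?_
    have : ∀ᵐ ζ ∂sg, ζ ∉ E := measure_eq_zero_iff_ae_notMem.mp h0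
    filter_upwards [this] with ζ hζ
    rw [Set.indicator_of_notMem hζ]
  by_cases h1 : sg Eᶜ = 0
  · refine qa_one.congr ?_
    have : ∀ᵐ ζ ∂sg, ζ ∉ Eᶜ := measure_eq_zero_iff_ae_notMem.mp h1
    filter_upwards [this] with ζ hζ
    rw [Set.indicator_of_mem (not_not.mp hζ)]
  · exact qa_indicator_aux hm h0 h1

/-- **Douglas-Rudin**: bounded measurable functions on the circle are uniform limits of quotients. -/
theorem douglas_rudin {g : ℂ → ℂ} (hg : Measurable g) {M : ℝ} (hM : ∀ᵐ ζ ∂sg, ‖g ζ‖ ≤ M) : QA g :=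
  qa_of_indicator (fun _ hE => qa_indicator hE) hg hM

end Pool.Agent.Hinf
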