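import Pool.Agent.Lib.Hinf.DR
import Pool.Agent.Lib.Hinf.Coset

/-!
# Density of pseudocontinuable functions and Moebius transforms of inner functions
-/

set_option autoImplicit false
set_option linter.unusedSimpArgs false

open Complex MeasureTheory Metric Set Filter Topology Real

namespace Pool.Agent.Hinf

theorem PC.of_inner_mul {B k : HInf} (hB : Inner B) (h : PC (B * k)) : PC k := by
  obtain ⟨θ, h', hθ, H⟩ := h
  refine ⟨θ, B * h', hθ, ?_⟩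
  filter_upwards [hB, H, bv_mul B k, bv_mul B h'] with ζ h1 h2 h3 h4
  rw [h4, h2, h3, map_mul]
  have h5 : bv B ζ * (starRingEnd ℂ) (bv B ζ) = 1 := by
    rw [Complex.mul_conj, Complex.normSq_eq_norm_sq, h1]
    simp
  linear_combination (bv θ ζ * (starRingEnd ℂ) (bv k ζ)) * h5

theorem pc_dense (f : HInf) {ε : ℝ} (hε : 0 < ε) : ∃ k : HInf, PC k ∧ ‖f - k‖ ≤ ε := by
  set δ : ℝ := ε / 3 with hδ
  have hδ0 : 0 < δ := by positivity
  obtain ⟨B, f₁, hB, hf₁, H⟩ := douglas_rudin (measurable_bv f) (norm_bv_le f) δ hδ0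
  have h1 : ‖f₁ - B * f‖ ≤ δ := by
    apply norm_le_of_bv
    filter_upwards [H, bv_sub f₁ (B * f), bv_mul B f] with ζ a1 a2 a3
    rw [a2, a3, norm_sub_rev]
    exact a1
  have hcn : ‖(((2 * δ)⁻¹ : ℝ) : ℂ)‖ = (2 * δ)⁻¹ := by
    rw [Complex.norm_real, Real.norm_of_nonneg (by positivity)]
  have h2 : ‖(((2 * δ)⁻¹ : ℝ) : ℂ) • (f₁ - B * f)‖ ≤ 1 / 2 := by
    rw [norm_smul, hcn]
    calc (2 * δ)⁻¹ * ‖f₁ - B * f‖ ≤ (2 * δ)⁻¹ * δ := by gcongr
      _ = 1 / 2 := by field_simp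
  obtain ⟨ψ, g, hψ, hg⟩ := exists_inner_coset hB h2
  have hc : (((2 * δ) : ℝ) : ℂ) * (((2 * δ)⁻¹ : ℝ) : ℂ) = 1 := by
    rw [← Complex.ofReal_mul, mul_inv_cancel₀ (by positivity), Complex.ofReal_one]
  have h3 : B * (f - (((2 * δ) : ℝ) : ℂ) • g) = f₁ - (((2 * δ) : ℝ) : ℂ) • ψ := by
    rw [hg, smul_add, smul_smul, hc, one_smul, mul_sub, mul_smul_comm]
    abel
  refine ⟨f - (((2 * δ) : ℝ) : ℂ) • g, PC.of_inner_mul hB ?_, ?_⟩
  · rw [h3, sub_eq_add_neg, ← neg_smul]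
    exact hf₁.add (hψ.pc.smul _)
  · rw [sub_sub_cancel, norm_smul, Complex.norm_real, Real.norm_of_nonneg (by positivity)]
    have h4 : ‖g‖ ≤ 3 / 2 := by
      rw [← hB.norm_mul_eq g]
      have h5 : B * g = ψ - (((2 * δ)⁻¹ : ℝ) : ℂ) • (f₁ - B * f) := by
        rw [hg]; abel
      rw [h5]
      calc _ ≤ ‖ψ‖ + ‖(((2 * δ)⁻¹ : ℝ) : ℂ) • (f₁ - B * f)‖ := norm_sub_le _ _
        _ ≤ 1 + 1 / 2 := by
            rw [hψ.norm_eq]
            exact add_le_add le_rfl h2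
        _ = 3 / 2 := by norm_num
    calc 2 * δ * ‖g‖ ≤ 2 * δ * (3 / 2) := by gcongr
      _ = ε := by rw [hδ]; ring

/-- The inverse of `1 + a`. -/
noncomputable def inv1 (a : HInf) : HInf := Ring.inverse (1 + a)

theorem isUnit_one_add {a : HInf} (ha : ‖a‖ < 1) : IsUnit (1 + a) := by
  have h : ‖-a‖ < 1 := by rwa [norm_neg]
  have h2 := (Units.oneSub (-a) h).isUnit
  rw [Units.val_oneSub, sub_neg_eq_add] at h2
  exact h2

theorem mul_inv1 {a : HInf} (ha : ‖a‖ < 1) : (1 + a) * inv1 a = 1 :=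
  Ring.mul_inverse_cancel _ (isUnit_one_add ha)

theorem inv1_mul {a : HInf} (ha : ‖a‖ < 1) : inv1 a * (1 + a) = 1 :=
  Ring.inverse_mul_cancel _ (isUnit_one_add ha)

theorem inv1_eq {a : HInf} (ha : ‖a‖ < 1) : inv1 a = 1 - a * inv1 a := by
  have h := mul_inv1 ha
  rw [add_mul, one_mul] at h
  rw [← h]
  abel

theorem norm_inv1_le {a : HInf} (ha : ‖a‖ < 1) : ‖inv1 a‖ ≤ 1 / (1 - ‖a‖) := by
  have h : ‖inv1 a‖ ≤ 1 + ‖a‖ * ‖inv1 a‖ := by
    calc ‖inv1 a‖ = ‖1 - a * inv1 a‖ := congrArg norm (inv1_eq ha)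
      _ ≤ ‖(1 : HInf)‖ + ‖a * inv1 a‖ := norm_sub_le _ _
      _ ≤ 1 + ‖a‖ * ‖inv1 a‖ := by
          rw [norm_one]
          exact add_le_add le_rfl (norm_mul_le _ _)
  rw [le_div_iff₀ (by linarith)]
  linarith

theorem norm_inv1_sub_one_le {a : HInf} (ha : ‖a‖ < 1) : ‖inv1 a - 1‖ ≤ ‖a‖ / (1 - ‖a‖) := by
  have h : inv1 a - 1 = -(a * inv1 a) := by
    nth_rw 1 [inv1_eq ha]
    abel
  rw [h, norm_neg]
  calc ‖a * inv1 a‖ ≤ ‖a‖ * ‖inv1 a‖ := norm_mul_le _ _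
    _ ≤ ‖a‖ * (1 / (1 - ‖a‖)) := mul_le_mul_of_nonneg_left (norm_inv1_le ha) (norm_nonneg _)
    _ = _ := by ring

theorem bv_mul_inv1 {a : HInf} (ha : ‖a‖ < 1) : ∀ᵐ ζ ∂sg, (1 + bv a ζ) * bv (inv1 a) ζ = 1 := by
  have h := mul_inv1 ha
  filter_upwards [bv_mul (1 + a) (inv1 a), bv_add 1 a, bv_one] with ζ h1 h2 h3
  rw [h, h3, h2, h3] at h1
  exact h1.symm

theorem differentiableAt_inv1 {a : HInf} (ha : ‖a‖ < 1) : DifferentiableAt ℂ inv1 a := by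
  have h := differentiableAt_inverse (𝕜 := ℂ) (isUnit_one_add ha)
  have h2 : DifferentiableAt ℂ (fun b : HInf => 1 + b) a := (differentiableAt_id).const_add 1
  exact DifferentiableAt.comp (f := fun b : HInf => 1 + b) a h h2

/-- The Moebius transform of an inner function. -/
noncomputable def mob (θ h h' : HInf) : HInf := (θ + h) * inv1 h'

theorem inner_mob {θ h h' : HInf} (hθ : Inner θ) (H : IsK θ h h') (hh : ‖h'‖ < 1) :
    Inner (mob θ h h') := by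
  filter_upwards [hθ, H, H.symm hθ, bv_mul (θ + h) (inv1 h'), bv_add θ h, bv_mul_inv1 hh]
    with ζ a1 a2 a3 a4 a5 a6
  rw [mob, a4, a5, norm_mul]
  have b1 : bv θ ζ + bv h ζ = bv θ ζ * (starRingEnd ℂ) (1 + bv h' ζ) := by
    rw [a3, map_add, map_one]
    ring
  rw [b1, norm_mul, a1, one_mul, Complex.norm_conj, ← norm_mul, a6, norm_one]

end Pool.Agent.Hinf
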