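import Pool.Agent.Lib.Hinf.Circ

/-!
# Fatou's theorem for bounded analytic functions on the disc
-/

set_option autoImplicit false
set_option linter.unusedSimpArgs false

open Complex MeasureTheory Metric Set Filter Topology Real

namespace Pool.Agent.Hinf

theorem ae_mem_sphere : ∀ᵐ ζ ∂sg, ζ ∈ Metric.sphere (0:ℂ) 1 := by
  filter_upwards [ae_norm_eq_one] with ζ hζ
  simpa using hζ

theorem restrict_sg : sg.restrict (Metric.sphere (0:ℂ) 1) = sg :=
  Measure.restrict_eq_self_of_ae_mem ae_mem_sphere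

theorem aesm_of_continuousOn {E : Type*} [NormedAddCommGroup E] {f : ℂ → E}
    (hf : ContinuousOn f (Metric.sphere (0:ℂ) 1)) : AEStronglyMeasurable f sg := by
  rw [← restrict_sg]
  exact hf.aestronglyMeasurable_of_isCompact (isCompact_sphere _ _)
    Metric.isClosed_sphere.measurableSet

theorem integrable_of_continuousOn {E : Type*} [NormedAddCommGroup E] {f : ℂ → E}
    (hf : ContinuousOn f (Metric.sphere (0:ℂ) 1)) : Integrable f sg := by
  rw [← restrict_sg]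
  exact hf.integrableOn_compact (isCompact_sphere _ _)

theorem integral_sg' {E : Type*} [NormedAddCommGroup E] [NormedSpace ℂ E]
    {f : ℂ → E} (hf : ContinuousOn f (Metric.sphere (0:ℂ) 1)) :
    ∫ ζ, f ζ ∂sg = circleAverage f 0 1 := integral_sg f (aesm_of_continuousOn hf)

theorem sub_ne_zero_of_ball {w ζ : ℂ} (hw : w ∈ Metric.ball (0:ℂ) 1)
    (hζ : ζ ∈ Metric.sphere (0:ℂ) 1) : ζ - w ≠ 0 := by
  intro h
  rw [sub_eq_zero] at h
  rw [← h] at hw
  simp at hw hζ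
  linarith

/-- Cauchy formula in terms of `sg`. -/
theorem cauchy_sg {f : ℂ → ℂ} (hf : DiffContOnCl ℂ f (Metric.ball (0:ℂ) 1)) {w : ℂ}
    (hw : w ∈ Metric.ball (0:ℂ) 1) : ∫ ζ, ζ / (ζ - w) * f ζ ∂sg = f w := by
  have hfc : ContinuousOn f (Metric.sphere (0:ℂ) 1) := by
    have := hf.continuousOn
    rw [closure_ball _ one_ne_zero] at this
    exact this.mono sphere_subset_closedBall
  rw [integral_sg']
  · have h := DiffContOnCl.circleAverage_smul_div (R := 1) (c := 0) (w := w) (f := f)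
      (by simpa using hf) (by simpa using hw)
    simpa using h
  · apply ContinuousOn.mul _ hfc
    apply ContinuousOn.div continuousOn_id (by fun_prop)
    intro ζ hζ
    exact sub_ne_zero_of_ball hw hζ

theorem mean_sg {f : ℂ → ℂ} (hf : DiffContOnCl ℂ f (Metric.ball (0:ℂ) 1)) :
    ∫ ζ, f ζ ∂sg = f 0 := by
  have hfc : ContinuousOn f (Metric.sphere (0:ℂ) 1) := by
    have := hf.continuousOn
    rw [closure_ball _ one_ne_zero] at this
    exact this.mono sphere_subset_closedBall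
  rw [integral_sg' hfc]
  exact DiffContOnCl.circleAverage (R := 1) (c := 0) (f := f) (by simpa using hf)

theorem poisson_sg {f : ℂ → ℂ} (hf : DiffContOnCl ℂ f (Metric.ball (0:ℂ) 1)) {w : ℂ}
    (hw : w ∈ Metric.ball (0:ℂ) 1) : ∫ ζ, (poissonKernel 0 w ζ : ℂ) * f ζ ∂sg = f w := by
  have hfc : ContinuousOn f (Metric.sphere (0:ℂ) 1) := by
    have := hf.continuousOn
    rw [closure_ball _ one_ne_zero] at this
    exact this.mono sphere_subset_closedBall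
  rw [integral_sg']
  · have h := hf.circleAverage_poissonKernel_smul hw
    exact h
  · apply ContinuousOn.mul _ hfc
    have : ContinuousOn (poissonKernel 0 w) (Metric.sphere (0:ℂ) 1) := by
      have h2 : poissonKernel 0 w = fun z => (‖z - 0‖ ^ 2 - ‖w - 0‖ ^ 2) / ‖(z - 0) - (w - 0)‖ ^ 2 := by
        ext z; rw [poissonKernel_def]
      rw [h2]
      apply ContinuousOn.div (by fun_prop) (by fun_prop)
      intro ζ hζ
      have := sub_ne_zero_of_ball hw hζ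
      simpa using this
    exact Complex.continuous_ofReal.comp_continuousOn this

/-- Derivative formula. -/
theorem deriv_sg {f : ℂ → ℂ} (hf : DiffContOnCl ℂ f (Metric.ball (0:ℂ) 1)) {w : ℂ}
    (hw : w ∈ Metric.ball (0:ℂ) 1) : ∫ ζ, ζ / (ζ - w) ^ 2 * f ζ ∂sg = deriv f w := by
  have hfc : ContinuousOn f (Metric.sphere (0:ℂ) 1) := by
    have := hf.continuousOn
    rw [closure_ball _ one_ne_zero] at this
    exact this.mono sphere_subset_closedBall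
  have hci : CircleIntegrable f 0 1 := hfc.circleIntegrable zero_le_one
  have h1 := hasDerivAt_circleAverage_herglotzRieszKernel_smul hci hw
  -- the Herglotz integral of `f` is `2 f w - f 0`
  have h2 : ∀ w ∈ Metric.ball (0:ℂ) 1,
      circleAverage (fun ζ ↦ herglotzRieszKernel 0 w ζ • f ζ) 0 1 = 2 * f w - f 0 := by
    intro w hw
    have hc1 : ContinuousOn (fun ζ => ζ / (ζ - w) * f ζ) (Metric.sphere (0:ℂ) 1) := by
      apply ContinuousOn.mul _ hfc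
      apply ContinuousOn.div continuousOn_id (by fun_prop)
      intro ζ hζ
      exact sub_ne_zero_of_ball hw hζ
    have h3 : circleAverage (fun ζ ↦ herglotzRieszKernel 0 w ζ • f ζ) 0 1 =
        circleAverage (fun ζ ↦ 2 * (ζ / (ζ - w) * f ζ) - f ζ) 0 1 := by
      apply circleAverage_congr_sphere
      intro ζ hζ
      have hne := sub_ne_zero_of_ball hw (by simpa using hζ)
      simp only [herglotzRieszKernel_def, sub_zero, smul_eq_mul]
      field_simp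
      ring
    rw [h3, ← integral_sg' (by fun_prop), integral_sub, integral_const_mul, cauchy_sg hf hw,
      mean_sg hf]
    · exact (integrable_of_continuousOn hc1).const_mul _
    · exact integrable_of_continuousOn hfc
  have h4 : HasDerivAt (fun w => 2 * f w - f 0) (2 * deriv f w) w := by
    have := (hf.differentiableAt isOpen_ball hw).hasDerivAt
    exact (this.const_mul 2).sub_const (f 0)
  have h5 : HasDerivAt (fun w ↦ circleAverage (fun ζ ↦ herglotzRieszKernel 0 w ζ • f ζ) 0 1)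
      (2 * deriv f w) w := by
    apply h4.congr_of_eventuallyEq
    filter_upwards [isOpen_ball.mem_nhds hw] with x hx
    exact h2 x hx
  have h6 := h1.unique h5
  have hc2 : ContinuousOn (fun ζ => ζ / (ζ - w) ^ 2 * f ζ) (Metric.sphere (0:ℂ) 1) := by
    apply ContinuousOn.mul _ hfc
    apply ContinuousOn.div continuousOn_id (by fun_prop)
    intro ζ hζ
    exact pow_ne_zero _ (sub_ne_zero_of_ball hw hζ)
  have h7 : circleAverage (fun ζ ↦ (2 * ζ / (ζ - w) ^ 2) • f ζ) 0 1 =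
      2 * ∫ ζ, ζ / (ζ - w) ^ 2 * f ζ ∂sg := by
    rw [← integral_const_mul, integral_sg']
    · congr 1
      ext ζ
      simp only [smul_eq_mul]
      ring
    · exact continuousOn_const.mul hc2
  rw [h7] at h6
  have : (2:ℂ) ≠ 0 := two_ne_zero
  exact mul_left_cancel₀ this h6


/-- The derivative kernel with pole outside of the closed disc integrates to zero. -/
theorem deriv_sg_out {f : ℂ → ℂ} (hf : DiffContOnCl ℂ f (Metric.ball (0:ℂ) 1)) {w : ℂ}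
    (hw : 1 < ‖w‖) : ∫ ζ, ζ / (ζ - w) ^ 2 * f ζ ∂sg = 0 := by
  have hne : ∀ z ∈ Metric.closedBall (0:ℂ) 1, (z - w) ^ 2 ≠ 0 := by
    intro z hz
    apply pow_ne_zero
    intro h
    rw [sub_eq_zero] at h
    rw [h] at hz
    simp at hz
    linarith
  have h1 : DiffContOnCl ℂ (fun ζ => ζ / (ζ - w) ^ 2 * f ζ) (Metric.ball (0:ℂ) 1) := by
    have : DiffContOnCl ℂ (fun ζ => ζ / (ζ - w) ^ 2) (Metric.ball (0:ℂ) 1) := by
      apply DifferentiableOn.diffContOnCl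
      rw [closure_ball _ one_ne_zero]
      apply DifferentiableOn.div (by fun_prop) (by fun_prop) hne
    exact this.smul hf
  rw [mean_sg h1]
  simp

/-- The difference of the two derivative kernels. -/
noncomputable def fker (r : ℝ) (ζ₀ ζ : ℂ) : ℂ :=
  ζ / (ζ - r * ζ₀) ^ 2 - ζ / (ζ - ζ₀ / r) ^ 2

theorem norm_sub_reflect {r : ℝ} (hr : 0 < r) {ζ₀ ζ : ℂ} (h0 : ‖ζ₀‖ = 1) (h1 : ‖ζ‖ = 1) :
    r * ‖ζ - ζ₀ / r‖ = ‖ζ - r * ζ₀‖ := by
  have h2 : r * ‖ζ - ζ₀ / r‖ = ‖r * ζ - ζ₀‖ := by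
    have : (r : ℂ) * ζ - ζ₀ = r * (ζ - ζ₀ / r) := by
      have : (r : ℂ) ≠ 0 := by exact_mod_cast hr.ne'
      field_simp
    rw [this, norm_mul, Complex.norm_real, Real.norm_of_nonneg hr.le]
  rw [h2]
  have h3 : ‖(r:ℂ) * ζ - ζ₀‖ ^ 2 = ‖ζ - r * ζ₀‖ ^ 2 := by
    rw [← Complex.normSq_eq_norm_sq, ← Complex.normSq_eq_norm_sq]
    have h4 : Complex.normSq ζ = 1 := by rw [Complex.normSq_eq_norm_sq, h1]; norm_num
    have h5 : Complex.normSq ζ₀ = 1 := by rw [Complex.normSq_eq_norm_sq, h0]; norm_num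
    rw [Complex.normSq_apply] at *
    simp only [Complex.normSq_apply, Complex.sub_re, Complex.sub_im, Complex.mul_re,
      Complex.mul_im, Complex.ofReal_re, Complex.ofReal_im] at *
    linear_combination (r ^ 2 - 1) * h4 - (r ^ 2 - 1) * h5
  have h6 : 0 ≤ ‖(r:ℂ) * ζ - ζ₀‖ := norm_nonneg _
  have h7 : 0 ≤ ‖ζ - r * ζ₀‖ := norm_nonneg _
  nlinarith [sq_nonneg (‖(r:ℂ) * ζ - ζ₀‖ - ‖ζ - r * ζ₀‖), sq_nonneg (‖(r:ℂ) * ζ - ζ₀‖ + ‖ζ - r * ζ₀‖)]

theorem one_sub_le_norm_sub {r : ℝ} (hr : 0 < r) (_hr1 : r < 1) {ζ₀ ζ : ℂ} (h0 : ‖ζ₀‖ = 1)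
    (h1 : ‖ζ‖ = 1) : 1 - r ≤ ‖ζ - r * ζ₀‖ := by
  have := norm_sub_norm_le ζ (r * ζ₀)
  rw [norm_mul, Complex.norm_real, Real.norm_of_nonneg hr.le, h0, h1, mul_one] at this
  exact this

theorem norm_sub_le_two_mul {r : ℝ} (hr : 0 < r) (hr1 : r < 1) {ζ₀ ζ : ℂ} (h0 : ‖ζ₀‖ = 1)
    (h1 : ‖ζ‖ = 1) : ‖ζ - ζ₀‖ ≤ 2 * ‖ζ - r * ζ₀‖ := by
  have h2 : ‖ζ - ζ₀‖ ≤ ‖ζ - r * ζ₀‖ + ‖r * ζ₀ - ζ₀‖ := norm_sub_le_norm_sub_add_norm_sub _ _ _
  have h3 : ‖(r:ℂ) * ζ₀ - ζ₀‖ = 1 - r := by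
    have : (r:ℂ) * ζ₀ - ζ₀ = ((r - 1 : ℝ) : ℂ) * ζ₀ := by push_cast; ring
    rw [this, norm_mul, Complex.norm_real, h0, mul_one, Real.norm_eq_abs, abs_sub_comm,
      abs_of_pos (by linarith)]
  have := one_sub_le_norm_sub hr hr1 h0 h1
  linarith

theorem norm_fker_le {r : ℝ} (hr : 0 < r) (hr1 : r < 1) {ζ₀ ζ : ℂ} (h0 : ‖ζ₀‖ = 1)
    (h1 : ‖ζ‖ = 1) : ‖fker r ζ₀ ζ‖ ≤ 2 * (1 - r ^ 2) / ‖ζ - r * ζ₀‖ ^ 3 := by
  set d := ‖ζ - r * ζ₀‖ with hd
  have hdpos : 0 < d := lt_of_lt_of_le (by linarith) (one_sub_le_norm_sub hr hr1 h0 h1)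
  have hrC : (r : ℂ) ≠ 0 := by exact_mod_cast hr.ne'
  have hd' : ‖ζ - ζ₀ / r‖ = d / r := by
    rw [eq_div_iff hr.ne', mul_comm, norm_sub_reflect hr h0 h1]
  have hA : ζ - r * ζ₀ ≠ 0 := by rw [← norm_pos_iff]; exact hdpos
  have hB : ζ - ζ₀ / r ≠ 0 := by rw [← norm_pos_iff, hd']; positivity
  have hfk : fker r ζ₀ ζ = ζ * ((r * ζ₀ - ζ₀ / r) * ((ζ - ζ₀ / r) + (ζ - r * ζ₀))) /
      ((ζ - r * ζ₀) ^ 2 * (ζ - ζ₀ / r) ^ 2) := by
    rw [fker, div_sub_div _ _ (pow_ne_zero 2 hA) (pow_ne_zero 2 hB)]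
    congr 1
    ring
  rw [hfk, norm_div, norm_mul, norm_mul, norm_mul, norm_pow, norm_pow, h1, hd', ← hd, one_mul]
  have h3 : ‖(r:ℂ) * ζ₀ - ζ₀ / r‖ = (1 - r ^ 2) / r := by
    have : (r:ℂ) * ζ₀ - ζ₀ / r = ((r - 1 / r : ℝ) : ℂ) * ζ₀ := by push_cast; ring
    rw [this, norm_mul, Complex.norm_real, h0, mul_one, Real.norm_eq_abs, abs_sub_comm,
      abs_of_nonneg]
    · field_simp
    · rw [sub_nonneg, le_div_iff₀ hr]; nlinarith
  rw [h3]
  have h4 : ‖(ζ - ζ₀ / r) + (ζ - r * ζ₀)‖ ≤ d / r + d := by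
    refine (norm_add_le _ _).trans ?_
    rw [hd']
  have h5 : (1 - r ^ 2) / r * ‖(ζ - ζ₀ / r) + (ζ - r * ζ₀)‖ / (d ^ 2 * (d / r) ^ 2) ≤
      (1 - r ^ 2) / r * (d / r + d) / (d ^ 2 * (d / r) ^ 2) := by
    have : 0 ≤ 1 - r ^ 2 := by nlinarith
    gcongr
  refine h5.trans ?_
  have h6 : (1 - r ^ 2) / r * (d / r + d) / (d ^ 2 * (d / r) ^ 2) =
      (1 + r) * (1 - r ^ 2) / d ^ 3 := by
    field_simp
  rw [h6]
  have : 0 ≤ 1 - r ^ 2 := by nlinarith
  gcongr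
  linarith

/-- Pointwise radial limit theorem: if `g` is continuous on the closed disc, analytic inside, and
satisfies a first order expansion at `ζ₀` along the circle, then its derivative has a radial limit
at `ζ₀`. -/
theorem tendsto_deriv_of_expansion {g : ℂ → ℂ} (hg : DiffContOnCl ℂ g (Metric.ball (0:ℂ) 1))
    {ζ₀ a : ℂ} (h0 : ‖ζ₀‖ = 1)
    (hexp : ∀ ε > 0, ∃ C : ℝ, 0 ≤ C ∧ ∀ ζ : ℂ, ‖ζ‖ = 1 →
      ‖g ζ - g ζ₀ - a * (ζ - ζ₀)‖ ≤ ε * ‖ζ - ζ₀‖ + C * ‖ζ - ζ₀‖ ^ 3) :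
    Tendsto (fun r : ℝ => deriv g (r * ζ₀)) (𝓝[<] 1) (𝓝 a) := by
  -- main estimate
  have main : ∀ ε > 0, ∃ C : ℝ, 0 ≤ C ∧ ∀ r : ℝ, 0 < r → r < 1 →
      ‖deriv g (r * ζ₀) - a‖ ≤ 4 * ε + 16 * C * (1 - r ^ 2) := by
    intro ε hε
    obtain ⟨C, hC, hexpC⟩ := hexp ε hε
    refine ⟨C, hC, fun r hr hr1 => ?_⟩
    set w : ℂ := r * ζ₀ with hw
    have hwn : ‖w‖ = r := by
      rw [hw, norm_mul, Complex.norm_real, h0, mul_one, Real.norm_of_nonneg hr.le]
    have hwm : w ∈ Metric.ball (0:ℂ) 1 := by simp [hwn, hr1]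
    set ℓ : ℂ → ℂ := fun ζ => g ζ - (g ζ₀ + a * (ζ - ζ₀)) with hℓ
    have hℓd : DiffContOnCl ℂ ℓ (Metric.ball (0:ℂ) 1) := by
      apply hg.sub
      apply Differentiable.diffContOnCl
      fun_prop
    have hder : deriv ℓ w = deriv g w - a := by
      have h1 := (hg.differentiableAt isOpen_ball hwm).hasDerivAt
      have h2 : HasDerivAt (fun ζ : ℂ => g ζ₀ + a * (ζ - ζ₀)) (a * 1) w :=
        (((hasDerivAt_id' w).sub_const ζ₀).const_mul a).const_add (g ζ₀)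
      have := (h1.sub h2).deriv
      rw [mul_one] at this
      exact this
    have hout : 1 < ‖ζ₀ / (r:ℂ)‖ := by
      rw [norm_div, h0, Complex.norm_real, Real.norm_of_nonneg hr.le, one_lt_div hr]
      exact hr1
    have hℓc : ContinuousOn ℓ (Metric.sphere (0:ℂ) 1) := by
      have := hℓd.continuousOn
      rw [closure_ball _ one_ne_zero] at this
      exact this.mono sphere_subset_closedBall
    have hnein : ∀ ζ ∈ Metric.sphere (0:ℂ) 1, ζ - w ≠ 0 := fun ζ hζ => sub_ne_zero_of_ball hwm hζ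
    have hneout : ∀ ζ ∈ Metric.sphere (0:ℂ) 1, ζ - ζ₀ / r ≠ 0 := by
      intro ζ hζ h
      rw [sub_eq_zero] at h
      rw [← h] at hout
      simp at hζ
      linarith
    have hc1 : ContinuousOn (fun ζ => ζ / (ζ - w) ^ 2 * ℓ ζ) (Metric.sphere (0:ℂ) 1) := by
      apply ContinuousOn.mul _ hℓc
      apply ContinuousOn.div continuousOn_id (by fun_prop)
      intro ζ hζ
      exact pow_ne_zero _ (hnein ζ hζ)
    have hc2 : ContinuousOn (fun ζ => ζ / (ζ - ζ₀ / r) ^ 2 * ℓ ζ) (Metric.sphere (0:ℂ) 1) := by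
      apply ContinuousOn.mul _ hℓc
      apply ContinuousOn.div continuousOn_id (by fun_prop)
      intro ζ hζ
      exact pow_ne_zero _ (hneout ζ hζ)
    have hrep : deriv g w - a = ∫ ζ, fker r ζ₀ ζ * ℓ ζ ∂sg := by
      rw [← hder, ← deriv_sg hℓd hwm, ← sub_zero (∫ ζ, ζ / (ζ - w) ^ 2 * ℓ ζ ∂sg),
        ← deriv_sg_out hℓd hout, ← integral_sub (integrable_of_continuousOn hc1)
          (integrable_of_continuousOn hc2)]
      congr 1
      ext ζ
      rw [fker, sub_mul]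
    rw [hrep]
    -- bound
    have hP : ∫ ζ, poissonKernel 0 w ζ ∂sg = 1 := by
      have h1 := poisson_sg (f := fun _ => (1:ℂ)) diffContOnCl_const hwm
      simp only [mul_one] at h1
      rw [integral_complex_ofReal] at h1
      exact_mod_cast h1
    have hPc : ContinuousOn (poissonKernel 0 w) (Metric.sphere (0:ℂ) 1) := by
      have h2 : poissonKernel 0 w = fun z => (‖z - 0‖ ^ 2 - ‖w - 0‖ ^ 2) / ‖(z - 0) - (w - 0)‖ ^ 2 := by
        ext z; rw [poissonKernel_def]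
      rw [h2]
      apply ContinuousOn.div (by fun_prop) (by fun_prop)
      intro ζ hζ
      simpa using hnein ζ hζ
    have hPi : Integrable (poissonKernel 0 w) sg := integrable_of_continuousOn hPc
    have hbound : ∀ᵐ ζ ∂sg, ‖fker r ζ₀ ζ * ℓ ζ‖ ≤
        4 * ε * poissonKernel 0 w ζ + 16 * C * (1 - r ^ 2) := by
      filter_upwards [ae_norm_eq_one] with ζ hζ
      have h1 := norm_fker_le hr hr1 h0 hζ
      have h2 := hexpC ζ hζ
      have h3 := norm_sub_le_two_mul hr hr1 h0 hζ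
      rw [← hw] at h1 h3
      set d := ‖ζ - w‖ with hd
      have hdpos : 0 < d := by
        rw [hd, norm_pos_iff]; exact hnein ζ (by simpa using hζ)
      have hPval : poissonKernel 0 w ζ = (1 - r ^ 2) / d ^ 2 := by
        rw [poissonKernel_def, sub_zero, sub_zero, hζ, hwn, ← hd, one_pow]
      have hr2 : 0 ≤ 1 - r ^ 2 := by nlinarith
      rw [norm_mul, hPval]
      have h4 : ‖ℓ ζ‖ ≤ ε * (2 * d) + C * (2 * d) ^ 3 := by
        have : ℓ ζ = g ζ - g ζ₀ - a * (ζ - ζ₀) := by rw [hℓ]; ring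
        rw [this]
        refine h2.trans ?_
        gcongr
      calc ‖fker r ζ₀ ζ‖ * ‖ℓ ζ‖ ≤ (2 * (1 - r ^ 2) / d ^ 3) * (ε * (2 * d) + C * (2 * d) ^ 3) := by
            gcongr
        _ = 4 * ε * ((1 - r ^ 2) / d ^ 2) + 16 * C * (1 - r ^ 2) := by
            field_simp
            ring
    calc ‖∫ ζ, fker r ζ₀ ζ * ℓ ζ ∂sg‖ ≤ ∫ ζ, (4 * ε * poissonKernel 0 w ζ + 16 * C * (1 - r ^ 2)) ∂sg :=
          norm_integral_le_of_norm_le ((hPi.const_mul _).add (integrable_const _)) hbound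
      _ = 4 * ε + 16 * C * (1 - r ^ 2) := by
          rw [integral_add (hPi.const_mul _) (integrable_const _), integral_const_mul, hP]
          simp
  rw [Metric.tendsto_nhds]
  intro ε hε
  obtain ⟨C, hC, hmain⟩ := main (ε / 8) (by positivity)
  have hlim : Tendsto (fun r : ℝ => 4 * (ε / 8) + 16 * C * (1 - r ^ 2)) (𝓝[<] 1) (𝓝 (ε / 2)) := by
    have : Tendsto (fun r : ℝ => 4 * (ε / 8) + 16 * C * (1 - r ^ 2)) (𝓝 1)
        (𝓝 (4 * (ε / 8) + 16 * C * (1 - 1 ^ 2))) := by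
      apply Continuous.tendsto
      fun_prop
    have h2 : 4 * (ε / 8) + 16 * C * (1 - 1 ^ 2) = ε / 2 := by ring
    rw [h2] at this
    exact this.mono_left nhdsWithin_le_nhds
  have hev := hlim.eventually (gt_mem_nhds (show ε / 2 < ε by linarith))
  have hpos : ∀ᶠ r : ℝ in 𝓝[<] 1, 0 < r := by
    apply Filter.Eventually.filter_mono nhdsWithin_le_nhds
    exact lt_mem_nhds one_pos
  filter_upwards [hev, hpos, self_mem_nhdsWithin] with r h1 h2 h3
  rw [dist_eq_norm]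
  exact lt_of_le_of_lt (hmain r h2 h3) h1

/-- First order expansion of a Lipschitz function on the circle at a differentiability point. -/
theorem expansion_of_differentiableAt {g : ℂ → ℂ} {K : NNReal} (hK : LipschitzWith K g)
    {θ₀ : ℝ} (hd : DifferentiableAt ℝ (fun θ : ℝ => g (circleMap 0 1 θ)) θ₀) :
    ∃ a : ℂ, ∀ ε > 0, ∃ C : ℝ, 0 ≤ C ∧ ∀ ζ : ℂ, ‖ζ‖ = 1 →
      ‖g ζ - g (circleMap 0 1 θ₀) - a * (ζ - circleMap 0 1 θ₀)‖ ≤
        ε * ‖ζ - circleMap 0 1 θ₀‖ + C * ‖ζ - circleMap 0 1 θ₀‖ ^ 3 := by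
  set ζ₀ := circleMap 0 1 θ₀ with hζ₀
  have h0 : ‖ζ₀‖ = 1 := norm_cm θ₀
  have h0ne : ζ₀ ≠ 0 := cm_ne_zero θ₀
  set d := deriv (fun θ : ℝ => g (circleMap 0 1 θ)) θ₀ with hdd
  set a : ℂ := d / (ζ₀ * I) with ha
  have hI : ζ₀ * I ≠ 0 := mul_ne_zero h0ne I_ne_zero
  refine ⟨a, fun ε hε => ?_⟩
  -- the function `g ζ - a ζ` along the circle has derivative zero at `θ₀`
  have h1 : HasDerivAt (fun θ : ℝ => g (circleMap 0 1 θ) - a * circleMap 0 1 θ) 0 θ₀ := by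
    have h2 := hd.hasDerivAt
    have h3 := (hasDerivAt_circleMap 0 1 θ₀).const_mul a
    have h4 := h2.sub h3
    have h5 : deriv (fun θ : ℝ => g (circleMap 0 1 θ)) θ₀ - a * (circleMap 0 1 θ₀ * I) = 0 := by
      rw [← hdd, ← hζ₀, ha]
      field_simp
      ring
    rw [h5] at h4
    exact h4
  rw [hasDerivAt_iff_isLittleO] at h1
  have h2 := h1.def (c := ε * (2 / π)) (by positivity)
  rw [Metric.eventually_nhds_iff] at h2
  obtain ⟨δ, hδ, h3⟩ := h2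
  -- constant
  refine ⟨(K + ‖a‖) / (2 / π * δ) ^ 2, by positivity, fun ζ hζ => ?_⟩
  set t : ℝ := Complex.arg (ζ / ζ₀) with ht
  have hζζ : ‖ζ / ζ₀‖ = 1 := by rw [norm_div, hζ, h0, div_one]
  have hcm : circleMap 0 1 (θ₀ + t) = ζ := by
    have h4 := Complex.norm_mul_exp_arg_mul_I (ζ / ζ₀)
    rw [hζζ, ← ht, ofReal_one, one_mul] at h4
    rw [cm_eq_exp]
    push_cast
    rw [add_mul, Complex.exp_add, h4, ← cm_eq_exp, ← hζ₀]
    field_simp
  have htle : |t| ≤ π / 2 * ‖ζ - ζ₀‖ := by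
    have h4 := Complex.angle_le_mul_norm_sub (x := 1) (y := ζ / ζ₀) norm_one hζζ
    rw [Complex.angle_one_left (by rw [← norm_pos_iff, hζζ]; exact one_pos), ← ht] at h4
    have h5 : ‖1 - ζ / ζ₀‖ = ‖ζ - ζ₀‖ := by
      have : 1 - ζ / ζ₀ = - ((ζ - ζ₀) / ζ₀) := by field_simp; ring
      rw [this, norm_neg, norm_div, h0, div_one]
    rwa [h5] at h4
  have hpi : 0 < π := Real.pi_pos
  by_cases hsmall : |t| < δ
  · have h4 := h3 (y := θ₀ + t) (by simpa [Real.dist_eq] using hsmall)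
    simp only [add_sub_cancel_left, smul_zero, sub_zero, hcm] at h4
    rw [← hζ₀] at h4
    have h5 : g ζ - g ζ₀ - a * (ζ - ζ₀) = g ζ - a * ζ - (g ζ₀ - a * ζ₀) := by ring
    rw [h5]
    refine h4.trans ?_
    have h6 : ε * (2 / π) * ‖t‖ ≤ ε * ‖ζ - ζ₀‖ := by
      rw [Real.norm_eq_abs]
      calc ε * (2 / π) * |t| ≤ ε * (2 / π) * (π / 2 * ‖ζ - ζ₀‖) := by gcongr
        _ = ε * ‖ζ - ζ₀‖ := by field_simp
    refine h6.trans ?_
    have : 0 ≤ (K + ‖a‖) / (2 / π * δ) ^ 2 * ‖ζ - ζ₀‖ ^ 3 := by positivity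
    linarith
  · have h4 : 2 / π * δ ≤ ‖ζ - ζ₀‖ := by
      have : δ ≤ |t| := not_lt.mp hsmall
      calc 2 / π * δ ≤ 2 / π * |t| := by gcongr
        _ ≤ 2 / π * (π / 2 * ‖ζ - ζ₀‖) := by gcongr
        _ = ‖ζ - ζ₀‖ := by field_simp
    have h5 : ‖g ζ - g ζ₀ - a * (ζ - ζ₀)‖ ≤ (K + ‖a‖) * ‖ζ - ζ₀‖ := by
      refine (norm_sub_le _ _).trans ?_
      have h6 := hK.dist_le_mul ζ ζ₀
      rw [dist_eq_norm, dist_eq_norm] at h6
      rw [norm_mul, add_mul]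
      linarith
    refine h5.trans ?_
    have h7 : (K + ‖a‖) * ‖ζ - ζ₀‖ ≤ (K + ‖a‖) / (2 / π * δ) ^ 2 * ‖ζ - ζ₀‖ ^ 3 := by
      have h8 : (K + ‖a‖) / (2 / π * δ) ^ 2 * ‖ζ - ζ₀‖ ^ 3 =
          (K + ‖a‖) * ‖ζ - ζ₀‖ * (‖ζ - ζ₀‖ / (2 / π * δ)) ^ 2 := by
        field_simp
      rw [h8]
      have h9 : 1 ≤ (‖ζ - ζ₀‖ / (2 / π * δ)) ^ 2 := by
        apply one_le_pow₀
        rw [one_le_div (by positivity)]
        exact h4
      have h10 : 0 ≤ (K + ‖a‖) * ‖ζ - ζ₀‖ := by positivity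
      nlinarith
    have h11 : 0 ≤ ε * ‖ζ - ζ₀‖ := by positivity
    linarith

/-- **Fatou's theorem** for bounded analytic functions. -/
theorem fatou {F : ℂ → ℂ} (hF : DifferentiableOn ℂ F (Metric.ball (0:ℂ) 1)) {M : ℝ}
    (hM : ∀ z ∈ Metric.ball (0:ℂ) 1, ‖F z‖ ≤ M) :
    ∀ᵐ ζ ∂sg, ∃ w : ℂ, Tendsto (fun r : ℝ => F (r * ζ)) (𝓝[<] 1) (𝓝 w) := by
  obtain ⟨G, hG⟩ := hF.isExactOn_ball
  have hM0 : 0 ≤ M := (norm_nonneg _).trans (hM 0 zero_mem_D)
  have hLip : LipschitzOnWith ⟨M, hM0⟩ G (Metric.ball (0:ℂ) 1) := by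
    apply Convex.lipschitzOnWith_of_nnnorm_deriv_le (𝕜 := ℂ)
    · intro x hx; exact (hG x hx).differentiableAt
    · intro x hx
      rw [(hG x hx).deriv]
      exact hM x hx
    · exact convex_ball _ _
  obtain ⟨g, hgL, hgG⟩ := hLip.extend_finite_dimension
  have hgd : ∀ z ∈ Metric.ball (0:ℂ) 1, HasDerivAt g (F z) z := by
    intro z hz
    apply (hG z hz).congr_of_eventuallyEq
    filter_upwards [isOpen_ball.mem_nhds hz] with x hx
    exact (hgG hx).symm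
  have hgc : DiffContOnCl ℂ g (Metric.ball (0:ℂ) 1) :=
    ⟨fun z hz => (hgd z hz).differentiableAt.differentiableWithinAt, hgL.continuous.continuousOn⟩
  have hLcm : LipschitzWith _ (fun θ : ℝ => g (circleMap 0 1 θ)) :=
    hgL.comp (lipschitzWith_circleMap 0 1)
  apply ae_sg_of_ae
  have hae : ∀ᵐ θ : ℝ, DifferentiableAt ℝ (fun θ : ℝ => g (circleMap 0 1 θ)) θ :=
    hLcm.ae_differentiableAt
  filter_upwards [hae] with θ hθ
  obtain ⟨a, ha⟩ := expansion_of_differentiableAt hgL hθ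
  refine ⟨a, ?_⟩
  have h1 := tendsto_deriv_of_expansion hgc (norm_cm θ) ha
  apply h1.congr'
  have hpos : ∀ᶠ r : ℝ in 𝓝[<] 1, 0 < r := by
    apply Filter.Eventually.filter_mono nhdsWithin_le_nhds
    exact lt_mem_nhds one_pos
  filter_upwards [hpos, self_mem_nhdsWithin] with r h2 h3
  apply (hgd _ _).deriv
  rw [mem_ball_zero_iff, norm_mul, norm_cm, mul_one, Complex.norm_real, Real.norm_of_nonneg h2.le]
  exact h3

end Pool.Agent.Hinf
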