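import Pool.Agent.Lib.Hinf.Outer

/-!
# Pointwise limits of bounded sequences of bounded analytic functions along an ultrafilter
-/

set_option autoImplicit false
set_option linter.unusedSimpArgs false

open Complex MeasureTheory Metric Set Filter Topology Real

namespace Pool.Agent.Hinf

/-- Local Lipschitz estimate for bounded analytic functions. -/
theorem norm_ev_sub_le (f : HInf) {x y : ℂ} (hx : x ∈ Metric.ball (0:ℂ) 1)
    (hy : y ∈ Metric.ball x ((1 - ‖x‖) / 2)) :
    ‖ev f y - ev f x‖ ≤ ‖f‖ / ((1 - ‖x‖) / 2) * ‖y - x‖ := by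
  set ρ : ℝ := (1 - ‖x‖) / 2 with hρ
  have hxn : ‖x‖ < 1 := by simpa using hx
  have hρpos : 0 < ρ := by rw [hρ]; linarith
  have hsub : ∀ w ∈ Metric.ball x ρ, Metric.closedBall w ρ ⊆ Metric.ball (0:ℂ) 1 := by
    intro w hw z hz
    rw [mem_ball, dist_eq_norm] at hw
    rw [mem_closedBall, dist_eq_norm] at hz
    rw [mem_ball_zero_iff]
    calc ‖z‖ = ‖(z - w) + (w - x) + x‖ := by ring_nf
      _ ≤ ‖z - w‖ + ‖w - x‖ + ‖x‖ := norm_add₃_le
      _ < ρ + ρ + ‖x‖ := by linarith
      _ = 1 := by rw [hρ]; ring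
  apply Convex.norm_image_sub_le_of_norm_deriv_le (𝕜 := ℂ) (s := Metric.ball x ρ)
  · intro w hw
    exact (differentiableOn_ev f).differentiableAt
      (isOpen_ball.mem_nhds (hsub w hw (mem_closedBall_self hρpos.le)))
  · intro w hw
    apply Complex.norm_deriv_le_of_forall_mem_sphere_norm_le hρpos
    · apply DifferentiableOn.diffContOnCl
      rw [closure_ball _ hρpos.ne']
      exact (differentiableOn_ev f).mono (hsub w hw)
    · intro z _
      exact norm_ev_le f z
  · exact convex_ball _ _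
  · exact mem_ball_self hρpos
  · exact hy

/-- The ultrafilter used for taking limits. -/
noncomputable def UF : Ultrafilter ℕ := Filter.hyperfilter ℕ

theorem UF_le : (UF : Filter ℕ) ≤ atTop := by
  rw [UF]
  exact Nat.hyperfilter_le_atTop

theorem exists_ulim (g : ℕ → HInf) {C : ℝ} (hC : ∀ n, ‖g n‖ ≤ C) :
    ∃ G : HInf, ‖G‖ ≤ C ∧ ∀ z ∈ Metric.ball (0:ℂ) 1,
      Tendsto (fun n => ev (g n) z) (UF : Filter ℕ) (𝓝 (ev G z)) := by
  have hC0 : 0 ≤ C := (norm_nonneg _).trans (hC 0)
  have hex : ∀ z : ℂ, ∃ w : ℂ, ‖w‖ ≤ C ∧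
      Tendsto (fun n => ev (g n) z) (UF : Filter ℕ) (𝓝 w) := by
    intro z
    have hcomp : IsCompact (Metric.closedBall (0:ℂ) C) := isCompact_closedBall _ _
    have h1 : (UF.map (fun n => ev (g n) z) : Filter ℂ) ≤ 𝓟 (Metric.closedBall (0:ℂ) C) := by
      rw [Ultrafilter.coe_map, le_principal_iff, mem_map]
      apply Filter.mem_of_superset Filter.univ_mem
      intro n _
      show ev (g n) z ∈ Metric.closedBall (0:ℂ) C
      rw [mem_closedBall_zero_iff]
      exact (norm_ev_le _ _).trans (hC n)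
    obtain ⟨w, hw1, hw2⟩ := hcomp.ultrafilter_le_nhds _ h1
    refine ⟨w, by simpa using hw1, ?_⟩
    rw [Ultrafilter.coe_map] at hw2
    exact hw2
  choose G hG1 hG2 using hex
  have hloc : TendstoLocallyUniformlyOn (fun n => ev (g n)) G (UF : Filter ℕ)
      (Metric.ball (0:ℂ) 1) := by
    rw [Metric.tendstoLocallyUniformlyOn_iff]
    intro ε hε x hx
    have hxn : ‖x‖ < 1 := by simpa using hx
    set ρ : ℝ := (1 - ‖x‖) / 2 with hρ
    have hρpos : 0 < ρ := by rw [hρ]; linarith
    set L : ℝ := C / ρ with hL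
    have hL0 : 0 ≤ L := by positivity
    set δ : ℝ := min ρ (ε / (4 * (L + 1))) with hδ
    have hδpos : 0 < δ := by
      rw [hδ]; apply lt_min hρpos; positivity
    have hlip : ∀ n, ∀ y ∈ Metric.ball x δ, ‖ev (g n) y - ev (g n) x‖ ≤ ε / 4 := by
      intro n y hy
      have hy1 : y ∈ Metric.ball x ρ := Metric.ball_subset_ball (min_le_left _ _) hy
      have h1 := norm_ev_sub_le (g n) hx hy1
      rw [mem_ball, dist_eq_norm] at hy
      have h2 : ‖y - x‖ ≤ ε / (4 * (L + 1)) := hy.le.trans (min_le_right _ _)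
      calc ‖ev (g n) y - ev (g n) x‖ ≤ ‖g n‖ / ρ * ‖y - x‖ := h1
        _ ≤ L * (ε / (4 * (L + 1))) := by
            rw [hL]
            have := hC n
            gcongr
        _ ≤ ε / 4 := by
            rw [mul_div_assoc', div_le_div_iff₀ (by positivity) (by positivity)]
            nlinarith
    have hlipG : ∀ y ∈ Metric.ball x δ, ‖G y - G x‖ ≤ ε / 4 := by
      intro y hy
      exact le_of_tendsto ((hG2 y).sub (hG2 x)).norm (Filter.Eventually.of_forall fun n =>
        hlip n y hy)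
    refine ⟨Metric.ball x δ, mem_nhdsWithin_of_mem_nhds (Metric.ball_mem_nhds x hδpos), ?_⟩
    have h3 := (Metric.tendsto_nhds.mp (hG2 x)) (ε / 4) (by positivity)
    filter_upwards [h3] with n hn y hy
    rw [dist_eq_norm] at hn ⊢
    have h4 := hlip n y hy
    have h5 := hlipG y hy
    calc ‖G y - ev (g n) y‖ = ‖(G y - G x) - (ev (g n) x - G x) - (ev (g n) y - ev (g n) x)‖ := by
          ring_nf
      _ ≤ ‖G y - G x‖ + ‖ev (g n) x - G x‖ + ‖ev (g n) y - ev (g n) x‖ := by
          refine (norm_sub_le _ _).trans ?_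
          gcongr
          exact norm_sub_le _ _
      _ < ε := by linarith
  have hd : DifferentiableOn ℂ G (Metric.ball (0:ℂ) 1) :=
    hloc.differentiableOn (Filter.Eventually.of_forall fun n => differentiableOn_ev (g n))
      isOpen_ball
  refine ⟨mk G hd C (fun z _ => hG1 z), ?_, ?_⟩
  · apply norm_le_of_ev _ hC0
    intro z hz
    rw [ev_mk _ _ _ _ hz]
    exact hG1 z
  · intro z hz
    rw [ev_mk _ _ _ _ hz]
    exact hG2 z

end Pool.Agent.Hinf
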