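import Pool.Agent.Lib.Hinf.CaseA
import Pool.Agent.Lib.Hinf.CaseB
import Pool.Agent.Lib.Hinf.BaireStep
import Pool.Agent.Lib.Hinf.Ulim

/-!
# Uniform boundedness for functionals tested on inner functions
-/

set_option autoImplicit false
set_option linter.unusedSimpArgs false

open Complex MeasureTheory Metric Set Filter Topology Real

namespace Pool.Agent.Hinf

theorem key_prop (Λ : ℕ → (HInf →L[ℂ] ℂ)) (hunb : ¬ ∃ C : ℝ, ∀ n, ‖Λ n‖ ≤ C) {ε : ℝ} (hε : 0 < ε)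
    (C : ℝ) : ∃ (n : ℕ) (θ h h' : HInf), Inner θ ∧ IsK θ h h' ∧ ‖h‖ ≤ 1 ∧ ‖1 - ev θ 0‖ ≤ ε ∧
      ∀ G : HInf, ‖G - 1‖ ≤ 1 / 4 → C ≤ ‖Λ n (h * G)‖ := by
  by_cases hA : ∃ n, ∀ N, max (2 * C) 7 ≤ ‖sh (Λ n) N‖
  · obtain ⟨n, hn⟩ := hA
    have hbdd : BddBelow (Set.range (fun N => ‖sh (Λ n) N‖)) :=
      ⟨0, by rintro _ ⟨N, rfl⟩; exact norm_nonneg _⟩
    set r : ℝ := ⨅ N, ‖sh (Λ n) N‖ with hr
    have hr1 : ∀ N, r ≤ ‖sh (Λ n) N‖ := fun N => ciInf_le hbdd N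
    have hr2 : max (2 * C) 7 ≤ r := le_ciInf hn
    obtain ⟨N, hN⟩ := exists_lt_of_ciInf_lt (show r < r + 1 by linarith)
    obtain ⟨θ, h, h', h1, h2, h3, h4, h5⟩ := caseA (Λ n) ((le_max_right _ _).trans hr2) hr1 hN.le hε
    refine ⟨n, θ, h, h', h1, h2, h3, h4, fun G hG => le_trans ?_ (h5 G hG)⟩
    have := (le_max_left (2 * C) 7).trans hr2
    linarith
  · push Not at hA
    set R₀ : ℝ := max (2 * C) 7 with hR₀
    have hR₀7 : 7 ≤ R₀ := le_max_right _ _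
    set ε' : ℝ := min ε (1 / 2) with hε'
    have hε'0 : 0 < ε' := lt_min hε (by norm_num)
    have hε'1 : ε' < 1 := (min_le_right _ _).trans_lt (by norm_num)
    have hn : ∃ n, max 1 ((C + 5 / 4 * R₀) * 2 / ε') < ‖Λ n‖ := by
      by_contra hcon
      push Not at hcon
      exact hunb ⟨_, hcon⟩
    obtain ⟨n, hn⟩ := hn
    obtain ⟨N, hN⟩ := hA n
    have hN' : ‖sh (Λ n) (N + 1)‖ ≤ R₀ := (norm_sh_antitone (Λ n) N 1).trans hN.le
    obtain ⟨θ, h, h', h1, h2, h3, h4, h5⟩ := caseB (Λ n) (Nat.succ_ne_zero N) hN'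
      (lt_of_lt_of_le one_pos ((le_max_left _ _).trans hn.le)) hε'0 hε'1
    refine ⟨n, θ, h, h', h1, h2, h3, h4.trans (min_le_left _ _), fun G hG => le_trans ?_ (h5 G hG)⟩
    have h6 : (C + 5 / 4 * R₀) * 2 / ε' ≤ ‖Λ n‖ := (le_max_right _ _).trans hn.le
    rw [div_le_iff₀ hε'0] at h6
    linarith

/-- Partial products. -/
noncomputable def PP (θ : ℕ → HInf) (m n : ℕ) : HInf := ∏ j ∈ Finset.Ico m n, θ j

theorem inner_PP {θ : ℕ → HInf} (hθ : ∀ j, Inner (θ j)) (m n : ℕ) : Inner (PP θ m n) := by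
  unfold PP
  induction Finset.Ico m n using Finset.induction_on with
  | empty =>
    rw [Finset.prod_empty]
    exact inner_one
  | insert a s ha ih =>
    rw [Finset.prod_insert ha]
    exact (hθ a).mul ih

theorem norm_one_sub_PP {θ : ℕ → HInf} (hθ : ∀ j, Inner (θ j))
    (h0 : ∀ j, ‖1 - ev (θ j) 0‖ ≤ (1 / 2 : ℝ) ^ j) (m n : ℕ) :
    ‖1 - ev (PP θ m n) 0‖ ≤ 2 * (1 / 2 : ℝ) ^ m := by
  rcases le_or_gt m n with hmn | hmn
  · have h : ‖1 - ev (PP θ m n) 0‖ ≤ 2 * (1 / 2 : ℝ) ^ m - 2 * (1 / 2 : ℝ) ^ n := by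
      induction n, hmn using Nat.le_induction with
      | base =>
        rw [PP, Finset.Ico_self, Finset.prod_empty, ev_one zero_mem_D, sub_self, norm_zero, sub_self]
      | succ n hmn ih =>
        rw [PP, Finset.prod_Ico_succ_top hmn, ← PP, ev_mul]
        have e : 1 - ev (PP θ m n) 0 * ev (θ n) 0
            = (1 - ev (PP θ m n) 0) + ev (PP θ m n) 0 * (1 - ev (θ n) 0) := by ring
        rw [e]
        have h1 : ‖ev (PP θ m n) 0 * (1 - ev (θ n) 0)‖ ≤ (1 / 2 : ℝ) ^ n := by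
          rw [norm_mul]
          calc _ ≤ 1 * (1 / 2 : ℝ) ^ n := mul_le_mul
                ((norm_ev_le _ _).trans (inner_PP hθ m n).norm_eq.le) (h0 n) (norm_nonneg _)
                zero_le_one
            _ = _ := one_mul _
        have h2 : (1 / 2 : ℝ) ^ (n + 1) = (1 / 2 : ℝ) ^ n / 2 := by rw [pow_succ]; ring
        have h3 := norm_add_le (1 - ev (PP θ m n) 0) (ev (PP θ m n) 0 * (1 - ev (θ n) 0))
        rw [h2]
        linarith
    have : (0 : ℝ) < (1 / 2 : ℝ) ^ n := by positivity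
    linarith
  · rw [PP, Finset.Ico_eq_empty (by omega), Finset.prod_empty, ev_one zero_mem_D, sub_self,
      norm_zero]
    positivity

/-- Infinite products of inner functions. -/
theorem exists_inner_prod {θ : ℕ → HInf} (hθ : ∀ j, Inner (θ j))
    (h0 : ∀ j, ‖1 - ev (θ j) 0‖ ≤ (1 / 2 : ℝ) ^ j) :
    ∃ Θ : HInf, Inner Θ ∧ ∀ j, ∃ g : HInf, Θ = θ j * g := by
  have hT : ∀ m : ℕ, ∃ T : HInf, ‖T‖ ≤ 1 ∧ ∀ z ∈ Metric.ball (0:ℂ) 1,
      Tendsto (fun n => ev (PP θ m n) z) (UF : Filter ℕ) (𝓝 (ev T z)) :=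
    fun m => exists_ulim (PP θ m) (fun n => (inner_PP hθ m n).norm_eq.le)
  choose T hT1 hT2 using hT
  have hfac : ∀ m, T 0 = PP θ 0 m * T m := by
    intro m
    apply ext_ev
    intro z hz
    rw [ev_mul]
    have h1 := (hT2 m z hz).const_mul (ev (PP θ 0 m) z)
    refine tendsto_nhds_unique (hT2 0 z hz) (h1.congr' ?_)
    have h2 : ∀ᶠ n in (UF : Filter ℕ), m ≤ n := UF_le (eventually_ge_atTop m)
    filter_upwards [h2] with n hn
    rw [← ev_mul, PP, PP, PP, Finset.prod_Ico_consecutive _ (Nat.zero_le m) hn]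
  have hT0 : ∀ m, 1 - 2 * (1 / 2 : ℝ) ^ m ≤ ‖ev (T m) 0‖ := by
    intro m
    have h1 : ‖1 - ev (T m) 0‖ ≤ 2 * (1 / 2 : ℝ) ^ m :=
      le_of_tendsto ((hT2 m 0 zero_mem_D).const_sub 1).norm
        (Eventually.of_forall (fun n => norm_one_sub_PP hθ h0 m n))
    have h2 := norm_sub_norm_le (1 : ℂ) (ev (T m) 0)
    rw [norm_one] at h2
    linarith
  refine ⟨T 0, ?_, ?_⟩
  · have hint : Integrable (fun ζ => ‖bv (T 0) ζ‖) sg := (integrable_bv _).norm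
    have hge : ∀ m : ℕ, 1 - 2 * (1 / 2 : ℝ) ^ m ≤ ∫ ζ, ‖bv (T 0) ζ‖ ∂sg := by
      intro m
      have e1 : ∫ ζ, ‖bv (T 0) ζ‖ ∂sg = ∫ ζ, ‖bv (T m) ζ‖ ∂sg := by
        apply integral_congr_ae
        filter_upwards [bv_mul (PP θ 0 m) (T m), inner_PP hθ 0 m] with ζ h1 h2
        rw [hfac m, h1, norm_mul, h2, one_mul]
      rw [e1]
      refine (hT0 m).trans ?_
      rw [ev_zero_eq_integral]
      exact norm_integral_le_integral_norm _
    have hlim : Tendsto (fun m : ℕ => 1 - 2 * (1 / 2 : ℝ) ^ m) atTop (𝓝 (1 - 2 * 0)) :=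
      ((tendsto_pow_atTop_nhds_zero_of_lt_one (by norm_num) (by norm_num)).const_mul 2).const_sub 1
    rw [mul_zero, sub_zero] at hlim
    have h1 : 1 ≤ ∫ ζ, ‖bv (T 0) ζ‖ ∂sg := le_of_tendsto hlim (Eventually.of_forall hge)
    have hle : ∀ᵐ ζ ∂sg, ‖bv (T 0) ζ‖ ≤ 1 := by
      filter_upwards [norm_bv_le (T 0)] with ζ hζ
      exact hζ.trans (hT1 0)
    have h2 : ∫ ζ, (1 - ‖bv (T 0) ζ‖) ∂sg = 0 := by
      have h3 : ∫ ζ, (1 - ‖bv (T 0) ζ‖) ∂sg = 1 - ∫ ζ, ‖bv (T 0) ζ‖ ∂sg := by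
        rw [integral_sub (integrable_const _) hint]
        simp
      have h4 : 0 ≤ ∫ ζ, (1 - ‖bv (T 0) ζ‖) ∂sg := by
        apply integral_nonneg_of_ae
        filter_upwards [hle] with ζ hζ
        simpa using hζ
      rw [h3] at h4 ⊢
      linarith
    have h5 := (integral_eq_zero_iff_of_nonneg_ae (by
      filter_upwards [hle] with ζ hζ
      simpa using hζ) ((integrable_const (1 : ℝ)).sub hint)).mp h2
    filter_upwards [h5] with ζ hζ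
    have : 1 - ‖bv (T 0) ζ‖ = 0 := hζ
    linarith
  · intro j
    refine ⟨PP θ 0 j * T (j + 1), ?_⟩
    rw [hfac (j + 1), PP, Finset.prod_Ico_succ_top (Nat.zero_le j), ← PP]
    ring

/-- **Uniform boundedness tested on inner functions.** -/
theorem uniform_bounded_of_inner (Λ : ℕ → (HInf →L[ℂ] ℂ))
    (hΛ : ∀ φ : HInf, Inner φ → ∃ C : ℝ, ∀ n, ‖Λ n φ‖ ≤ C) : ∃ C : ℝ, ∀ n, ‖Λ n‖ ≤ C := by
  by_contra hunb
  have hk := fun j : ℕ => key_prop Λ hunb (ε := (1 / 2 : ℝ) ^ j) (by positivity) (j : ℝ)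
  choose n θ h h' h1 h2 h3 h4 h5 using hk
  obtain ⟨Θ, hΘ, hdiv⟩ := exists_inner_prod h1 h4
  obtain ⟨G, hG, K, hK⟩ := baire_step Λ hΛ hΘ
  obtain ⟨j, hj⟩ := exists_nat_gt K
  obtain ⟨g, hg⟩ := hdiv j
  have h6 : IsK Θ (h j) (h' j * g) := by
    rw [hg]
    exact (h2 j).mul_right g
  have h7 := hK (h j) _ h6 (h3 j) (n j)
  have h8 := h5 j G hG
  linarith

end Pool.Agent.Hinf
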