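import Pool.Agent.Lib.Hinf.Bdry

/-!
# Harmonic measure of a measurable set, and its analytic completion
-/

set_option autoImplicit false
set_option linter.unusedSimpArgs false

open Complex MeasureTheory Metric Set Filter Topology Real

namespace Pool.Agent.Hinf

/-- A bounded measurable function all of whose moments vanish is zero almost everywhere. -/
theorem ae_zero_of_moments {v : ℂ → ℂ} (hv : Measurable v) {M : ℝ}
    (hM : ∀ᵐ ζ ∂sg, ‖v ζ‖ ≤ M)
    (h : ∀ n : ℤ, ∫ ζ, ζ ^ n * v ζ ∂sg = 0) : ∀ᵐ ζ ∂sg, v ζ = 0 := by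
  set f : ℝ → ℂ := fun θ => v (circleMap 0 1 θ) with hf
  have hfm : Measurable f := hv.comp measurable_cm
  have hL2 : MemLp f 2 (volume.restrict (Ioc 0 (2 * π))) := by
    apply MemLp.of_bound hfm.aestronglyMeasurable M
    exact ae_restrict_of_ae (ae_of_ae_sg _ hM)
  have hs := hasSum_sq_fourierCoeffOn Real.two_pi_pos hL2
  have hz : ∀ n : ℤ, fourierCoeffOn Real.two_pi_pos f n = 0 := by
    intro n
    rw [fourierCoeffOn_eq_integral]
    have h1 := h (-n)
    have hm : AEStronglyMeasurable (fun ζ : ℂ => ζ ^ (-n) * v ζ) sg := by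
      apply AEStronglyMeasurable.mul
      · have : Measurable (fun ζ : ℂ => ζ ^ (-n)) := by fun_prop
        exact this.aestronglyMeasurable
      · exact hv.aestronglyMeasurable
    rw [integral_sg _ hm, circleAverage_def] at h1
    rw [← h1, sub_zero, one_div]
    congr 1
    apply intervalIntegral.integral_congr
    intro θ _
    simp only [hf, smul_eq_mul]
    congr 1
    rw [fourier_coe_apply, cm_eq_exp, ← Complex.exp_int_mul]
    congr 1
    push_cast
    have : (π : ℂ) ≠ 0 := by exact_mod_cast Real.pi_ne_zero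
    field_simp
  simp only [hz, norm_zero, ne_eq, OfNat.ofNat_ne_zero, not_false_eq_true, zero_pow] at hs
  have h2 := hs.unique hasSum_zero
  rw [smul_eq_mul, mul_eq_zero] at h2
  have h3 : ∫ x in (0:ℝ)..(2 * π), ‖f x‖ ^ 2 = 0 := by
    rcases h2 with h2 | h2
    · exfalso
      have := Real.two_pi_pos
      rw [sub_zero, inv_eq_zero] at h2
      linarith
    · exact h2
  rw [intervalIntegral.integral_of_le Real.two_pi_pos.le] at h3
  have hint : Integrable (fun θ => ‖f θ‖ ^ 2) (volume.restrict (Ioc 0 (2 * π))) :=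
    hL2.integrable_norm_pow (by norm_num)
  rw [integral_eq_zero_iff_of_nonneg (fun θ => by positivity) hint] at h3
  -- transfer back to `sg`
  have h4 : ∀ᵐ θ ∂(volume.restrict (Ioc 0 (2 * π))), v (circleMap 0 1 θ) = 0 := by
    filter_upwards [h3] with θ hθ
    simpa [hf] using hθ
  rw [sg]
  apply Measure.ae_smul_measure
  rw [ae_map_iff measurable_cm.aemeasurable]
  · exact h4
  · exact hv (measurableSet_singleton 0)

/-- The Herglotz integral of the indicator function of `E`. -/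
noncomputable def hE (E : Set ℂ) (w : ℂ) : ℂ := ∫ ζ in E, herglotzRieszKernel 0 w ζ ∂sg

theorem continuousOn_hrk {w : ℂ} (hw : w ∈ Metric.ball (0:ℂ) 1) :
    ContinuousOn (herglotzRieszKernel 0 w) (Metric.sphere (0:ℂ) 1) := by
  have := continuousOn_herglotzRieszKernel_sphere (c := 0) (R := 1) hw
  rwa [abs_one] at this

theorem integrable_hrk {w : ℂ} (hw : w ∈ Metric.ball (0:ℂ) 1) :
    Integrable (herglotzRieszKernel 0 w) sg :=
  integrable_of_continuousOn (continuousOn_hrk hw)

theorem circleIntegrable_ind {E : Set ℂ} (hE : MeasurableSet E) :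
    CircleIntegrable (E.indicator (fun _ => (1:ℂ))) 0 1 := by
  rw [CircleIntegrable, intervalIntegrable_iff]
  have : IsFiniteMeasure (volume.restrict (uIoc 0 (2 * π))) := by
    constructor
    rw [Measure.restrict_apply_univ, uIoc_of_le Real.two_pi_pos.le, Real.volume_Ioc]
    exact ENNReal.ofReal_lt_top
  apply Integrable.of_bound (C := 1)
  · exact ((measurable_const.indicator hE).comp measurable_cm).aestronglyMeasurable
  · filter_upwards with θ
    by_cases h : circleMap 0 1 θ ∈ E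
    · simp [h]
    · simp [h]

theorem hE_eq_circleAverage {E : Set ℂ} (hm : MeasurableSet E) {w : ℂ}
    (hw : w ∈ Metric.ball (0:ℂ) 1) :
    hE E w = circleAverage (fun ζ => herglotzRieszKernel 0 w ζ • E.indicator (fun _ => (1:ℂ)) ζ) 0 1 := by
  rw [← integral_sg, hE, ← integral_indicator hm]
  · congr 1
    ext ζ
    by_cases h : ζ ∈ E
    · simp [h]
    · simp [h]
  · exact (integrable_hrk hw).aestronglyMeasurable.smul
      (measurable_const.indicator hm).aestronglyMeasurable

theorem differentiableOn_hE {E : Set ℂ} (hm : MeasurableSet E) :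
    DifferentiableOn ℂ (hE E) (Metric.ball (0:ℂ) 1) := by
  have := differentiableOn_circleAverage_herglotzRieszKernel_smul (circleIntegrable_ind hm)
  apply this.congr
  intro w hw
  exact hE_eq_circleAverage hm hw

theorem hE_re {E : Set ℂ} {w : ℂ} (hw : w ∈ Metric.ball (0:ℂ) 1) :
    (hE E w).re = ∫ ζ in E, poissonKernel 0 w ζ ∂sg := by
  rw [hE]
  have h1 := integral_re (𝕜 := ℂ) ((integrable_hrk hw).integrableOn (s := E))
  simp only [RCLike.re_to_complex] at h1
  rw [← h1]
  congr 1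
  ext ζ
  rw [poissonKernel_eq_re_herglotzRieszKernel]
  rfl

theorem hE_re_nonneg {E : Set ℂ} {w : ℂ} (hw : w ∈ Metric.ball (0:ℂ) 1) :
    0 ≤ (hE E w).re := by
  rw [hE_re hw]
  apply integral_nonneg_of_ae
  filter_upwards [ae_restrict_of_ae (s := E) ae_norm_eq_one] with ζ hζ
  exact (poissonKernel_pos hw hζ).le

theorem hE_re_compl {E : Set ℂ} (hm : MeasurableSet E) {w : ℂ} (hw : w ∈ Metric.ball (0:ℂ) 1) :
    (hE E w).re + (hE Eᶜ w).re = 1 := by
  rw [hE_re hw, hE_re hw, integral_add_compl hm (integrable_poissonKernel hw),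
    integral_poissonKernel hw]

theorem hE_re_le_one {E : Set ℂ} (hm : MeasurableSet E) {w : ℂ} (hw : w ∈ Metric.ball (0:ℂ) 1) :
    (hE E w).re ≤ 1 := by
  have h1 := hE_re_compl hm hw
  have h2 := hE_re_nonneg (E := Eᶜ) hw
  linarith

theorem hE_re_pos {E : Set ℂ} (hpos : sg E ≠ 0) {w : ℂ}
    (hw : w ∈ Metric.ball (0:ℂ) 1) : 0 < (hE E w).re := by
  rw [hE_re hw]
  rw [integral_pos_iff_support_of_nonneg_ae]
  · have h1 : ∀ᵐ ζ ∂(sg.restrict E), ζ ∈ Function.support (poissonKernel 0 w) := by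
      filter_upwards [ae_restrict_of_ae (s := E) ae_norm_eq_one] with ζ hζ
      exact (poissonKernel_pos hw hζ).ne'
    have h2 : (sg.restrict E) (Function.support (poissonKernel 0 w)) = (sg.restrict E) univ := by
      apply measure_congr
      exact eventuallyEq_univ.mpr h1
    rw [h2, Measure.restrict_apply_univ]
    exact pos_iff_ne_zero.mpr hpos
  · filter_upwards [ae_restrict_of_ae (s := E) ae_norm_eq_one] with ζ hζ
    exact (poissonKernel_pos hw hζ).le
  · exact (integrable_poissonKernel hw).integrableOn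

theorem hE_re_lt_one {E : Set ℂ} (hm : MeasurableSet E) (hpos : sg Eᶜ ≠ 0) {w : ℂ}
    (hw : w ∈ Metric.ball (0:ℂ) 1) : (hE E w).re < 1 := by
  have h1 := hE_re_compl hm hw
  have h2 := hE_re_pos hpos hw
  linarith

theorem hE_zero (E : Set ℂ) : hE E 0 = ((sg.real E : ℝ) : ℂ) := by
  have h1 : hE E 0 = ∫ ζ in E, (1:ℂ) ∂sg := by
    rw [hE]
    apply integral_congr_ae
    filter_upwards [ae_restrict_of_ae (s := E) ae_norm_eq_one] with ζ hζ
    rw [herglotzRieszKernel_def]
    have : ζ ≠ 0 := by rw [← norm_pos_iff, hζ]; exact one_pos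
    simp [this]
  rw [h1]
  simp

theorem norm_sub_symm {r : ℝ} (hr : 0 < r) {η ζ : ℂ} (h0 : ‖η‖ = 1) (h1 : ‖ζ‖ = 1) :
    ‖η - r * ζ‖ = ‖ζ - r * η‖ := by
  have h2 := norm_sub_reflect hr h0 h1
  have h3 : r * ‖ζ - η / r‖ = ‖η - r * ζ‖ := by
    have : η - (r : ℂ) * ζ = - (r * (ζ - η / r)) := by
      have : (r : ℂ) ≠ 0 := by exact_mod_cast hr.ne'
      field_simp
      ring
    rw [this, norm_neg, norm_mul, Complex.norm_real, Real.norm_of_nonneg hr.le]
  rw [← h3, h2]

theorem poissonKernel_symm {r : ℝ} (hr : 0 < r) {η ζ : ℂ} (h0 : ‖η‖ = 1) (h1 : ‖ζ‖ = 1) :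
    poissonKernel 0 (r * ζ) η = poissonKernel 0 (r * η) ζ := by
  rw [poissonKernel_def, poissonKernel_def]
  simp only [sub_zero]
  rw [norm_sub_symm hr h0 h1, h0, h1, norm_mul, norm_mul, h0, h1]

/-- The bounded analytic function `exp (hE E)`. -/
noncomputable def expE (E : Set ℂ) (hm : MeasurableSet E) : HInf :=
  mk (fun w => Complex.exp (hE E w)) ((differentiableOn_hE hm).cexp) (Real.exp 1) (by
    intro z hz
    rw [Complex.norm_exp]
    exact Real.exp_le_exp.mpr (hE_re_le_one hm hz))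

theorem ev_expE {E : Set ℂ} (hm : MeasurableSet E) {z : ℂ} (hz : z ∈ Metric.ball (0:ℂ) 1) :
    ev (expE E hm) z = Complex.exp (hE E z) := ev_mk _ _ _ _ hz

theorem tendsto_hE_re_aux {E : Set ℂ} (hm : MeasurableSet E) :
    ∀ᵐ ζ ∂sg, Tendsto (fun r : ℝ => (hE E (r * ζ)).re) (𝓝[<] 1)
      (𝓝 (Real.log ‖bv (expE E hm) ζ‖)) := by
  filter_upwards [tendsto_bv (expE E hm), ae_norm_eq_one] with ζ h1 h2
  have h3 := h1.norm
  have h4 : ∀ᶠ r : ℝ in 𝓝[<] 1, ‖ev (expE E hm) (r * ζ)‖ = Real.exp (hE E (r * ζ)).re := by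
    filter_upwards [eventually_mem_ball h2] with r hr
    rw [ev_expE hm hr, Complex.norm_exp]
  have h5 : 1 ≤ ‖bv (expE E hm) ζ‖ := by
    apply ge_of_tendsto h3
    filter_upwards [h4, eventually_mem_ball h2] with r hr hr2
    rw [hr]
    exact Real.one_le_exp (hE_re_nonneg hr2)
  have h6 := h3.log (by linarith)
  apply h6.congr'
  filter_upwards [h4] with r hr
  rw [hr, Real.log_exp]

theorem fubini_aux {E : Set ℂ} {r : ℝ} (hr : 0 < r) (hr1 : r < 1) (n : ℕ) :
    ∫ ζ, ζ ^ n * ((hE E (r * ζ)).re : ℂ) ∂sg = r ^ n * ∫ η in E, η ^ n ∂sg := by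
  have hball : ∀ {ζ : ℂ}, ‖ζ‖ = 1 → (r:ℂ) * ζ ∈ Metric.ball (0:ℂ) 1 := by
    intro ζ hζ
    rw [mem_ball_zero_iff, norm_mul, hζ, mul_one, Complex.norm_real, Real.norm_of_nonneg hr.le]
    exact hr1
  set Φ : ℂ → ℂ → ℂ := fun ζ η => ζ ^ n * (poissonKernel 0 (r * ζ) η : ℂ) with hΦ
  have h1 : ∫ ζ, ζ ^ n * ((hE E (r * ζ)).re : ℂ) ∂sg = ∫ ζ, ∫ η in E, Φ ζ η ∂sg ∂sg := by
    apply integral_congr_ae
    filter_upwards [ae_norm_eq_one] with ζ hζ
    rw [hE_re (hball hζ), hΦ]
    simp only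
    rw [integral_const_mul, integral_complex_ofReal]
  have h2 : ∀ η : ℂ, ‖η‖ = 1 → ∫ ζ, Φ ζ η ∂sg = (r * η) ^ n := by
    intro η hη
    have h3 := poisson_sg (f := fun z => z ^ n) (w := r * η)
      (Differentiable.diffContOnCl (by fun_prop)) (hball hη)
    rw [← h3]
    apply integral_congr_ae
    filter_upwards [ae_norm_eq_one] with ζ hζ
    rw [hΦ]
    simp only
    rw [poissonKernel_symm hr hη hζ]
    ring
  have hmeas : Measurable (fun p : ℂ × ℂ => Φ p.1 p.2) := by
    simp only [hΦ, poissonKernel_def]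
    fun_prop
  have hint : Integrable (Function.uncurry Φ) (sg.prod (sg.restrict E)) := by
    refine Integrable.of_bound hmeas.aestronglyMeasurable (1 / (1 - r) ^ 2) ?_
    · have ha1 : ∀ᵐ p ∂(sg.prod (sg.restrict E)), ‖p.1‖ = 1 :=
        Measure.quasiMeasurePreserving_fst.ae ae_norm_eq_one
      have ha2 : ∀ᵐ p ∂(sg.prod (sg.restrict E)), ‖p.2‖ = 1 :=
        Measure.quasiMeasurePreserving_snd.ae (ae_restrict_of_ae ae_norm_eq_one)
      filter_upwards [ha1, ha2] with p hp1 hp2
      rw [Function.uncurry, hΦ]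
      simp only
      rw [norm_mul, norm_pow, hp1, one_pow, one_mul, Complex.norm_real,
        Real.norm_of_nonneg (poissonKernel_pos (hball hp1) hp2).le, poissonKernel_def, sub_zero,
        sub_zero, hp2, norm_mul, hp1, mul_one, Complex.norm_real, Real.norm_of_nonneg hr.le]
      have h5 := one_sub_le_norm_sub hr hr1 hp1 hp2
      have h6 : 0 < 1 - r := by linarith
      gcongr
      nlinarith
  rw [h1, integral_integral_swap hint, ← integral_const_mul]
  apply integral_congr_ae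
  filter_upwards [ae_restrict_of_ae (s := E) ae_norm_eq_one] with η hη
  rw [h2 η hη, mul_pow]

/-- Radial boundary values of the harmonic measure of `E`. -/
theorem tendsto_hE_re {E : Set ℂ} (hm : MeasurableSet E) :
    ∀ᵐ ζ ∂sg, Tendsto (fun r : ℝ => (hE E (r * ζ)).re) (𝓝[<] 1)
      (𝓝 (E.indicator (fun _ => (1:ℝ)) ζ)) := by
  set u : ℂ → ℝ := fun ζ => Real.log ‖bv (expE E hm) ζ‖ with hu
  have hum : Measurable u := (measurable_bv _).norm.log
  have hlim := tendsto_hE_re_aux hm
  have hrange : ∀ {r : ℝ} {ζ : ℂ}, (r:ℂ) * ζ ∈ Metric.ball (0:ℂ) 1 →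
      0 ≤ (hE E (r * ζ)).re ∧ (hE E (r * ζ)).re ≤ 1 := fun h =>
    ⟨hE_re_nonneg h, hE_re_le_one hm h⟩
  have hu01 : ∀ᵐ ζ ∂sg, 0 ≤ u ζ ∧ u ζ ≤ 1 := by
    filter_upwards [hlim, ae_norm_eq_one] with ζ h1 h2
    constructor
    · apply ge_of_tendsto h1
      filter_upwards [eventually_mem_ball h2] with r hr
      exact (hrange hr).1
    · apply le_of_tendsto h1
      filter_upwards [eventually_mem_ball h2] with r hr
      exact (hrange hr).2
  -- nonnegative moments
  have hmom : ∀ n : ℕ, ∫ ζ, ζ ^ n * (u ζ : ℂ) ∂sg = ∫ η in E, η ^ n ∂sg := by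
    intro n
    have h1 : Tendsto (fun k => ∫ ζ, ζ ^ n * ((hE E (rad k * ζ)).re : ℂ) ∂sg) atTop
        (𝓝 (∫ ζ, ζ ^ n * (u ζ : ℂ) ∂sg)) := by
      apply tendsto_integral_of_dominated_convergence (fun _ => 1)
      · intro k
        apply AEStronglyMeasurable.mul
        · have : Measurable (fun ζ : ℂ => ζ ^ n) := by fun_prop
          exact this.aestronglyMeasurable
        · apply aesm_of_continuousOn
          apply Complex.continuous_ofReal.comp_continuousOn
          apply Complex.continuous_re.comp_continuousOn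
          have := (diffContOnCl_dilate (differentiableOn_hE hm) (rad_pos k).le
            (rad_lt_one k)).continuousOn
          rw [closure_ball _ one_ne_zero] at this
          exact this.mono sphere_subset_closedBall
      · exact integrable_const _
      · intro k
        filter_upwards [ae_norm_eq_one] with ζ hζ
        rw [norm_mul, norm_pow, hζ, one_pow, one_mul, Complex.norm_real]
        have hb : (rad k:ℂ) * ζ ∈ Metric.ball (0:ℂ) 1 := by
          rw [mem_ball_zero_iff, norm_mul, hζ, mul_one, Complex.norm_real,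
            Real.norm_of_nonneg (rad_pos k).le]
          exact rad_lt_one k
        rw [Real.norm_of_nonneg (hrange hb).1]
        exact (hrange hb).2
      · filter_upwards [hlim] with ζ hζ
        apply Tendsto.const_mul
        exact (Complex.continuous_ofReal.tendsto _).comp (hζ.comp tendsto_rad)
    have h2 : Tendsto (fun k => (rad k : ℂ) ^ n * ∫ η in E, η ^ n ∂sg) atTop
        (𝓝 (∫ η in E, η ^ n ∂sg)) := by
      have h3 := tendsto_rad_mul 1
      simp only [mul_one] at h3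
      have h4 := (h3.pow n).mul_const (∫ η in E, η ^ n ∂sg)
      simpa using h4
    have h3 : (fun k => ∫ ζ, ζ ^ n * ((hE E (rad k * ζ)).re : ℂ) ∂sg) =
        fun k => (rad k : ℂ) ^ n * ∫ η in E, η ^ n ∂sg := by
      funext k
      exact fubini_aux (rad_pos k) (rad_lt_one k) n
    rw [h3] at h1
    exact tendsto_nhds_unique h1 h2
  -- the difference
  set χ : ℂ → ℝ := E.indicator (fun _ => (1:ℝ)) with hχ
  have hχm : Measurable χ := measurable_const.indicator hm
  have hχ01 : ∀ ζ, 0 ≤ χ ζ ∧ χ ζ ≤ 1 := by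
    intro ζ
    by_cases h : ζ ∈ E
    · simp [hχ, h]
    · simp [hχ, h]
  have hvm : Measurable (fun ζ => ((u ζ - χ ζ : ℝ) : ℂ)) :=
    Complex.measurable_ofReal.comp (hum.sub hχm)
  have hvb : ∀ᵐ ζ ∂sg, ‖((u ζ - χ ζ : ℝ) : ℂ)‖ ≤ 1 := by
    filter_upwards [hu01] with ζ hζ
    rw [Complex.norm_real, Real.norm_eq_abs, abs_le]
    have := hχ01 ζ
    constructor <;> linarith [hζ.1, hζ.2]
  have hint1 : ∀ n : ℕ, Integrable (fun ζ : ℂ => ζ ^ n * (u ζ : ℂ)) sg := by
    intro n
    apply Integrable.of_bound (C := 1)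
    · apply Measurable.aestronglyMeasurable
      fun_prop
    · filter_upwards [hu01, ae_norm_eq_one] with ζ h1 h2
      rw [norm_mul, norm_pow, h2, one_pow, one_mul, Complex.norm_real, Real.norm_of_nonneg h1.1]
      exact h1.2
  have hint2 : ∀ n : ℕ, Integrable (fun ζ : ℂ => ζ ^ n * (χ ζ : ℂ)) sg := by
    intro n
    apply Integrable.of_bound (C := 1)
    · apply Measurable.aestronglyMeasurable
      fun_prop
    · filter_upwards [ae_norm_eq_one] with ζ h2
      rw [norm_mul, norm_pow, h2, one_pow, one_mul, Complex.norm_real,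
        Real.norm_of_nonneg (hχ01 ζ).1]
      exact (hχ01 ζ).2
  have hnat : ∀ n : ℕ, ∫ ζ, ζ ^ n * ((u ζ - χ ζ : ℝ) : ℂ) ∂sg = 0 := by
    intro n
    have h1 : ∫ ζ, ζ ^ n * ((u ζ - χ ζ : ℝ) : ℂ) ∂sg =
        ∫ ζ, (ζ ^ n * (u ζ : ℂ) - ζ ^ n * (χ ζ : ℂ)) ∂sg := by
      congr 1
      ext ζ
      push_cast
      ring
    rw [h1, integral_sub (hint1 n) (hint2 n), hmom n, ← integral_indicator hm, sub_eq_zero]
    congr 1
    ext ζ
    by_cases h : ζ ∈ E
    · simp [hχ, h]
    · simp [hχ, h]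
  have hzero := ae_zero_of_moments hvm hvb (by
    intro n
    obtain ⟨m, rfl | rfl⟩ := n.eq_nat_or_neg
    · simpa using hnat m
    · have h1 := hnat m
      have h2 : ∫ ζ, ζ ^ (-(m:ℤ)) * ((u ζ - χ ζ : ℝ) : ℂ) ∂sg =
          ∫ ζ, (starRingEnd ℂ) (ζ ^ m * ((u ζ - χ ζ : ℝ) : ℂ)) ∂sg := by
        apply integral_congr_ae
        filter_upwards [ae_norm_eq_one] with ζ hζ
        rw [map_mul, Complex.conj_ofReal, map_pow]
        congr 1
        have h3 : (starRingEnd ℂ) ζ = ζ⁻¹ := (Complex.inv_eq_conj hζ).symm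
        rw [h3, zpow_neg, zpow_natCast, inv_pow]
      rw [h2, integral_conj, h1, map_zero])
  filter_upwards [hlim, hzero] with ζ h1 h2
  have h3 : u ζ = χ ζ := by
    have : ((u ζ - χ ζ : ℝ) : ℂ) = 0 := h2
    have h4 : u ζ - χ ζ = 0 := by exact_mod_cast this
    linarith
  have h5 : Tendsto (fun r : ℝ => (hE E (r * ζ)).re) (𝓝[<] 1) (𝓝 (u ζ)) := h1
  rw [h3] at h5
  exact h5

end Pool.Agent.Hinf
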