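import Mathlib

/-!
# A log-periodic Blaschke product on the upper half plane
-/

set_option autoImplicit false
set_option linter.unusedSimpArgs false

open Complex Metric Set Filter Topology Real

namespace Pool.Agent.Hinf

/-- The basic Blaschke factor of the upper half plane. -/
noncomputable def bf (z : ℂ) : ℂ := (z - I) / (z + I)

theorem one_le_norm_add_I {z : ℂ} (hz : 0 ≤ z.im) : 1 ≤ ‖z + I‖ := by
  have h1 : 1 ≤ |(z + I).im| := by
    rw [Complex.add_im, Complex.I_im, abs_of_nonneg (by linarith)]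
    linarith
  exact h1.trans (Complex.abs_im_le_norm _)

theorem norm_le_norm_add_I {z : ℂ} (hz : 0 ≤ z.im) : ‖z‖ ≤ ‖z + I‖ := by
  have h : ‖z‖ ^ 2 ≤ ‖z + I‖ ^ 2 := by
    rw [← Complex.normSq_eq_norm_sq, ← Complex.normSq_eq_norm_sq, Complex.normSq_apply,
      Complex.normSq_apply]
    simp only [Complex.sub_re, Complex.sub_im, Complex.add_re, Complex.add_im, Complex.I_re,
      Complex.I_im]
    nlinarith
  exact (sq_le_sq₀ (norm_nonneg _) (norm_nonneg _)).mp h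

theorem add_I_ne_zero' {z : ℂ} (hz : 0 ≤ z.im) : z + I ≠ 0 := by
  intro h
  have := congrArg Complex.im h
  simp at this
  linarith

theorem norm_bf_le {z : ℂ} (hz : 0 ≤ z.im) : ‖bf z‖ ≤ 1 := by
  rw [bf, norm_div, div_le_one (norm_pos_iff.mpr (add_I_ne_zero' hz))]
  have h : ‖z - I‖ ^ 2 ≤ ‖z + I‖ ^ 2 := by
    rw [← Complex.normSq_eq_norm_sq, ← Complex.normSq_eq_norm_sq, Complex.normSq_apply,
      Complex.normSq_apply]
    simp only [Complex.sub_re, Complex.sub_im, Complex.add_re, Complex.add_im, Complex.I_re,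
      Complex.I_im]
    nlinarith
  exact (sq_le_sq₀ (norm_nonneg _) (norm_nonneg _)).mp h

theorem bf_ofReal (x : ℝ) : bf x = - Complex.exp ((2 * Real.arctan x : ℝ) * I) := by
  set φ := Real.arctan x with hφ
  have hc : 0 < Real.cos φ := Real.cos_arctan_pos x
  have hx : x = Real.sin φ / Real.cos φ := by
    rw [← Real.tan_eq_sin_div_cos, hφ, Real.tan_arctan]
  have hne : (x : ℂ) + I ≠ 0 := add_I_ne_zero' (by simp)
  rw [bf, div_eq_iff hne]
  have hcC : (Real.cos φ : ℂ) ≠ 0 := by exact_mod_cast hc.ne'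
  have hxC : (x : ℂ) = Real.sin φ / Real.cos φ := by rw [hx]; push_cast; rfl
  have h2 : Complex.exp ((2 * φ : ℝ) * I) = (Real.cos φ + Real.sin φ * I) ^ 2 := by
    rw [Complex.ofReal_cos, Complex.ofReal_sin, ← Complex.exp_mul_I, ← Complex.exp_nat_mul]
    congr 1
    push_cast
    ring
  have h3 : (Real.cos φ : ℂ) ^ 2 + (Real.sin φ : ℂ) ^ 2 = 1 := by
    have := Real.cos_sq_add_sin_sq φ
    exact_mod_cast this
  have hxc : (x : ℂ) * (Real.cos φ : ℂ) = Real.sin φ := by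
    rw [hxC, div_mul_cancel₀ _ hcC]
  have hI : I ^ 2 = -1 := Complex.I_sq
  rw [h2]
  apply mul_right_cancel₀ hcC
  generalize (Real.cos φ : ℂ) = c at *
  generalize (Real.sin φ : ℂ) = s at *
  have e1 : ((x : ℂ) - I) * c = s - I * c := by rw [← hxc]; ring
  have e2 : -(c + s * I) ^ 2 * ((x : ℂ) + I) * c = -(c + s * I) ^ 2 * (s + I * c) := by
    rw [← hxc]; ring
  rw [e1, e2]
  have e3 : (c + s * I) * (s + I * c) = I := by
    linear_combination (s * c) * hI + I * h3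
  calc s - I * c = -(c + s * I) * I := by linear_combination (s) * hI
    _ = -(c + s * I) * ((c + s * I) * (s + I * c)) := by rw [e3]
    _ = -(c + s * I) ^ 2 * (s + I * c) := by ring

theorem norm_bf_sub_one {z : ℂ} (hz : 0 ≤ z.im) (hz0 : z ≠ 0) : ‖bf z - 1‖ ≤ 2 / ‖z‖ := by
  have h : bf z - 1 = -(2 * I) / (z + I) := by
    rw [bf, div_sub_one (add_I_ne_zero' hz)]
    congr 1
    ring
  rw [h, norm_div, norm_neg, norm_mul, Complex.norm_I, mul_one]
  have h2 : ‖(2 : ℂ)‖ = 2 := by simp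
  rw [h2]
  exact div_le_div_of_nonneg_left (by norm_num) (norm_pos_iff.mpr hz0) (norm_le_norm_add_I hz)

theorem norm_bf_add_one {z : ℂ} (hz : 0 ≤ z.im) : ‖bf z + 1‖ ≤ 2 * ‖z‖ := by
  have h : bf z + 1 = (2 * z) / (z + I) := by
    rw [bf, div_add_one (add_I_ne_zero' hz)]
    congr 1
    ring
  have h2 : ‖(2 : ℂ)‖ = 2 := by simp
  rw [h, norm_div, norm_mul, h2]
  exact div_le_self (by positivity) (one_le_norm_add_I hz)

theorem norm_bf_ofReal (x : ℝ) : ‖bf x‖ = 1 := by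
  rw [bf_ofReal, norm_neg, Complex.norm_exp_ofReal_mul_I]

theorem differentiableAt_bf {z : ℂ} (hz : 0 ≤ z.im) : DifferentiableAt ℂ bf z := by
  unfold bf
  exact (differentiableAt_id.sub_const _).div (differentiableAt_id.add_const _) (add_I_ne_zero' hz)

/-- The basic factor of the log-periodic product. -/
noncomputable def fn (q : ℝ) (n : ℕ) (z : ℂ) : ℂ :=
  -(bf ((q ^ n : ℝ) * z) * bf (((q ^ (n + 1))⁻¹ : ℝ) * z))

theorem im_real_mul_nonneg {c : ℝ} (hc : 0 ≤ c) {z : ℂ} (hz : 0 ≤ z.im) : 0 ≤ ((c : ℂ) * z).im := by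
  rw [Complex.im_ofReal_mul]
  exact mul_nonneg hc hz

theorem norm_fn_le {q : ℝ} (hq : 0 < q) (n : ℕ) {z : ℂ} (hz : 0 ≤ z.im) : ‖fn q n z‖ ≤ 1 := by
  rw [fn, norm_neg, norm_mul]
  have h1 := norm_bf_le (im_real_mul_nonneg (c := q ^ n) (by positivity) hz)
  have h2 := norm_bf_le (im_real_mul_nonneg (c := (q ^ (n + 1))⁻¹) (by positivity) hz)
  exact mul_le_one₀ h1 (norm_nonneg _) h2

theorem norm_fn_sub_one_le {q : ℝ} (hq : 1 < q) (n : ℕ) {z : ℂ} (hz : 0 ≤ z.im) (hz0 : z ≠ 0) :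
    ‖fn q n z - 1‖ ≤ 2 * (1 / ‖z‖ + ‖z‖) * (q⁻¹) ^ n := by
  have hq0 : 0 < q := by linarith
  have hzp : 0 < ‖z‖ := norm_pos_iff.mpr hz0
  set a := ((q ^ n : ℝ) : ℂ) * z with ha
  set b := (((q ^ (n + 1))⁻¹ : ℝ) : ℂ) * z with hb
  have ha0 : 0 ≤ a.im := im_real_mul_nonneg (by positivity) hz
  have hb0 : 0 ≤ b.im := im_real_mul_nonneg (by positivity) hz
  have hane : a ≠ 0 := by
    rw [ha]
    refine mul_ne_zero ?_ hz0
    exact_mod_cast (by positivity : (q ^ n : ℝ) ≠ 0)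
  have hna : ‖a‖ = q ^ n * ‖z‖ := by
    rw [ha, norm_mul, Complex.norm_real, Real.norm_of_nonneg (by positivity)]
  have hnb : ‖b‖ = (q ^ (n + 1))⁻¹ * ‖z‖ := by
    rw [hb, norm_mul, Complex.norm_real, Real.norm_of_nonneg (by positivity)]
  have h : fn q n z - 1 = -(bf a * (bf b + 1)) + (bf a - 1) := by
    rw [fn]; ring
  have h1 : ‖bf a - 1‖ ≤ 2 * (1 / ‖z‖) * (q⁻¹) ^ n := by
    refine (norm_bf_sub_one ha0 hane).trans (le_of_eq ?_)
    rw [hna, inv_pow]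
    field_simp
  have h2 : ‖bf a * (bf b + 1)‖ ≤ 2 * ‖z‖ * (q⁻¹) ^ n := by
    rw [norm_mul]
    calc ‖bf a‖ * ‖bf b + 1‖ ≤ 1 * (2 * ‖b‖) :=
          mul_le_mul (norm_bf_le ha0) (norm_bf_add_one hb0) (norm_nonneg _) zero_le_one
      _ = 2 * ‖z‖ * (q ^ (n + 1))⁻¹ := by rw [hnb]; ring
      _ ≤ 2 * ‖z‖ * (q⁻¹) ^ n := by
          rw [inv_pow]
          gcongr
          · exact hq.le
          · omega
  rw [h]
  calc ‖-(bf a * (bf b + 1)) + (bf a - 1)‖ ≤ ‖-(bf a * (bf b + 1))‖ + ‖bf a - 1‖ := norm_add_le _ _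
    _ ≤ 2 * ‖z‖ * (q⁻¹) ^ n + 2 * (1 / ‖z‖) * (q⁻¹) ^ n := by
        rw [norm_neg]
        exact add_le_add h2 h1
    _ = _ := by ring

/-- The finite products. -/
noncomputable def AN (q : ℝ) (N : ℕ) (z : ℂ) : ℂ := ∏ n ∈ Finset.range N, fn q n z

theorem norm_AN_le {q : ℝ} (hq : 0 < q) (N : ℕ) {z : ℂ} (hz : 0 ≤ z.im) : ‖AN q N z‖ ≤ 1 := by
  rw [AN, norm_prod]
  exact Finset.prod_le_one (fun _ _ => norm_nonneg _) (fun n _ => norm_fn_le hq n hz)

theorem AN_zero (q : ℝ) (z : ℂ) : AN q 0 z = 1 := by simp [AN]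

theorem AN_succ (q : ℝ) (N : ℕ) (z : ℂ) : AN q (N + 1) z = AN q N z * fn q N z := by
  rw [AN, Finset.prod_range_succ, AN]

theorem norm_AN_succ_sub_le {q : ℝ} (hq : 1 < q) (n : ℕ) {z : ℂ} (hz : 0 ≤ z.im) (hz0 : z ≠ 0) :
    ‖AN q (n + 1) z - AN q n z‖ ≤ 2 * (1 / ‖z‖ + ‖z‖) * (q⁻¹) ^ n := by
  rw [AN_succ, show AN q n z * fn q n z - AN q n z = AN q n z * (fn q n z - 1) by ring, norm_mul]
  calc ‖AN q n z‖ * ‖fn q n z - 1‖ ≤ 1 * (2 * (1 / ‖z‖ + ‖z‖) * (q⁻¹) ^ n) :=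
        mul_le_mul (norm_AN_le (by linarith) n hz) (norm_fn_sub_one_le hq n hz hz0)
          (norm_nonneg _) zero_le_one
    _ = _ := by ring

/-- The infinite product. -/
noncomputable def AA (q : ℝ) (z : ℂ) : ℂ := 1 + ∑' n, (AN q (n + 1) z - AN q n z)

theorem summable_geo {q : ℝ} (hq : 1 < q) (c : ℝ) : Summable (fun n : ℕ => c * (q⁻¹) ^ n) :=
  (summable_geometric_of_lt_one (by positivity) (inv_lt_one_of_one_lt₀ hq)).mul_left c

theorem tendsto_AN {q : ℝ} (hq : 1 < q) {z : ℂ} (hz : 0 ≤ z.im) (hz0 : z ≠ 0) :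
    Tendsto (fun N => AN q N z) atTop (𝓝 (AA q z)) := by
  have hs : Summable (fun n => AN q (n + 1) z - AN q n z) :=
    Summable.of_norm_bounded (summable_geo hq (2 * (1 / ‖z‖ + ‖z‖)))
      (fun n => norm_AN_succ_sub_le hq n hz hz0)
  have h := hs.hasSum.tendsto_sum_nat
  have h2 : (fun N => AN q N z)
      = fun N => 1 + ∑ n ∈ Finset.range N, (AN q (n + 1) z - AN q n z) := by
    funext N
    rw [Finset.sum_range_sub (fun n => AN q n z), AN_zero]
    ring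
  rw [h2, AA]
  exact h.const_add 1

theorem norm_AA_le {q : ℝ} (hq : 1 < q) {z : ℂ} (hz : 0 ≤ z.im) (hz0 : z ≠ 0) : ‖AA q z‖ ≤ 1 :=
  le_of_tendsto (tendsto_AN hq hz hz0).norm
    (Eventually.of_forall (fun N => norm_AN_le (by linarith) N hz))

theorem continuousAt_bf {z : ℂ} (hz : 0 ≤ z.im) : ContinuousAt bf z :=
  (differentiableAt_bf hz).continuousAt

theorem differentiableAt_fn {q : ℝ} (hq : 0 < q) (n : ℕ) {z : ℂ} (hz : 0 ≤ z.im) :
    DifferentiableAt ℂ (fn q n) z := by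
  unfold fn
  have h1 : DifferentiableAt ℂ (fun z : ℂ => bf (((q ^ n : ℝ) : ℂ) * z)) z := by
    have := (differentiableAt_bf (im_real_mul_nonneg (c := q ^ n) (by positivity) hz))
    exact DifferentiableAt.comp (f := fun z : ℂ => ((q ^ n : ℝ) : ℂ) * z) z this
      (differentiableAt_id.const_mul _)
  have h2 : DifferentiableAt ℂ (fun z : ℂ => bf ((((q ^ (n + 1))⁻¹ : ℝ) : ℂ) * z)) z := by
    have := (differentiableAt_bf (im_real_mul_nonneg (c := (q ^ (n + 1))⁻¹) (by positivity) hz))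
    exact DifferentiableAt.comp (f := fun z : ℂ => (((q ^ (n + 1))⁻¹ : ℝ) : ℂ) * z) z this
      (differentiableAt_id.const_mul _)
  exact (h1.mul h2).neg

theorem differentiableAt_AN {q : ℝ} (hq : 0 < q) (N : ℕ) {z : ℂ} (hz : 0 ≤ z.im) :
    DifferentiableAt ℂ (AN q N) z := by
  induction N with
  | zero =>
    have : AN q 0 = fun _ => 1 := funext (AN_zero q)
    rw [this]
    exact differentiableAt_const _
  | succ N ih =>
    have : AN q (N + 1) = fun z => AN q N z * fn q N z := funext (AN_succ q N)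
    rw [this]
    exact ih.mul (differentiableAt_fn hq N hz)

/-- bound on an annulus -/
theorem norm_AN_succ_sub_le' {q : ℝ} (hq : 1 < q) (n : ℕ) {z : ℂ} (hz : 0 ≤ z.im) {ρ : ℝ}
    (hρ : 0 < ρ) (h1 : ρ⁻¹ ≤ ‖z‖) (h2 : ‖z‖ ≤ ρ) :
    ‖AN q (n + 1) z - AN q n z‖ ≤ 2 * (ρ + ρ) * (q⁻¹) ^ n := by
  have hzp : 0 < ‖z‖ := lt_of_lt_of_le (by positivity) h1
  have hq0 : 0 < q := by linarith
  refine (norm_AN_succ_sub_le hq n hz (norm_pos_iff.mp hzp)).trans ?_
  have h3 : 1 / ‖z‖ ≤ ρ := by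
    rw [one_div]
    exact inv_le_of_inv_le₀ hρ h1
  gcongr

theorem exists_rho {z : ℂ} (hz0 : z ≠ 0) : ∃ ρ : ℝ, 0 < ρ ∧ ρ⁻¹ < ‖z‖ ∧ ‖z‖ < ρ := by
  have hzp : 0 < ‖z‖ := norm_pos_iff.mpr hz0
  refine ⟨‖z‖ + ‖z‖⁻¹, by positivity, ?_, ?_⟩
  · rw [inv_lt_comm₀ (by positivity) hzp]
    linarith
  · have : 0 < ‖z‖⁻¹ := by positivity
    linarith

theorem differentiableOn_AA {q : ℝ} (hq : 1 < q) :
    DifferentiableOn ℂ (AA q) {z : ℂ | 0 < z.im} := by
  have hq0 : 0 < q := by linarith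
  intro z hz
  have hz' : 0 < z.im := hz
  have hz0 : z ≠ 0 := by
    rintro rfl
    simp at hz'
  obtain ⟨ρ, hρ, h1, h2⟩ := exists_rho hz0
  set S : Set ℂ := {w : ℂ | 0 < w.im} ∩ {w : ℂ | ρ⁻¹ < ‖w‖ ∧ ‖w‖ < ρ} with hS
  have hSo : IsOpen S := by
    refine (isOpen_lt continuous_const Complex.continuous_im).inter ?_
    exact (isOpen_lt continuous_const continuous_norm).inter
      (isOpen_lt continuous_norm continuous_const)
  have hd : DifferentiableOn ℂ (fun w => ∑' n, (AN q (n + 1) w - AN q n w)) S := by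
    refine differentiableOn_tsum_of_summable_norm (summable_geo hq (2 * (ρ + ρ))) ?_ hSo ?_
    · intro n w hw
      have hw' : 0 ≤ w.im := (hw.1 : 0 < w.im).le
      exact ((differentiableAt_AN hq0 (n + 1) hw').sub
        (differentiableAt_AN hq0 n hw')).differentiableWithinAt
    · intro n w hw
      exact norm_AN_succ_sub_le' hq n (hw.1 : 0 < w.im).le hρ hw.2.1.le hw.2.2.le
  have hzS : z ∈ S := ⟨hz', h1, h2⟩
  have := (hd.differentiableAt (hSo.mem_nhds hzS)).const_add 1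
  exact this.differentiableWithinAt

theorem continuousWithinAt_AA {q : ℝ} (hq : 1 < q) {z : ℂ} (hz : 0 ≤ z.im) (hz0 : z ≠ 0) :
    ContinuousWithinAt (AA q) {z : ℂ | 0 ≤ z.im} z := by
  have hq0 : 0 < q := by linarith
  obtain ⟨ρ, hρ, h1, h2⟩ := exists_rho hz0
  set U : Set ℂ := {w : ℂ | ρ⁻¹ < ‖w‖ ∧ ‖w‖ < ρ} with hU
  have hUo : IsOpen U := (isOpen_lt continuous_const continuous_norm).inter
      (isOpen_lt continuous_norm continuous_const)
  set S : Set ℂ := {w : ℂ | 0 ≤ w.im} ∩ U with hS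
  have hd : ContinuousOn (fun w => ∑' n, (AN q (n + 1) w - AN q n w)) S := by
    refine continuousOn_tsum ?_ (summable_geo hq (2 * (ρ + ρ))) ?_
    · intro n w hw
      have hw' : 0 ≤ w.im := hw.1
      exact ((differentiableAt_AN hq0 (n + 1) hw').sub
        (differentiableAt_AN hq0 n hw')).continuousAt.continuousWithinAt
    · intro n w hw
      exact norm_AN_succ_sub_le' hq n hw.1 hρ hw.2.1.le hw.2.2.le
  have hzS : z ∈ S := ⟨hz, h1, h2⟩
  have h := (continuousWithinAt_const (b := (1 : ℂ))).add (hd z hzS)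
  exact h.mono_of_mem_nhdsWithin (inter_mem_nhdsWithin _ (hUo.mem_nhds ⟨h1, h2⟩))

end Pool.Agent.Hinf
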