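import Pool.Agent.Lib.Hinf.Herg

/-!
# Outer functions with two-valued modulus, and boundary uniqueness
-/

set_option autoImplicit false
set_option linter.unusedSimpArgs false

open Complex MeasureTheory Metric Set Filter Topology Real

namespace Pool.Agent.Hinf

/-- The bounded analytic function `exp (c * hE E)`. -/
noncomputable def out (E : Set ℂ) (hm : MeasurableSet E) (c : ℝ) : HInf :=
  mk (fun w => Complex.exp (c * hE E w)) (((differentiableOn_hE hm).const_mul _).cexp)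
    (Real.exp |c|) (by
    intro z hz
    rw [Complex.norm_exp]
    apply Real.exp_le_exp.mpr
    have h1 := hE_re_nonneg (E := E) hz
    have h2 := hE_re_le_one hm hz
    rw [Complex.mul_re, Complex.ofReal_re, Complex.ofReal_im, zero_mul, sub_zero]
    calc c * (hE E z).re ≤ |c| * (hE E z).re := by
          apply mul_le_mul_of_nonneg_right (le_abs_self c) h1
      _ ≤ |c| * 1 := by
          apply mul_le_mul_of_nonneg_left h2 (abs_nonneg c)
      _ = |c| := mul_one _)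

theorem ev_out {E : Set ℂ} (hm : MeasurableSet E) (c : ℝ) {z : ℂ}
    (hz : z ∈ Metric.ball (0:ℂ) 1) : ev (out E hm c) z = Complex.exp (c * hE E z) :=
  ev_mk _ _ _ _ hz

theorem norm_ev_out {E : Set ℂ} (hm : MeasurableSet E) (c : ℝ) {z : ℂ}
    (hz : z ∈ Metric.ball (0:ℂ) 1) : ‖ev (out E hm c) z‖ = Real.exp (c * (hE E z).re) := by
  rw [ev_out hm c hz, Complex.norm_exp, Complex.mul_re, Complex.ofReal_re, Complex.ofReal_im,
    zero_mul, sub_zero]

theorem norm_bv_out {E : Set ℂ} (hm : MeasurableSet E) (c : ℝ) :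
    ∀ᵐ ζ ∂sg, ‖bv (out E hm c) ζ‖ = Real.exp (c * E.indicator (fun _ => (1:ℝ)) ζ) := by
  filter_upwards [tendsto_bv (out E hm c), tendsto_hE_re hm, ae_norm_eq_one] with ζ h1 h2 h3
  have h4 : Tendsto (fun r : ℝ => ‖ev (out E hm c) (r * ζ)‖) (𝓝[<] 1)
      (𝓝 (Real.exp (c * E.indicator (fun _ => (1:ℝ)) ζ))) := by
    have h5 : Tendsto (fun r : ℝ => Real.exp (c * (hE E (r * ζ)).re)) (𝓝[<] 1)
        (𝓝 (Real.exp (c * E.indicator (fun _ => (1:ℝ)) ζ))) :=
      (Real.continuous_exp.tendsto _).comp (h2.const_mul c)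
    apply h5.congr'
    filter_upwards [eventually_mem_ball h3] with r hr
    rw [norm_ev_out hm c hr]
  exact tendsto_nhds_unique h1.norm h4

theorem ev_out_zero {E : Set ℂ} (hm : MeasurableSet E) (c : ℝ) :
    ev (out E hm c) 0 = ((Real.exp (c * sg.real E) : ℝ) : ℂ) := by
  rw [ev_out hm c zero_mem_D, hE_zero]
  push_cast
  rfl

/-- **Boundary uniqueness**: a bounded analytic function whose boundary values vanish on a set of
positive measure is zero. -/
theorem eq_zero_of_bv {f : HInf} (h : sg {ζ | bv f ζ = 0} ≠ 0) : f = 0 := by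
  set E : Set ℂ := {ζ | bv f ζ = 0} with hEdef
  have hm : MeasurableSet E := measurable_bv f (measurableSet_singleton 0)
  apply ext_ev
  intro z hz
  rw [ev_zero]
  have hpos := hE_re_pos h hz
  have hbound : ∀ c : ℝ, 0 ≤ c → ‖ev f z‖ ≤ ‖f‖ * Real.exp (-(c * (hE E z).re)) := by
    intro c hc
    have h1 : ‖f * out E hm c‖ ≤ ‖f‖ := by
      apply norm_le_of_bv
      filter_upwards [bv_mul f (out E hm c), norm_bv_out hm c, norm_bv_le f] with ζ h2 h3 h4
      rw [h2, norm_mul, h3]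
      by_cases hζ : ζ ∈ E
      · have : bv f ζ = 0 := hζ
        rw [this, norm_zero, zero_mul]
        exact norm_nonneg _
      · rw [indicator_of_notMem hζ, mul_zero, Real.exp_zero, mul_one]
        exact h4
    have h2 := (norm_ev_le (f * out E hm c) z).trans h1
    rw [ev_mul, norm_mul, norm_ev_out hm c hz] at h2
    rw [Real.exp_neg, ← div_eq_mul_inv, le_div_iff₀ (Real.exp_pos _)]
    exact h2
  have hlim : Tendsto (fun c : ℝ => ‖f‖ * Real.exp (-(c * (hE E z).re))) atTop (𝓝 (‖f‖ * 0)) := by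
    apply Tendsto.const_mul
    apply Real.tendsto_exp_neg_atTop_nhds_zero.comp
    exact tendsto_id.atTop_mul_const hpos
  rw [mul_zero] at hlim
  have h0 : ‖ev f z‖ ≤ 0 := by
    apply ge_of_tendsto hlim
    filter_upwards [eventually_ge_atTop 0] with c hc
    exact hbound c hc
  exact norm_le_zero_iff.mp h0

theorem ae_bv_ne_zero {f : HInf} (hf : f ≠ 0) : ∀ᵐ ζ ∂sg, bv f ζ ≠ 0 := by
  by_contra h
  apply hf
  apply eq_zero_of_bv
  intro h2
  apply h
  show sg {ζ | ¬ (bv f ζ ≠ 0)} = 0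
  simpa using h2

/-- The function `exp (i π hE E)`. -/
noncomputable def ZE (E : Set ℂ) (w : ℂ) : ℂ := Complex.exp (I * π * hE E w)

theorem ZE_ne_zero (E : Set ℂ) (w : ℂ) : ZE E w ≠ 0 := Complex.exp_ne_zero _

theorem differentiableOn_ZE {E : Set ℂ} (hm : MeasurableSet E) :
    DifferentiableOn ℂ (ZE E) (Metric.ball (0:ℂ) 1) :=
  ((differentiableOn_hE hm).const_mul _).cexp

theorem ZE_eq (E : Set ℂ) (w : ℂ) :
    ZE E w = (Real.exp (-(π * (hE E w).im)) : ℂ) * Complex.exp ((π * (hE E w).re : ℝ) * I) := by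
  rw [ZE, Complex.ofReal_exp, ← Complex.exp_add]
  congr 1
  apply Complex.ext
  · simp
  · simp

theorem norm_ZE (E : Set ℂ) (w : ℂ) : ‖ZE E w‖ = Real.exp (-(π * (hE E w).im)) := by
  rw [ZE_eq, norm_mul, Complex.norm_exp_ofReal_mul_I, mul_one, Complex.norm_real,
    Real.norm_of_nonneg (Real.exp_pos _).le]

theorem ZE_im (E : Set ℂ) (w : ℂ) :
    (ZE E w).im = ‖ZE E w‖ * Real.sin (π * (hE E w).re) := by
  rw [norm_ZE]
  nth_rw 1 [ZE_eq]
  rw [Complex.im_ofReal_mul, Complex.exp_ofReal_mul_I_im]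

theorem ZE_im_nonneg {E : Set ℂ} (hm : MeasurableSet E) {w : ℂ} (hw : w ∈ Metric.ball (0:ℂ) 1) :
    0 ≤ (ZE E w).im := by
  rw [ZE_im]
  apply mul_nonneg (norm_nonneg _)
  apply Real.sin_nonneg_of_nonneg_of_le_pi
  · exact mul_nonneg Real.pi_pos.le (hE_re_nonneg hw)
  · have := hE_re_le_one hm hw
    nlinarith [Real.pi_pos]

theorem ZE_im_pos {E : Set ℂ} (hm : MeasurableSet E) (h0 : sg E ≠ 0) (h1 : sg Eᶜ ≠ 0) {w : ℂ}
    (hw : w ∈ Metric.ball (0:ℂ) 1) : 0 < (ZE E w).im := by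
  rw [ZE_im]
  apply mul_pos (norm_pos_iff.mpr (ZE_ne_zero _ _))
  apply Real.sin_pos_of_pos_of_lt_pi
  · exact mul_pos Real.pi_pos (hE_re_pos h0 hw)
  · have := hE_re_lt_one hm h1 hw
    nlinarith [Real.pi_pos]

theorem add_I_ne_zero {z : ℂ} (hz : 0 ≤ z.im) : z + I ≠ 0 := by
  intro h
  have := congrArg Complex.im h
  simp at this
  linarith

theorem norm_sub_I_le {z : ℂ} (hz : 0 ≤ z.im) : ‖z - I‖ ≤ ‖z + I‖ := by
  have h : ‖z - I‖ ^ 2 ≤ ‖z + I‖ ^ 2 := by
    rw [← Complex.normSq_eq_norm_sq, ← Complex.normSq_eq_norm_sq, Complex.normSq_apply,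
      Complex.normSq_apply]
    simp only [Complex.sub_re, Complex.sub_im, Complex.add_re, Complex.add_im, Complex.I_re,
      Complex.I_im]
    nlinarith
  exact (sq_le_sq₀ (norm_nonneg _) (norm_nonneg _)).mp h

/-- The Cayley transform of `ZE E`. -/
noncomputable def kap (E : Set ℂ) (hm : MeasurableSet E) : HInf :=
  mk (fun w => (ZE E w - I) / (ZE E w + I))
    (((differentiableOn_ZE hm).sub_const _).div ((differentiableOn_ZE hm).add_const _)
      (fun _ hw => add_I_ne_zero (ZE_im_nonneg hm hw))) 1 (by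
    intro z hz
    have h1 := ZE_im_nonneg hm hz
    rw [norm_div, div_le_one (norm_pos_iff.mpr (add_I_ne_zero h1))]
    exact norm_sub_I_le h1)

theorem ev_kap {E : Set ℂ} (hm : MeasurableSet E) {z : ℂ}
    (hz : z ∈ Metric.ball (0:ℂ) 1) : ev (kap E hm) z = (ZE E z - I) / (ZE E z + I) :=
  ev_mk _ _ _ _ hz

/-- Radial limits of `ZE E`: real, nonzero, negative exactly on `E`. -/
theorem tendsto_ZE {E : Set ℂ} (hm : MeasurableSet E) :
    ∀ᵐ ζ ∂sg, ∃ x : ℝ, x ≠ 0 ∧ Tendsto (fun r : ℝ => ZE E (r * ζ)) (𝓝[<] 1) (𝓝 (x : ℂ)) ∧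
      (ζ ∈ E → x < 0) ∧ (ζ ∉ E → 0 < x) := by
  have hk1 : kap E hm - 1 ≠ 0 := by
    intro h
    have h1 : ev (kap E hm - 1) 0 = 0 := by rw [h, ev_zero]
    rw [ev_sub, ev_kap hm zero_mem_D, ev_one zero_mem_D] at h1
    have h2 := add_I_ne_zero (ZE_im_nonneg hm zero_mem_D)
    field_simp at h1
    have h3 := congrArg Complex.im h1
    simp at h3
    linarith
  have hk2 : kap E hm + 1 ≠ 0 := by
    intro h
    have h1 : ev (kap E hm + 1) 0 = 0 := by rw [h, ev_zero]
    rw [ev_add, ev_kap hm zero_mem_D, ev_one zero_mem_D] at h1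
    have h2 := add_I_ne_zero (ZE_im_nonneg hm zero_mem_D)
    field_simp at h1
    have h3 := ZE_ne_zero E 0
    apply h3
    have h4 : 2 * ZE E 0 = 0 := by linear_combination h1
    simpa using h4
  filter_upwards [tendsto_bv (kap E hm), ae_bv_ne_zero hk1, ae_bv_ne_zero hk2,
    bv_sub (kap E hm) 1, bv_add (kap E hm) 1, bv_one, tendsto_hE_re hm, ae_norm_eq_one] with
    ζ h1 h2 h3 h4 h5 h6 h7 h8
  rw [h4, h6] at h2
  rw [h5, h6] at h3
  set κ := bv (kap E hm) ζ with hκ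
  have hne1 : 1 - κ ≠ 0 := by
    intro h; apply h2; linear_combination -h
  have hlim : Tendsto (fun r : ℝ => I * (1 + ev (kap E hm) (r * ζ)) / (1 - ev (kap E hm) (r * ζ)))
      (𝓝[<] 1) (𝓝 (I * (1 + κ) / (1 - κ))) :=
    ((h1.const_add 1).const_mul I).div (h1.const_sub 1) hne1
  set L : ℂ := I * (1 + κ) / (1 - κ) with hL
  have hL0 : L ≠ 0 := by
    rw [hL]
    apply div_ne_zero _ hne1
    apply mul_ne_zero I_ne_zero
    rw [add_comm]; exact h3
  have hZ : Tendsto (fun r : ℝ => ZE E (r * ζ)) (𝓝[<] 1) (𝓝 L) := by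
    apply hlim.congr'
    filter_upwards [eventually_mem_ball h8] with r hr
    rw [ev_kap hm hr]
    have h9 := add_I_ne_zero (ZE_im_nonneg hm hr)
    have h10 : 1 - (ZE E (r * ζ) - I) / (ZE E (r * ζ) + I) ≠ 0 := by
      have : 1 - (ZE E (r * ζ) - I) / (ZE E (r * ζ) + I) = 2 * I / (ZE E (r * ζ) + I) := by
        field_simp; ring
      rw [this]
      exact div_ne_zero (mul_ne_zero two_ne_zero I_ne_zero) h9
    rw [div_eq_iff h10]
    field_simp
    ring
  have hZ2 : Tendsto (fun r : ℝ => ZE E (r * ζ)) (𝓝[<] 1)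
      (𝓝 ((‖L‖ : ℂ) * Complex.exp ((π * E.indicator (fun _ => (1:ℝ)) ζ : ℝ) * I))) := by
    have h9 : Tendsto (fun r : ℝ => ((‖ZE E (r * ζ)‖ : ℝ) : ℂ) *
        Complex.exp ((π * (hE E (r * ζ)).re : ℝ) * I)) (𝓝[<] 1)
        (𝓝 ((‖L‖ : ℂ) * Complex.exp ((π * E.indicator (fun _ => (1:ℝ)) ζ : ℝ) * I))) := by
      apply Tendsto.mul
      · exact (Complex.continuous_ofReal.tendsto _).comp hZ.norm
      · apply (Complex.continuous_exp.tendsto _).comp
        apply Tendsto.mul_const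
        exact (Complex.continuous_ofReal.tendsto _).comp (h7.const_mul π)
    apply h9.congr
    intro r
    rw [norm_ZE, ← ZE_eq]
  have hLeq := tendsto_nhds_unique hZ hZ2
  have hLpos : 0 < ‖L‖ := norm_pos_iff.mpr hL0
  by_cases hζ : ζ ∈ E
  · refine ⟨-‖L‖, by linarith, ?_, fun _ => by linarith, fun h => absurd hζ h⟩
    rw [indicator_of_mem hζ, mul_one, Complex.exp_pi_mul_I] at hLeq
    have : ((-‖L‖ : ℝ) : ℂ) = L := by rw [hLeq]; push_cast; simp
    rw [this]; exact hZ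
  · refine ⟨‖L‖, by linarith, ?_, fun h => absurd h hζ, fun _ => hLpos⟩
    rw [indicator_of_notMem hζ, mul_zero, Complex.ofReal_zero, zero_mul, Complex.exp_zero,
      mul_one] at hLeq
    rw [← hLeq]; exact hZ

end Pool.Agent.Hinf
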