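import Pool.Agent.Lib.Hinf.Bdry

/-!
# The identity function, Taylor coefficients and the backward shift on `HInf`
-/

set_option autoImplicit false
set_option linter.unusedSimpArgs false

open Complex MeasureTheory Metric Set Filter Topology Real

namespace Pool.Agent.Hinf

/-- The identity function. -/
noncomputable def zz : HInf := mk (fun z => z) differentiableOn_id 1 (by
  intro z hz
  exact (mem_ball_zero_iff.mp hz).le)

theorem ev_zz {z : ℂ} (hz : z ∈ Metric.ball (0:ℂ) 1) : ev zz z = z := ev_mk _ _ _ _ hz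

theorem bv_zz : ∀ᵐ ζ ∂sg, bv zz ζ = ζ := by
  filter_upwards [ae_norm_eq_one] with ζ hζ
  apply bv_eq_of_tendsto
  have h : Tendsto (fun r : ℝ => (r : ℂ) * ζ) (𝓝[<] 1) (𝓝 ζ) := by
    have h1 : Tendsto (fun r : ℝ => (r : ℂ)) (𝓝[<] 1) (𝓝 ((1:ℝ):ℂ)) :=
      (Complex.continuous_ofReal.tendsto _).mono_left nhdsWithin_le_nhds
    have h2 := h1.mul_const ζ
    simpa using h2
  refine h.congr' ?_
  filter_upwards [eventually_mem_ball hζ] with r hr
  rw [ev_zz hr]

theorem inner_zz : Inner zz := by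
  filter_upwards [bv_zz, ae_norm_eq_one] with ζ h1 h2
  rw [h1, h2]

theorem Inner.pow {f : HInf} (hf : Inner f) (n : ℕ) : Inner (f ^ n) := by
  filter_upwards [hf, bv_pow f n] with ζ h1 h2
  rw [h2, norm_pow, h1, one_pow]

theorem bv_zz_pow (n : ℕ) : ∀ᵐ ζ ∂sg, bv (zz ^ n) ζ = ζ ^ n := by
  filter_upwards [bv_pow zz n, bv_zz] with ζ h1 h2
  rw [h1, h2]

theorem ev_zz_pow_zero {n : ℕ} (hn : n ≠ 0) : ev (zz ^ n) 0 = 0 := by
  rw [ev_pow _ _ zero_mem_D, ev_zz zero_mem_D, zero_pow hn]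

/-- The backward shift. -/
theorem exists_bshift (f : HInf) : ∃ g : HInf, f = (ev f 0) • (1 : HInf) + zz * g := by
  have hd : DifferentiableOn ℂ (dslope (ev f) 0) (Metric.ball (0:ℂ) 1) :=
    (Complex.differentiableOn_dslope (isOpen_ball.mem_nhds zero_mem_D)).mpr (differentiableOn_ev f)
  have hb : ∀ z ∈ Metric.ball (0:ℂ) 1, ‖dslope (ev f) 0 z‖ ≤ (2 * ‖f‖) / 1 := by
    intro z hz
    refine Complex.norm_dslope_le_div_of_mapsTo_ball (differentiableOn_ev f) ?_ hz
    intro w _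
    rw [mem_closedBall, dist_eq_norm]
    calc ‖ev f w - ev f 0‖ ≤ ‖ev f w‖ + ‖ev f 0‖ := norm_sub_le _ _
      _ ≤ ‖f‖ + ‖f‖ := add_le_add (norm_ev_le _ _) (norm_ev_le _ _)
      _ = 2 * ‖f‖ := by ring
  refine ⟨mk (dslope (ev f) 0) hd _ hb, ?_⟩
  apply ext_ev
  intro z hz
  rw [ev_add, ev_smul, ev_one hz, ev_mul, ev_zz hz, ev_mk _ _ _ _ hz]
  have h := sub_smul_dslope (ev f) 0 z
  rw [sub_zero, smul_eq_mul] at h
  rw [h]
  ring

/-- Taylor coefficients. -/
noncomputable def co (n : ℕ) (f : HInf) : ℂ := ∫ ζ, bv f ζ * (starRingEnd ℂ) ζ ^ n ∂sg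

theorem integral_bv_mul_pow (f : HInf) {n : ℕ} (hn : n ≠ 0) :
    ∫ ζ, bv f ζ * ζ ^ n ∂sg = 0 := by
  have h := ev_zero_eq_integral (f * zz ^ n)
  rw [ev_mul, ev_zz_pow_zero hn, mul_zero] at h
  rw [h]
  apply integral_congr_ae
  filter_upwards [bv_mul f (zz ^ n), bv_zz_pow n] with ζ h1 h2
  rw [h1, h2]

theorem integral_conj_pow_mul {f : HInf} {k n : ℕ} (hkn : k < n) :
    ∫ ζ, ζ ^ k * (starRingEnd ℂ) (ζ ^ n * bv f ζ) ∂sg = 0 := by
  have h1 : ∫ ζ, ζ ^ k * (starRingEnd ℂ) (ζ ^ n * bv f ζ) ∂sg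
      = ∫ ζ, (starRingEnd ℂ) (bv f ζ * ζ ^ (n - k)) ∂sg := by
    apply integral_congr_ae
    filter_upwards [ae_norm_eq_one] with ζ hζ
    have h2 : ζ * (starRingEnd ℂ) ζ = 1 := by
      rw [Complex.mul_conj, Complex.normSq_eq_norm_sq, hζ]
      simp
    have h3 : n = (n - k) + k := by omega
    have h4 : ζ ^ k * (starRingEnd ℂ) ζ ^ k = 1 := by rw [← mul_pow, h2, one_pow]
    rw [map_mul, map_mul, map_pow, map_pow]
    nth_rw 1 [h3]
    rw [pow_add]
    linear_combination ((starRingEnd ℂ) ζ ^ (n - k) * (starRingEnd ℂ) (bv f ζ)) * h4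
  rw [h1, integral_conj, integral_bv_mul_pow f (by omega), map_zero]

theorem integral_conj_pow {k n : ℕ} (hkn : k < n) :
    ∫ ζ, ζ ^ k * (starRingEnd ℂ) ζ ^ n ∂sg = 0 := by
  rw [← integral_conj_pow_mul (f := 1) hkn]
  apply integral_congr_ae
  filter_upwards [bv_one] with ζ hζ
  rw [hζ, mul_one, map_pow]

theorem exists_taylor (f : HInf) (N : ℕ) :
    ∃ g : HInf, f = (∑ n ∈ Finset.range N, (co n f) • zz ^ n) + zz ^ N * g := by
  induction N with
  | zero =>
    refine ⟨f, ?_⟩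
    rw [Finset.range_zero, Finset.sum_empty, pow_zero, one_mul, zero_add]
  | succ N ih =>
    obtain ⟨g, hg⟩ := ih
    obtain ⟨g₂, hg₂⟩ := exists_bshift g
    refine ⟨g₂, ?_⟩
    have hbv : ∀ᵐ ζ ∂sg, bv f ζ = (∑ n ∈ Finset.range N, co n f * ζ ^ n) + ζ ^ N * bv g ζ := by
      have hs : ∀ M : ℕ, ∀ᵐ ζ ∂sg, bv (∑ n ∈ Finset.range M, (co n f) • zz ^ n) ζ
          = ∑ n ∈ Finset.range M, co n f * ζ ^ n := by
        intro M
        induction M with
        | zero =>
          filter_upwards with ζ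
          rw [Finset.range_zero, Finset.sum_empty, Finset.sum_empty, bv_zero]
        | succ M ihM =>
          filter_upwards [ihM, bv_add (∑ n ∈ Finset.range M, (co n f) • zz ^ n) (co M f • zz ^ M),
            bv_smul (co M f) (zz ^ M), bv_zz_pow M] with ζ a1 a2 a3 a4
          rw [Finset.sum_range_succ, Finset.sum_range_succ, a2, a1, a3, a4]
      filter_upwards [hs N, bv_add (∑ n ∈ Finset.range N, (co n f) • zz ^ n) (zz ^ N * g),
        bv_mul (zz ^ N) g, bv_zz_pow N] with ζ a1 a2 a3 a4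
      rw [← a1, ← a4, ← a3, ← a2, ← hg]
    have hco : co N f = ev g 0 := by
      rw [co, ev_zero_eq_integral]
      have h1 : ∫ ζ, bv f ζ * (starRingEnd ℂ) ζ ^ N ∂sg
          = ∫ ζ, ((∑ n ∈ Finset.range N, co n f * (ζ ^ n * (starRingEnd ℂ) ζ ^ N)) + bv g ζ) ∂sg := by
        apply integral_congr_ae
        filter_upwards [hbv, ae_norm_eq_one] with ζ a1 hζ
        have h2 : ζ * (starRingEnd ℂ) ζ = 1 := by
          rw [Complex.mul_conj, Complex.normSq_eq_norm_sq, hζ]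
          simp
        have h4 : ζ ^ N * (starRingEnd ℂ) ζ ^ N = 1 := by rw [← mul_pow, h2, one_pow]
        rw [a1, add_mul, Finset.sum_mul]
        congr 1
        · exact Finset.sum_congr rfl (fun n _ => by ring)
        · linear_combination (bv g ζ) * h4
      have hint : ∀ n : ℕ, Integrable (fun ζ : ℂ => co n f * (ζ ^ n * (starRingEnd ℂ) ζ ^ N)) sg := by
        intro n
        apply integrable_of_continuousOn
        fun_prop
      rw [h1, integral_add (integrable_finsetSum _ (fun n _ => hint n)) (integrable_bv g),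
        integral_finsetSum _ (fun n _ => hint n)]
      rw [Finset.sum_eq_zero, zero_add]
      intro n hn
      rw [integral_const_mul, integral_conj_pow (Finset.mem_range.mp hn), mul_zero]
    rw [Finset.sum_range_succ, hco]
    have e1 : zz ^ (N + 1) * g₂ = zz ^ N * (zz * g₂) := by rw [pow_succ, mul_assoc]
    have e2 : ev g 0 • zz ^ N = zz ^ N * (ev g 0 • (1 : HInf)) := by
      rw [mul_smul_comm, mul_one]
    rw [e1, e2, add_assoc, ← mul_add, ← hg₂]
    exact hg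

theorem norm_co_zero (f : HInf) : co 0 f = ev f 0 := by
  rw [co, ev_zero_eq_integral]
  simp

theorem norm_co_le {ψ : HInf} (hψ : ‖ψ‖ ≤ 1) {n : ℕ} (hn : n ≠ 0) :
    ‖co n ψ‖ ≤ 2 * (1 - (ev ψ 0).re) := by
  have hc1 : Integrable (fun ζ : ℂ => (starRingEnd ℂ) ζ ^ n) sg := by
    apply integrable_of_continuousOn
    fun_prop
  have i1 : Integrable (fun ζ => bv ψ ζ * (starRingEnd ℂ) ζ ^ n) sg := by
    refine Integrable.of_bound (C := 1) ?_ ?_
    · exact (measurable_bv ψ).aestronglyMeasurable.mul hc1.aestronglyMeasurable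
    · filter_upwards [norm_bv_le ψ, ae_norm_eq_one] with ζ h1 h2
      rw [norm_mul, norm_pow, Complex.norm_conj, h2, one_pow, mul_one]
      exact h1.trans hψ
  have i2 : Integrable (fun ζ => (starRingEnd ℂ) (bv ψ ζ * ζ ^ n)) sg := by
    refine Integrable.of_bound (C := 1) ?_ ?_
    · have hm : Measurable (fun ζ => bv ψ ζ * ζ ^ n) :=
        (measurable_bv ψ).mul (measurable_id.pow_const n)
      exact (Complex.continuous_conj.measurable.comp hm).aestronglyMeasurable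
    · filter_upwards [norm_bv_le ψ, ae_norm_eq_one] with ζ h1 h2
      rw [Complex.norm_conj, norm_mul, norm_pow, h2, one_pow, mul_one]
      exact h1.trans hψ
  have e1 : ∫ ζ, (starRingEnd ℂ) (bv ψ ζ * ζ ^ n) ∂sg = 0 := by
    rw [integral_conj, integral_bv_mul_pow ψ hn, map_zero]
  have e2 : ∫ ζ, (starRingEnd ℂ) ζ ^ n ∂sg = 0 := by
    have := integral_conj_pow (k := 0) (n := n) (by omega)
    simpa using this
  have e3 : co n ψ = ∫ ζ, -((2 * (1 - (bv ψ ζ).re) : ℝ) : ℂ) * (starRingEnd ℂ) ζ ^ n ∂sg := by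
    have h1 : co n ψ = (∫ ζ, bv ψ ζ * (starRingEnd ℂ) ζ ^ n ∂sg)
        + (∫ ζ, (starRingEnd ℂ) (bv ψ ζ * ζ ^ n) ∂sg) - 2 * ∫ ζ, (starRingEnd ℂ) ζ ^ n ∂sg := by
      rw [e1, e2, co]; ring
    have i12 : Integrable (fun ζ => bv ψ ζ * (starRingEnd ℂ) ζ ^ n
        + (starRingEnd ℂ) (bv ψ ζ * ζ ^ n)) sg := i1.add i2
    rw [h1, ← integral_const_mul, ← integral_add i1 i2, ← integral_sub i12 (hc1.const_mul 2)]
    apply integral_congr_ae
    filter_upwards with ζ
    have h2 : bv ψ ζ + (starRingEnd ℂ) (bv ψ ζ) = ((2 * (bv ψ ζ).re : ℝ) : ℂ) := Complex.add_conj _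
    rw [map_mul, map_pow]
    push_cast at h2 ⊢
    linear_combination ((starRingEnd ℂ) ζ ^ n) * h2
  rw [e3]
  have i3 : Integrable (fun ζ => (bv ψ ζ).re) sg := (integrable_bv ψ).re
  have e4 : ∫ ζ, 2 * (1 - (bv ψ ζ).re) ∂sg = 2 * (1 - (ev ψ 0).re) := by
    rw [integral_const_mul, integral_sub (integrable_const _) i3, ev_zero_eq_integral]
    have : (∫ ζ, bv ψ ζ ∂sg).re = ∫ ζ, (bv ψ ζ).re ∂sg := (integral_re (integrable_bv ψ)).symm
    rw [this]
    simp
  rw [← e4]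
  apply norm_integral_le_of_norm_le
  · exact ((integrable_const (1 : ℝ)).sub i3).const_mul 2
  · filter_upwards [norm_bv_le ψ, ae_norm_eq_one] with ζ h1 h2
    rw [norm_mul, norm_pow, Complex.norm_conj, h2, one_pow, mul_one, norm_neg, Complex.norm_real,
      Real.norm_of_nonneg]
    have := Complex.re_le_norm (bv ψ ζ)
    linarith

end Pool.Agent.Hinf
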