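import Pool.Agent.Lib.Hinf.Shift

/-!
# Asymptotic orthogonality of tails
-/

set_option autoImplicit false
set_option linter.unusedSimpArgs false

open Complex MeasureTheory Metric Set Filter Topology Real
open scoped NNReal ENNReal

namespace Pool.Agent.Hinf

theorem exists_poly_L1 (f : HInf) {ε : ℝ} (hε : 0 < ε) :
    ∃ (N : ℕ) (a : ℕ → ℂ), ∫ ζ, ‖bv f ζ - ∑ j ∈ Finset.range N, a j * ζ ^ j‖ ∂sg ≤ ε := by
  -- step 1: dilations
  have h1 : Tendsto (fun n => ∫ ζ, ‖bv f ζ - ev f (rad n * ζ)‖ ∂sg) atTop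
      (𝓝 (∫ _ζ : ℂ, (0 : ℝ) ∂sg)) := by
    apply tendsto_integral_of_dominated_convergence (fun _ => 2 * ‖f‖)
    · intro n
      exact ((measurable_bv f).sub ((measurable_ev f).comp
        (measurable_const_mul _))).norm.aestronglyMeasurable
    · exact integrable_const _
    · intro n
      filter_upwards [norm_bv_le f] with ζ hζ
      rw [Real.norm_of_nonneg (norm_nonneg _)]
      calc _ ≤ ‖bv f ζ‖ + ‖ev f (rad n * ζ)‖ := norm_sub_le _ _
        _ ≤ ‖f‖ + ‖f‖ := add_le_add hζ (norm_ev_le _ _)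
        _ = 2 * ‖f‖ := by ring
    · filter_upwards [tendsto_bv f] with ζ hζ
      have h2 := ((hζ.comp tendsto_rad).const_sub (bv f ζ)).norm
      rw [sub_self, norm_zero] at h2
      exact h2
  rw [integral_zero] at h1
  obtain ⟨n, hn⟩ := (h1.eventually_lt_const (half_pos hε)).exists
  -- step 2: power series
  have hr0 := rad_pos n
  have hr1 := rad_lt_one n
  set R : ℝ := (1 + (rad n)⁻¹) / 2 with hR
  have hinv : 1 < (rad n)⁻¹ := (one_lt_inv₀ hr0).mpr hr1
  have hR1 : 1 < R := by rw [hR]; linarith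
  have hRr : rad n * R < 1 := by
    have : R < (rad n)⁻¹ := by rw [hR]; linarith
    calc rad n * R < rad n * (rad n)⁻¹ := by gcongr
      _ = 1 := mul_inv_cancel₀ hr0.ne'
  set F : ℂ → ℂ := fun z => ev f (rad n * z) with hF
  lift R to ℝ≥0 using (by linarith) with R' hR'
  have hd : DifferentiableOn ℂ F (Metric.closedBall 0 (R' : ℝ)) := by
    apply (differentiableOn_ev f).comp (by fun_prop)
    intro z hz
    rw [mem_closedBall_zero_iff] at hz
    rw [mem_ball_zero_iff, norm_mul, Complex.norm_real, Real.norm_of_nonneg hr0.le]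
    calc rad n * ‖z‖ ≤ rad n * R' := by gcongr
      _ < 1 := hRr
  have hR'1 : (1 : ℝ≥0) < R' := by exact_mod_cast hR1
  have hps := hd.hasFPowerSeriesOnBall (lt_trans zero_lt_one hR'1)
  obtain ⟨r', hr'1, hr'2⟩ := exists_between hR'1
  have hu := hps.tendstoUniformlyOn' (r' := r') (by exact_mod_cast hr'2)
  rw [Metric.tendstoUniformlyOn_iff] at hu
  obtain ⟨N, hN⟩ := (hu (ε / 2) (half_pos hε)).exists
  refine ⟨N, (cauchyPowerSeries F 0 R').coeff, ?_⟩
  have hpt : ∀ᵐ ζ ∂sg, ‖bv f ζ - ∑ j ∈ Finset.range N, (cauchyPowerSeries F 0 R').coeff j * ζ ^ j‖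
      ≤ ‖bv f ζ - ev f (rad n * ζ)‖ + ε / 2 := by
    filter_upwards [ae_norm_eq_one] with ζ hζ
    have hmem : ζ ∈ Metric.ball (0 : ℂ) (r' : ℝ) := by
      rw [mem_ball_zero_iff, hζ]
      exact_mod_cast hr'1
    have h3 := (hN ζ hmem).le
    have h4 : (cauchyPowerSeries F 0 R').partialSum N (ζ - 0)
        = ∑ j ∈ Finset.range N, (cauchyPowerSeries F 0 R').coeff j * ζ ^ j := by
      rw [sub_zero, FormalMultilinearSeries.partialSum]
      refine Finset.sum_congr rfl (fun j _ => ?_)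
      rw [FormalMultilinearSeries.apply_eq_pow_smul_coeff, smul_eq_mul, mul_comm]
    rw [h4, dist_eq_norm] at h3
    calc _ = ‖(bv f ζ - ev f (rad n * ζ)) + (F ζ
        - ∑ j ∈ Finset.range N, (cauchyPowerSeries F 0 R').coeff j * ζ ^ j)‖ := by
          congr 1
          rw [hF]
          ring
      _ ≤ _ := norm_add_le _ _
      _ ≤ _ := add_le_add le_rfl h3
  have hint1 : Integrable (fun ζ => ‖bv f ζ - ev f (rad n * ζ)‖) sg := by
    refine Integrable.of_bound (C := 2 * ‖f‖) ?_ ?_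
    · exact ((measurable_bv f).sub ((measurable_ev f).comp
        (measurable_const_mul _))).norm.aestronglyMeasurable
    · filter_upwards [norm_bv_le f] with ζ hζ
      rw [Real.norm_of_nonneg (norm_nonneg _)]
      calc _ ≤ ‖bv f ζ‖ + ‖ev f (rad n * ζ)‖ := norm_sub_le _ _
        _ ≤ ‖f‖ + ‖f‖ := add_le_add hζ (norm_ev_le _ _)
        _ = 2 * ‖f‖ := by ring
  have hint2 : Integrable (fun ζ => ‖bv f ζ
      - ∑ j ∈ Finset.range N, (cauchyPowerSeries F 0 R').coeff j * ζ ^ j‖) sg := by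
    apply Integrable.norm
    apply (integrable_bv f).sub
    apply integrable_of_continuousOn
    fun_prop
  calc _ ≤ ∫ ζ, (‖bv f ζ - ev f (rad n * ζ)‖ + ε / 2) ∂sg :=
        integral_mono_ae hint2 (hint1.add (integrable_const _)) hpt
    _ = (∫ ζ, ‖bv f ζ - ev f (rad n * ζ)‖ ∂sg) + ε / 2 := by
        rw [integral_add hint1 (integrable_const _)]
        simp
    _ ≤ ε := by linarith

theorem exists_tail_orth (f : HInf) {ε : ℝ} (hε : 0 < ε) :
    ∃ N : ℕ, ∀ g : HInf, ‖g‖ ≤ 1 → ‖∫ ζ, bv f ζ * (starRingEnd ℂ) (bv (zz ^ N * g) ζ) ∂sg‖ ≤ ε := by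
  obtain ⟨N, a, hNa⟩ := exists_poly_L1 f hε
  refine ⟨N, fun g hg => ?_⟩
  have hmg : Measurable (fun ζ => (starRingEnd ℂ) (bv (zz ^ N * g) ζ)) :=
    Complex.continuous_conj.measurable.comp (measurable_bv _)
  have hbg : ∀ᵐ ζ ∂sg, ‖(starRingEnd ℂ) (bv (zz ^ N * g) ζ)‖ ≤ 1 := by
    filter_upwards [norm_bv_le (zz ^ N * g)] with ζ hζ
    rw [Complex.norm_conj]
    refine hζ.trans ?_
    rw [(inner_zz.pow N).norm_mul_eq]
    exact hg
  have ip : Integrable (fun ζ : ℂ => ∑ j ∈ Finset.range N, a j * ζ ^ j) sg := by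
    apply integrable_of_continuousOn
    fun_prop
  have i1 : Integrable (fun ζ => (bv f ζ - ∑ j ∈ Finset.range N, a j * ζ ^ j)
      * (starRingEnd ℂ) (bv (zz ^ N * g) ζ)) sg :=
    ((integrable_bv f).sub ip).mul_bdd hmg.aestronglyMeasurable hbg
  have i2 : Integrable (fun ζ => (∑ j ∈ Finset.range N, a j * ζ ^ j)
      * (starRingEnd ℂ) (bv (zz ^ N * g) ζ)) sg :=
    ip.mul_bdd hmg.aestronglyMeasurable hbg
  have e0 : ∫ ζ, (∑ j ∈ Finset.range N, a j * ζ ^ j) * (starRingEnd ℂ) (bv (zz ^ N * g) ζ) ∂sg = 0 := by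
    have e1 : ∫ ζ, (∑ j ∈ Finset.range N, a j * ζ ^ j) * (starRingEnd ℂ) (bv (zz ^ N * g) ζ) ∂sg
        = ∫ ζ, ∑ j ∈ Finset.range N, a j * (ζ ^ j * (starRingEnd ℂ) (ζ ^ N * bv g ζ)) ∂sg := by
      apply integral_congr_ae
      filter_upwards [bv_mul (zz ^ N) g, bv_zz_pow N] with ζ b1 b2
      rw [b1, b2, Finset.sum_mul]
      exact Finset.sum_congr rfl (fun j _ => by ring)
    have i3 : ∀ j : ℕ, Integrable (fun ζ : ℂ => a j * (ζ ^ j * (starRingEnd ℂ) (ζ ^ N * bv g ζ))) sg := by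
      intro j
      apply Integrable.const_mul
      have hm3 : Measurable (fun ζ : ℂ => (starRingEnd ℂ) (ζ ^ N * bv g ζ)) :=
        Complex.continuous_conj.measurable.comp ((measurable_id.pow_const N).mul (measurable_bv g))
      refine Integrable.of_bound (C := 1) ?_ ?_
      · exact ((measurable_id.pow_const j).mul hm3).aestronglyMeasurable
      · filter_upwards [ae_norm_eq_one, norm_bv_le g] with ζ b1 b2
        rw [norm_mul, Complex.norm_conj, norm_mul, norm_pow, norm_pow, b1, one_pow, one_pow,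
          one_mul, one_mul]
        exact b2.trans hg
    rw [e1, integral_finsetSum _ (fun j _ => i3 j)]
    refine Finset.sum_eq_zero (fun j hj => ?_)
    rw [integral_const_mul, integral_conj_pow_mul (Finset.mem_range.mp hj), mul_zero]
  have e2 : ∫ ζ, bv f ζ * (starRingEnd ℂ) (bv (zz ^ N * g) ζ) ∂sg
      = ∫ ζ, (bv f ζ - ∑ j ∈ Finset.range N, a j * ζ ^ j)
        * (starRingEnd ℂ) (bv (zz ^ N * g) ζ) ∂sg := by
    have e3 : ∫ ζ, bv f ζ * (starRingEnd ℂ) (bv (zz ^ N * g) ζ) ∂sg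
        = ∫ ζ, ((bv f ζ - ∑ j ∈ Finset.range N, a j * ζ ^ j)
        * (starRingEnd ℂ) (bv (zz ^ N * g) ζ)
        + (∑ j ∈ Finset.range N, a j * ζ ^ j) * (starRingEnd ℂ) (bv (zz ^ N * g) ζ)) ∂sg := by
      apply integral_congr_ae
      filter_upwards with ζ
      ring
    rw [e3, integral_add i1 i2, e0, add_zero]
  rw [e2]
  refine le_trans ?_ hNa
  apply norm_integral_le_of_norm_le
  · exact ((integrable_bv f).sub ip).norm
  · filter_upwards [hbg] with ζ hζ
    rw [norm_mul]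
    calc _ ≤ ‖bv f ζ - ∑ j ∈ Finset.range N, a j * ζ ^ j‖ * 1 := by gcongr
      _ = _ := mul_one _

end Pool.Agent.Hinf
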